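import Pool.Agent.Helper244.RB.Serve

set_option autoImplicit false
open Classical

namespace Pool.Agent.Helper244.RB

variable {V : Type} [Fintype V] {t d : ℕ}

omit [Fintype V] in
lemma used_iff [NeZero d] (ω : Om V t d) (v : V) : usedB ω t v ↔ ∃ j : Fin t, ω v j = 0 := by
  unfold usedB mem
  constructor
  · rintro ⟨j, hj, hjt, h0⟩; exact ⟨⟨j, hjt⟩, Fin.ext h0⟩
  · rintro ⟨j, h0⟩; exact ⟨j, j.2, j.2, by rw [h0]; rfl⟩

omit [Fintype V] in
lemma used_dep [NeZero d] (v : V) : DependsOn (fun ω : Om V t d => usedB ω t v) {v} := by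
  intro ω ω' h hu
  rw [used_iff] at hu ⊢
  rw [← h v (by simp)]
  exact hu

lemma pr_used [NeZero d] (v : V) : pr (fun ω : Om V t d => usedB ω t v) ≤ (t : ℝ) / d := by
  have e : (fun ω : Om V t d => usedB ω t v) =
      (fun ω : Om V t d => ∃ j ∈ (Finset.univ : Finset (Fin t)), ω v j = 0) := by
    funext ω
    rw [used_iff]
    simp
  rw [e]
  refine (pr_exists_le (Finset.univ : Finset (Fin t)) (fun j (ω : Om V t d) => ω v j = 0)).trans ?_
  have h2 : ∀ j : Fin t, pr (fun ω : Om V t d => ω v j = 0) = 1 / (d : ℝ) := by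
    intro j
    have h1 := pr_coord (T := V) (C := Fin t → Fin d) v (fun y => y j = 0)
    rw [h1]
    have h := pr_coord (T := Fin t) (C := Fin d) j (fun c => c = 0)
    have e1 : ((Finset.univ : Finset (Fin d)).filter (fun c => c = 0)).card = 1 := by
      have : ((Finset.univ : Finset (Fin d)).filter (fun c => c = 0)) = {0} := by ext c; simp
      rw [this]; simp
    rw [e1, Fintype.card_fin, Nat.cast_one] at h
    rw [← h]
    unfold pr cnt ev
    convert rfl
  rw [Finset.sum_congr rfl (fun j _ => h2 j), Finset.sum_const, Finset.card_univ, Fintype.card_fin,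
    nsmul_eq_mul]
  apply le_of_eq
  ring

lemma used_all [NeZero d] (J : Finset V) :
    pr (fun ω : Om V t d => ∀ v ∈ J, usedB ω t v) ≤ ((t : ℝ) / d) ^ J.card := by
  refine pr_all (fun (v : V) (ω : Om V t d) => usedB ω t v) (fun v => {v}) _ (by positivity) J
    (fun v _ => used_dep v) ?_ (fun v _ => pr_used v)
  intro i _ j _ hij
  simpa using hij

/-- tail bound for items with disjoint supports -/
lemma item_tail [NeZero d] (I : Finset V) (P : V → Om V t d → Prop) (S : V → Finset V) (p : ℝ)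
    (hp0 : 0 ≤ p) (hdep : ∀ i ∈ I, DependsOn (P i) (S i))
    (hdis : ∀ i ∈ I, ∀ j ∈ I, i ≠ j → Disjoint (S i) (S j)) (hp : ∀ i ∈ I, pr (P i) ≤ p)
    (s : ℕ) (hs : 0 < s) :
    pr (fun ω => s ≤ (I.filter (fun i => P i ω)).card) ≤ (3 * (I.card : ℝ) * p / s) ^ s :=
  tail I P p hp0 s hs (fun J hJ => pr_all P S p hp0 J (fun i hi => hdep i (hJ hi))
    (fun i hi j hj => hdis i (hJ hi) j (hJ hj)) (fun i hi => hp i (hJ hi)))

lemma used_tail [NeZero d] (I : Finset V) (s : ℕ) (hs : 0 < s) :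
    pr (fun ω : Om V t d => s ≤ (I.filter (fun i => usedB ω t i)).card) ≤
      (3 * (I.card : ℝ) * ((t : ℝ) / d) / s) ^ s := by
  refine item_tail I (fun (v : V) (ω : Om V t d) => usedB ω t v) (fun v => {v}) _ (by positivity)
    (fun v _ => used_dep v) ?_ (fun v _ => pr_used v) s hs
  intro i _ j _ hij
  simpa using hij

omit [Fintype V] in
lemma usedcard_mono [NeZero d] (ω : Om V t d) (I : Finset V) {m n : ℕ} (hmn : m ≤ n) :
    (I.filter (fun i => usedB ω m i)).card ≤ (I.filter (fun i => usedB ω n i)).card := by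
  apply Finset.card_le_card
  intro v hv
  rw [Finset.mem_filter] at hv ⊢
  exact ⟨hv.1, usedB_mono hmn hv.2⟩

omit [Fintype V] in
lemma usedcard_congr [NeZero d] {n : ℕ} {ω ω' : Om V t d} (h : agree n ω ω') (I : Finset V) :
    (I.filter (fun i => usedB ω n i)) = (I.filter (fun i => usedB ω' n i)) := by
  apply Finset.filter_congr
  intro v _
  exact usedB_congr h n le_rfl v

/-- vertices with many nonadjacent pairs of neighbours -/
theorem sparse_bound [NeZero d] (hd : 1000 ≤ d) (G : SimpleGraph V)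
    (hdeg : ∀ v, (nb G v).card ≤ d) (h : ℕ) (ht : t = h + h) (v : V)
    (hv : d * d ≤ 10000 * npairs G v) :
    pr (fun ω : Om V t d => ¬ twoPal G ω v) ≤
      pr (fun ω : Om V t d => d < 40000 * ((nb G v).filter (fun u => usedB ω t u)).card) +
      2 * (1 - Real.exp (-8) / 40000) ^ h := by
  let Reg : ℕ → Om V t d → Prop := fun n ω =>
    40000 * ((nb G v).filter (fun u => usedB ω n u)).card ≤ d
  have hRa : ∀ n ω ω', agree n ω ω' → Reg n ω → Reg n ω' := by
    intro n ω ω' ha hr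
    simp only [Reg] at hr ⊢
    rwa [← usedcard_congr ha]
  have hRmono : ∀ m n ω, m ≤ n → Reg n ω → Reg m ω := by
    intro m n ω hmn hr
    have := usedcard_mono ω (nb G v) hmn
    simp only [Reg] at hr ⊢
    omega
  have hGa : ∀ n (ω ω' : Om V t d) x, agree n ω ω' → pairGood G v n ω x → pairGood G v n ω' x := by
    rintro n ω ω' x ha ⟨a, b, h1, h2, h3, h4, h5, h6, h7⟩
    exact ⟨a, b, h1, h2, h3, fun hu => h4 ((usedB_congr ha n le_rfl a).mpr hu),
      fun hu => h5 ((usedB_congr ha n le_rfl b).mpr hu), h6, h7⟩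
  have hexp := Real.exp_pos (-8)
  have hexp1 : Real.exp (-8) ≤ 1 := Real.exp_le_one_iff.mpr (by norm_num)
  have hlow : ∀ n ω, Reg n ω → Real.exp (-8) / 40000 ≤ pr (pairGood G v n ω) := by
    intro n ω hr
    have h1 := pair_count (by omega) G hdeg v n ω
    have h2 := pairs_fresh G hdeg v n ω
    set P := ((nb G v ×ˢ nb G v).filter (fun p => (p.1 ≠ p.2 ∧ ¬ G.Adj p.1 p.2) ∧
      ¬ usedB ω n p.1 ∧ ¬ usedB ω n p.2)).card with hP
    set u := ((nb G v).filter (fun u => usedB ω n u)).card with hu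
    have h3 : 40000 * u ≤ d := hr
    have h4 : d * d ≤ 20000 * P := by nlinarith
    have h4r : (d : ℝ) * d ≤ 20000 * P := by exact_mod_cast h4
    have hdr : (1000 : ℝ) ≤ d := by exact_mod_cast hd
    have h5 : Real.exp (-8) / 20000 ≤ (P : ℝ) * (Real.exp (-8) / (d : ℝ) ^ 2) := by
      rw [mul_div_assoc', div_le_div_iff₀ (by norm_num) (by positivity)]
      nlinarith
    linarith
  have hc1 := chain 0 Reg (pairGood G v) hRa (fun n ω hr => hRmono n (n + 1) ω (by omega) hr) hGa
    (Real.exp (-8) / 40000) (by linarith) h (by omega) (fun n _ _ ω hr => hlow n ω hr)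
  have hc2 := chain h Reg (pairGood G v) hRa (fun n ω hr => hRmono n (n + 1) ω (by omega) hr) hGa
    (Real.exp (-8) / 40000) (by linarith) h (by omega) (fun n _ _ ω hr => hlow n ω hr)
  have hsub : pr (fun ω : Om V t d => ¬ twoPal G ω v) ≤
      pr (fun ω : Om V t d => d < 40000 * ((nb G v).filter (fun u => usedB ω t u)).card ∨
        ((Reg (0 + h) ω ∧ ∀ n, 0 ≤ n → n < 0 + h → ¬ pairGood G v n ω (layer ω n)) ∨
        (Reg (h + h) ω ∧ ∀ n, h ≤ n → n < h + h → ¬ pairGood G v n ω (layer ω n)))) := by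
    apply pr_mono
    intro ω hno
    by_contra hcon
    push Not at hcon
    obtain ⟨hr, hg1, hg2⟩ := hcon
    have hR : Reg t ω := hr
    obtain ⟨n1, -, hn1, g1⟩ := hg1 (hRmono _ t ω (by omega) hR)
    obtain ⟨n2, hn2, hn2', g2⟩ := hg2 (hRmono _ t ω (by omega) hR)
    have mk : ∀ n, n < t → pairGood G v n ω (layer ω n) → pal G ω n v := by
      rintro n hn ⟨a, b, k1, k2, k3, k4, k5, k6, k7⟩
      exact ⟨a, b, k1, k2, k3, ret_of_isol hn k6 k4, ret_of_isol hn k7 k5⟩
    exact hno ⟨n1, n2, by omega, mk n1 (by omega) g1, mk n2 (by omega) g2⟩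
  refine hsub.trans ((pr_or_le _ _).trans ?_)
  have := pr_or_le (fun ω : Om V t d => Reg (0 + h) ω ∧ ∀ n, 0 ≤ n → n < 0 + h → ¬ pairGood G v n ω (layer ω n))
    (fun ω : Om V t d => Reg (h + h) ω ∧ ∀ n, h ≤ n → n < h + h → ¬ pairGood G v n ω (layer ω n))
  linarith

/-- outside neighbours with few neighbours in the clique -/
noncomputable def NHs (d : ℕ) (G : SimpleGraph V) (C : Finset V) (z : V) : Finset V :=
  (nb G z).filter (fun x => x ∉ C ∧ degIn G C x < d - C.card + 6)

theorem NH_card {G : SimpleGraph V} {F : Finset (Finset V)} (hR : RStr d V G F) {C : Finset V}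
    (hC : C ∈ F) {z : V} (hz : z ∈ C) : d - C.card ≤ (NHs d G C z).card := by
  have h1 : nb G z ∩ C = C.erase z := by
    ext w
    rw [Finset.mem_inter, Finset.mem_erase, mem_nb]
    constructor
    · rintro ⟨h1, h2⟩
      refine ⟨?_, h2⟩
      rintro rfl; exact G.loopless.irrefl _ h1
    · rintro ⟨h1, h2⟩
      exact ⟨hR.clq C hC z hz w h2 (Ne.symm h1), h2⟩
  have h2 := Finset.card_sdiff_add_card_inter (nb G z) C
  rw [h1, Finset.card_erase_of_mem hz, hR.reg z] at h2
  have h3 := Finset.card_pos.mpr ⟨z, hz⟩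
  set Hg := (nb G z).filter (fun x => x ∉ C ∧ d - C.card + 6 ≤ degIn G C x) with hHg
  have h4 : nb G z \ C ⊆ NHs d G C z ∪ Hg := by
    intro w hw
    rw [Finset.mem_sdiff] at hw
    rw [Finset.mem_union, NHs, hHg, Finset.mem_filter, Finset.mem_filter]
    by_cases hlt : degIn G C w < d - C.card + 6
    · left; exact ⟨hw.1, hw.2, hlt⟩
    · right; exact ⟨hw.1, hw.2, by omega⟩
  have h5 : Hg.card ≤ 1 := by
    rw [Finset.card_le_one]
    intro a ha b hb
    rw [hHg, Finset.mem_filter, mem_nb] at ha hb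
    by_contra hab
    exact hR.huge C hC z hz a b ha.2.1 hb.2.1 hab ha.1 hb.1 ha.2.2 hb.2.2
  have h6 := (Finset.card_le_card h4).trans (Finset.card_union_le _ _)
  have h7 := hR.small C hC
  omega

/-- vertices of a clique with many outside neighbours -/
theorem large_bound [NeZero d] (hd : 1000 ≤ d) {G : SimpleGraph V} {F : Finset (Finset V)}
    (hR : RStr d V G F) {C : Finset V} (hC : C ∈ F) (h : ℕ) (ht : t = h + h) {z : V} (hz : z ∈ C) :
    pr (fun ω : Om V t d => 8 * (C.filter (fun c => usedB ω t c)).card ≤ C.card ∧ ¬ twoPal G ω z) ≤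
      pr (fun ω : Om V t d => (NHs d G C z).card <
        2 * ((NHs d G C z).filter (fun u => usedB ω t u)).card) +
      2 * (1 - ((d - C.card : ℕ) : ℝ) * Real.exp (-8) / (6 * d)) ^ h := by
  have hdeg : ∀ v, (nb G v).card ≤ d := fun v => (hR.reg v).le
  set N := NHs d G C z with hN
  have hNc := NH_card hR hC hz
  rw [← hN] at hNc
  have hNd : N.card ≤ d := (Finset.card_le_card (Finset.filter_subset _ _)).trans (hdeg z)
  have hsm := hR.small C hC
  let Reg : ℕ → Om V t d → Prop := fun n ω =>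
    8 * (C.filter (fun c => usedB ω n c)).card ≤ C.card ∧
    2 * (N.filter (fun u => usedB ω n u)).card ≤ N.card
  let Good : ℕ → Om V t d → (V → Fin d) → Prop := fun n ω x =>
    srv G C n ω (N.filter (fun u => ¬ usedB ω n u)) x
  have hRa : ∀ n ω ω', agree n ω ω' → Reg n ω → Reg n ω' := by
    intro n ω ω' ha hr
    simp only [Reg] at hr ⊢
    rwa [← usedcard_congr ha, ← usedcard_congr ha]
  have hRmono : ∀ m n ω, m ≤ n → Reg n ω → Reg m ω := by
    intro m n ω hmn hr
    have := usedcard_mono ω C hmn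
    have := usedcard_mono ω N hmn
    simp only [Reg] at hr ⊢
    omega
  have hGa : ∀ n (ω ω' : Om V t d) x, agree n ω ω' → Good n ω x → Good n ω' x := by
    rintro n ω ω' x ha ⟨a, h1, c, h2, h3, h4, h5⟩
    refine ⟨a, ?_, c, h2, fun hu => h3 ((usedB_congr ha n le_rfl c).mpr hu), h4, h5⟩
    rw [Finset.mem_filter] at h1 ⊢
    exact ⟨h1.1, fun hu => h1.2 ((usedB_congr ha n le_rfl a).mpr hu)⟩
  have hexp := Real.exp_pos (-8)
  have hexp1 : Real.exp (-8) ≤ 1 := Real.exp_le_one_iff.mpr (by norm_num)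
  have hdr : (1000 : ℝ) ≤ d := by exact_mod_cast hd
  set p : ℝ := ((d - C.card : ℕ) : ℝ) * Real.exp (-8) / (6 * d) with hp
  have hp1 : p ≤ 1 := by
    rw [hp, div_le_one (by positivity)]
    have : ((d - C.card : ℕ) : ℝ) ≤ d := by exact_mod_cast Nat.sub_le _ _
    nlinarith
  have hlow : ∀ n ω, Reg n ω → p ≤ pr (Good n ω) := by
    intro n ω hr
    have h1 := srv_lower hd G hdeg C (N.filter (fun u => ¬ usedB ω n u)) (by omega) (hR.big C hC)
      ((Finset.card_le_card (Finset.filter_subset _ _)).trans hNd)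
      (fun a ha => by
        rw [Finset.mem_filter, hN, NHs, Finset.mem_filter] at ha
        exact ha.1.2.1)
      (fun a ha => by
        rw [Finset.mem_filter, hN, NHs, Finset.mem_filter] at ha
        exact ha.1.2.2) n ω hr.1
    refine le_trans ?_ h1
    have h2 : N.card ≤ 2 * (N.filter (fun u => ¬ usedB ω n u)).card := by
      have e1 := Finset.card_filter_add_card_filter_not (s := N) (fun u => usedB ω n u)
      have e2 := hr.2
      omega
    have h3 : ((d - C.card : ℕ) : ℝ) ≤ 2 * ((N.filter (fun u => ¬ usedB ω n u)).card : ℝ) := by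
      exact_mod_cast hNc.trans h2
    rw [hp]
    rw [div_le_iff₀ (by positivity)]
    have e : ((N.filter (fun u => ¬ usedB ω n u)).card : ℝ) * (Real.exp (-8) / (3 * d)) * (6 * d) =
        2 * ((N.filter (fun u => ¬ usedB ω n u)).card : ℝ) * Real.exp (-8) := by
      field_simp
      ring
    rw [e]
    exact mul_le_mul_of_nonneg_right h3 hexp.le
  have hc1 := chain 0 Reg Good hRa (fun n ω hr => hRmono n (n + 1) ω (by omega) hr) hGa
    p hp1 h (by omega) (fun n _ _ ω hr => hlow n ω hr)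
  have hc2 := chain h Reg Good hRa (fun n ω hr => hRmono n (n + 1) ω (by omega) hr) hGa
    p hp1 h (by omega) (fun n _ _ ω hr => hlow n ω hr)
  have hsub : pr (fun ω : Om V t d => 8 * (C.filter (fun c => usedB ω t c)).card ≤ C.card ∧
      ¬ twoPal G ω z) ≤
      pr (fun ω : Om V t d => N.card < 2 * (N.filter (fun u => usedB ω t u)).card ∨
        ((Reg (0 + h) ω ∧ ∀ n, 0 ≤ n → n < 0 + h → ¬ Good n ω (layer ω n)) ∨
        (Reg (h + h) ω ∧ ∀ n, h ≤ n → n < h + h → ¬ Good n ω (layer ω n)))) := by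
    apply pr_mono
    rintro ω ⟨hCr, hno⟩
    by_contra hcon
    push Not at hcon
    obtain ⟨hr, hg1, hg2⟩ := hcon
    have hR' : Reg t ω := ⟨hCr, hr⟩
    obtain ⟨n1, -, hn1, g1⟩ := hg1 (hRmono _ t ω (by omega) hR')
    obtain ⟨n2, hn2, hn2', g2⟩ := hg2 (hRmono _ t ω (by omega) hR')
    have mk : ∀ n, n < t → Good n ω (layer ω n) → pal G ω n z := by
      rintro n hn ⟨a, k1, c, k2, k3, k4, k5⟩
      rw [Finset.mem_filter, hN, NHs, Finset.mem_filter, mem_nb] at k1
      have hcz : c ≠ z := by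
        rintro rfl
        exact k4.2 c k1.1.1.symm k5.1
      have hac : a ≠ c := by
        rintro rfl; exact k1.1.2.1 k2
      exact ⟨a, c, hac, k1.1.1, hR.clq C hC z hz c k2 hcz.symm, ret_of_isol hn k4 k1.2,
        ret_of_isol hn k5 k3⟩
    exact hno ⟨n1, n2, by omega, mk n1 (by omega) g1, mk n2 (by omega) g2⟩
  refine hsub.trans ((pr_or_le _ _).trans ?_)
  have := pr_or_le (fun ω : Om V t d => Reg (0 + h) ω ∧ ∀ n, 0 ≤ n → n < 0 + h → ¬ Good n ω (layer ω n))
    (fun ω : Om V t d => Reg (h + h) ω ∧ ∀ n, h ≤ n → n < h + h → ¬ Good n ω (layer ω n))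
  linarith

end Pool.Agent.Helper244.RB
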