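import Pool.Agent.Helper244.RB.Bound1

set_option autoImplicit false
open Classical

namespace Pool.Agent.Helper244.RB

variable {V : Type} [Fintype V] {t d : ℕ}

/-- some vertex of the unit is used -/
def anyU (y y' : V → V) (ω : Om V t d) (n : ℕ) (z : V) : Prop :=
  usedB ω n z ∨ usedB ω n (y z) ∨ usedB ω n (y' z)

/-- two vertices of the unit are used -/
def twoU (y y' : V → V) (ω : Om V t d) (n : ℕ) (z : V) : Prop :=
  (usedB ω n z ∧ usedB ω n (y z)) ∨ (usedB ω n z ∧ usedB ω n (y' z)) ∨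
    (usedB ω n (y z) ∧ usedB ω n (y' z))

/-- all three vertices of the unit are used -/
def allU (y y' : V → V) (ω : Om V t d) (n : ℕ) (z : V) : Prop :=
  usedB ω n z ∧ usedB ω n (y z) ∧ usedB ω n (y' z)

/-- the colour `j` serves `z` -/
def srvAt (G : SimpleGraph V) (C : Finset V) (ω : Om V t d) (j : ℕ) (a : V) : Prop :=
  ret G ω j a ∧ ∃ c ∈ C, ret G ω j c

omit [Fintype V] in
lemma srvAt_congr {G : SimpleGraph V} {C : Finset V} {n : ℕ} {ω ω' : Om V t d} (h : agree n ω ω')
    (j : ℕ) (hj : j < n) (a : V) : srvAt G C ω j a ↔ srvAt G C ω' j a := by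
  unfold srvAt
  rw [ret_congr h j hj a]
  constructor
  · rintro ⟨h1, c, h2, h3⟩; exact ⟨h1, c, h2, (ret_congr h j hj c).mp h3⟩
  · rintro ⟨h1, c, h2, h3⟩; exact ⟨h1, c, h2, (ret_congr h j hj c).mpr h3⟩

lemma pal_of_srvAt {G : SimpleGraph V} {C : Finset V} (hC : Clq G C) {ω : Om V t d} {j : ℕ}
    {z a : V} (hz : z ∈ C) (ha : a ∉ C) (hza : G.Adj z a) (h : srvAt G C ω j a) : pal G ω j z := by
  obtain ⟨h1, c, h2, h3⟩ := h
  have hcz : c ≠ z := by
    rintro rfl
    exact h1.2.2 c hza.symm h3.1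
  have hac : a ≠ c := by rintro rfl; exact ha h2
  exact ⟨a, c, hac, hza, hC z hz c h2 hcz.symm, h1, h3⟩

/-- injectivity of the block choice -/
lemma block_inj {G : SimpleGraph V} {ω : Om V t d} (s0 β : ℕ) (N : ℕ → ℕ) (Z y : ℕ → V) (B : ℕ)
    (yy : V → V) (hN : ∀ b, b < B → s0 + b * β ≤ N b ∧ N b < s0 + b * β + β)
    (hr : ∀ b, b < B → ret G ω (N b) (yy (Z b))) :
    Set.InjOn Z (Finset.range B : Set ℕ) := by
  intro b hb b' hb' h
  rw [Finset.coe_range, Set.mem_Iio] at hb hb'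
  have h1 := hr b hb
  have h2 := hr b' hb'
  rw [h] at h1
  have h3 := ret_unique h1 h2
  have h4 := hN b hb
  have h5 := hN b' hb'
  by_contra hne
  rcases Nat.lt_or_gt_of_ne hne with hlt | hlt
  · have := Nat.mul_le_mul_right β (Nat.succ_le_of_lt hlt)
    rw [Nat.succ_mul] at this
    omega
  · have := Nat.mul_le_mul_right β (Nat.succ_le_of_lt hlt)
    rw [Nat.succ_mul] at this
    omega

theorem small_bound [NeZero d] (hd : 1000 ≤ d) {G : SimpleGraph V} {F : Finset (Finset V)}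
    (hR : RStr d V G F) {C : Finset V} (hC : C ∈ F) (I : Finset V) (hIC : I ⊆ C) (y y' : V → V)
    (hy : ∀ z ∈ I, y z ∈ NHs d G C z) (hy' : ∀ z ∈ I, y' z ∈ NHs d G C z)
    (hdis : ∀ z ∈ I, ∀ w ∈ I, z ≠ w → y z ≠ y w ∧ y' z ≠ y' w)
    (B1 β1 B2 β2 se : ℕ) (ht : B1 * β1 + B2 * β2 ≤ t) (hse : se + 1 ≤ B2) (hB1d : B1 ≤ d) :
    pr (fun ω : Om V t d => 8 * (C.filter (fun c => usedB ω t c)).card ≤ C.card ∧
      ¬ ∃ a ∈ C, ∃ b ∈ C, a ≠ b ∧ ¬ usedB ω t a ∧ ¬ usedB ω t b ∧ twoPal G ω a ∧ twoPal G ω b) ≤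
      pr (fun ω : Om V t d => I.card < 2 * (I.filter (fun z => anyU y y' ω t z)).card) +
      pr (fun ω : Om V t d => B1 < 2 * (I.filter (fun z => twoU y y' ω t z)).card) +
      pr (fun ω : Om V t d => se ≤ (I.filter (fun z => allU y y' ω t z)).card) +
      B1 * (1 - (I.card : ℝ) * Real.exp (-8) / (6 * d)) ^ β1 +
      B2 * (1 - (B1 : ℝ) * Real.exp (-8) / (6 * d)) ^ β2 := by
  have hdeg : ∀ v, (nb G v).card ≤ d := fun v => (hR.reg v).le
  have hCl := hR.clq C hC
  have hsm := hR.small C hC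
  have hbig := hR.big C hC
  have hId : I.card ≤ d := (Finset.card_le_card hIC).trans (by omega)
  have hexp := Real.exp_pos (-8)
  have hexp1 : Real.exp (-8) ≤ 1 := Real.exp_le_one_iff.mpr (by norm_num)
  have hdr : (1000 : ℝ) ≤ d := by exact_mod_cast hd
  have NHmem : ∀ z a, a ∈ NHs d G C z → G.Adj z a ∧ a ∉ C ∧ degIn G C a < d - C.card + 6 := by
    intro z a ha
    rw [NHs, Finset.mem_filter, mem_nb] at ha
    exact ha
  set T1 := B1 * β1 with hT1
  -- monotonicity and agreement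
  have anyM : ∀ (ω : Om V t d) (m n : ℕ), m ≤ n → (I.filter (fun z => anyU y y' ω m z)).card ≤
      (I.filter (fun z => anyU y y' ω n z)).card := by
    intro ω m n hmn
    apply Finset.card_le_card
    intro z hz
    rw [Finset.mem_filter] at hz ⊢
    refine ⟨hz.1, ?_⟩
    rcases hz.2 with h | h | h
    · exact Or.inl (usedB_mono hmn h)
    · exact Or.inr (Or.inl (usedB_mono hmn h))
    · exact Or.inr (Or.inr (usedB_mono hmn h))
  have twoM : ∀ (ω : Om V t d) (m n : ℕ), m ≤ n → (I.filter (fun z => twoU y y' ω m z)).card ≤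
      (I.filter (fun z => twoU y y' ω n z)).card := by
    intro ω m n hmn
    apply Finset.card_le_card
    intro z hz
    rw [Finset.mem_filter] at hz ⊢
    refine ⟨hz.1, ?_⟩
    rcases hz.2 with h | h | h
    · exact Or.inl ⟨usedB_mono hmn h.1, usedB_mono hmn h.2⟩
    · exact Or.inr (Or.inl ⟨usedB_mono hmn h.1, usedB_mono hmn h.2⟩)
    · exact Or.inr (Or.inr ⟨usedB_mono hmn h.1, usedB_mono hmn h.2⟩)
  have anyA : ∀ (n : ℕ) (ω ω' : Om V t d), agree n ω ω' → ∀ z, anyU y y' ω n z ↔ anyU y y' ω' n z := by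
    intro n ω ω' ha z
    unfold anyU
    rw [usedB_congr ha n le_rfl, usedB_congr ha n le_rfl, usedB_congr ha n le_rfl]
  have twoA : ∀ (n : ℕ) (ω ω' : Om V t d), agree n ω ω' → ∀ z, twoU y y' ω n z ↔ twoU y y' ω' n z := by
    intro n ω ω' ha z
    unfold twoU
    rw [usedB_congr ha n le_rfl z, usedB_congr ha n le_rfl (y z), usedB_congr ha n le_rfl (y' z)]
  -- phase 1
  let Reg1 : ℕ → Om V t d → Prop := fun n ω =>
    8 * (C.filter (fun c => usedB ω n c)).card ≤ C.card ∧
    2 * (I.filter (fun z => anyU y y' ω n z)).card ≤ I.card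
  let Good1 : ℕ → Om V t d → (V → Fin d) → Prop := fun n ω x =>
    srv G C n ω ((I.filter (fun z => ¬ anyU y y' ω n z)).image y) x
  have hRa1 : ∀ n ω ω', agree n ω ω' → Reg1 n ω → Reg1 n ω' := by
    intro n ω ω' ha hr
    have e1 := usedcard_congr ha C
    have e2 : I.filter (fun z => anyU y y' ω n z) = I.filter (fun z => anyU y y' ω' n z) :=
      Finset.filter_congr (fun z _ => anyA n ω ω' ha z)
    simp only [Reg1] at hr ⊢
    rw [← e1, ← e2]; exact hr
  have hRmono1 : ∀ m n ω, m ≤ n → Reg1 n ω → Reg1 m ω := by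
    intro m n ω hmn hr
    have := usedcard_mono ω C hmn
    have := anyM ω m n hmn
    simp only [Reg1] at hr ⊢
    omega
  have hGa1 : ∀ n (ω ω' : Om V t d) x, agree n ω ω' → Good1 n ω x → Good1 n ω' x := by
    rintro n ω ω' x ha ⟨a, h1, c, h2, h3, h4, h5⟩
    refine ⟨a, ?_, c, h2, fun hu => h3 ((usedB_congr ha n le_rfl c).mpr hu), h4, h5⟩
    rw [Finset.mem_image] at h1 ⊢
    obtain ⟨z, hz, rfl⟩ := h1
    rw [Finset.mem_filter] at hz
    exact ⟨z, Finset.mem_filter.mpr ⟨hz.1, fun h => hz.2 ((anyA n ω ω' ha z).mpr h)⟩, rfl⟩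
  set p1 : ℝ := (I.card : ℝ) * Real.exp (-8) / (6 * d) with hp1
  have hp11 : p1 ≤ 1 := by
    rw [hp1, div_le_one (by positivity)]
    have : (I.card : ℝ) ≤ d := by exact_mod_cast hId
    nlinarith
  have hlow1 : ∀ n ω, Reg1 n ω → p1 ≤ pr (Good1 n ω) := by
    intro n ω hr
    have hcard : ((I.filter (fun z => ¬ anyU y y' ω n z)).image y).card =
        (I.filter (fun z => ¬ anyU y y' ω n z)).card := by
      apply Finset.card_image_of_injOn
      intro z hz w hw h
      rw [Finset.coe_filter] at hz hw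
      by_contra hne
      exact (hdis z hz.1 w hw.1 hne).1 h
    have h1 := srv_lower hd G hdeg C ((I.filter (fun z => ¬ anyU y y' ω n z)).image y) (by omega) hbig
      (by rw [hcard]; exact (Finset.card_le_card (Finset.filter_subset _ _)).trans hId)
      (fun a ha => by
        rw [Finset.mem_image] at ha
        obtain ⟨z, hz, rfl⟩ := ha
        exact (NHmem z _ (hy z (Finset.mem_filter.mp hz).1)).2.1)
      (fun a ha => by
        rw [Finset.mem_image] at ha
        obtain ⟨z, hz, rfl⟩ := ha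
        exact (NHmem z _ (hy z (Finset.mem_filter.mp hz).1)).2.2) n ω hr.1
    refine le_trans ?_ h1
    rw [hcard]
    have h2 : I.card ≤ 2 * (I.filter (fun z => ¬ anyU y y' ω n z)).card := by
      have e1 := Finset.card_filter_add_card_filter_not (s := I) (fun z => anyU y y' ω n z)
      have e2 := hr.2
      omega
    have h3 : (I.card : ℝ) ≤ 2 * ((I.filter (fun z => ¬ anyU y y' ω n z)).card : ℝ) := by
      exact_mod_cast h2
    rw [hp1, div_le_iff₀ (by positivity)]
    have e : ((I.filter (fun z => ¬ anyU y y' ω n z)).card : ℝ) * (Real.exp (-8) / (3 * d)) * (6 * d) =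
        2 * ((I.filter (fun z => ¬ anyU y y' ω n z)).card : ℝ) * Real.exp (-8) := by
      field_simp
      ring
    rw [e]
    exact mul_le_mul_of_nonneg_right h3 hexp.le
  -- phase 2
  let Srvd : Om V t d → Finset V := fun ω => I.filter (fun z => ∃ j, j < T1 ∧ srvAt G C ω j (y z))
  have SrvdA : ∀ (n : ℕ) (ω ω' : Om V t d), agree n ω ω' → T1 ≤ n → Srvd ω = Srvd ω' := by
    intro n ω ω' ha hn
    apply Finset.filter_congr
    intro z _
    constructor
    · rintro ⟨j, hj, h⟩; exact ⟨j, hj, (srvAt_congr ha j (by omega) _).mp h⟩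
    · rintro ⟨j, hj, h⟩; exact ⟨j, hj, (srvAt_congr ha j (by omega) _).mpr h⟩
  let Reg2 : ℕ → Om V t d → Prop := fun n ω =>
    8 * (C.filter (fun c => usedB ω n c)).card ≤ C.card ∧
    2 * (I.filter (fun z => twoU y y' ω n z)).card ≤ B1 ∧ (T1 ≤ n → B1 ≤ (Srvd ω).card)
  let K2 : ℕ → Om V t d → Finset V := fun n ω =>
    (Srvd ω).filter (fun z => ¬ usedB ω n z ∧ ¬ usedB ω n (y' z))
  let Good2 : ℕ → Om V t d → (V → Fin d) → Prop := fun n ω x =>
    T1 ≤ n ∧ srv G C n ω ((K2 n ω).image y') x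
  have hRa2 : ∀ n ω ω', agree n ω ω' → Reg2 n ω → Reg2 n ω' := by
    intro n ω ω' ha hr
    have e1 := usedcard_congr ha C
    have e2 : I.filter (fun z => twoU y y' ω n z) = I.filter (fun z => twoU y y' ω' n z) :=
      Finset.filter_congr (fun z _ => twoA n ω ω' ha z)
    refine ⟨?_, ?_, ?_⟩
    · have := hr.1; rwa [e1] at this
    · have := hr.2.1; rwa [e2] at this
    · intro hn
      rw [← SrvdA n ω ω' ha hn]
      exact hr.2.2 hn
  have hRm2 : ∀ n ω, Reg2 (n + 1) ω → Reg2 n ω := by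
    intro n ω hr
    have h1 := usedcard_mono ω C (Nat.le_succ n)
    have h2 := twoM ω n (n + 1) (Nat.le_succ n)
    refine ⟨?_, ?_, fun hn => hr.2.2 (by omega)⟩
    · have := hr.1; exact le_trans (Nat.mul_le_mul_left _ h1) this
    · have := hr.2.1; exact le_trans (Nat.mul_le_mul_left _ h2) this
  have hGa2 : ∀ n (ω ω' : Om V t d) x, agree n ω ω' → Good2 n ω x → Good2 n ω' x := by
    rintro n ω ω' x ha ⟨hn, a, h1, c, h2, h3, h4, h5⟩
    refine ⟨hn, a, ?_, c, h2, fun hu => h3 ((usedB_congr ha n le_rfl c).mpr hu), h4, h5⟩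
    rw [Finset.mem_image] at h1 ⊢
    obtain ⟨z, hz, rfl⟩ := h1
    simp only [K2, Finset.mem_filter (s := Srvd ω), Finset.mem_filter (s := Srvd ω')] at hz ⊢
    refine ⟨z, ⟨?_, ?_, ?_⟩, rfl⟩
    · rw [← SrvdA n ω ω' ha hn]; exact hz.1
    · exact fun h => hz.2.1 ((usedB_congr ha n le_rfl _).mpr h)
    · exact fun h => hz.2.2 ((usedB_congr ha n le_rfl _).mpr h)
  set p2 : ℝ := (B1 : ℝ) * Real.exp (-8) / (6 * d) with hp2
  have hp21 : p2 ≤ 1 := by
    rw [hp2, div_le_one (by positivity)]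
    have : (B1 : ℝ) ≤ d := by exact_mod_cast hB1d
    nlinarith
  have hlow2 : ∀ n ω, T1 ≤ n → Reg2 n ω → p2 ≤ pr (Good2 n ω) := by
    intro n ω hn hr
    have hKI : K2 n ω ⊆ I := (Finset.filter_subset _ _).trans (Finset.filter_subset _ _)
    have hcard : ((K2 n ω).image y').card = (K2 n ω).card := by
      apply Finset.card_image_of_injOn
      intro z hz w hw h
      by_contra hne
      exact (hdis z (hKI hz) w (hKI hw) hne).2 h
    have h1 := srv_lower hd G hdeg C ((K2 n ω).image y') (by omega) hbig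
      (by rw [hcard]; exact (Finset.card_le_card hKI).trans hId)
      (fun a ha => by
        rw [Finset.mem_image] at ha
        obtain ⟨z, hz, rfl⟩ := ha
        exact (NHmem z _ (hy' z (hKI hz))).2.1)
      (fun a ha => by
        rw [Finset.mem_image] at ha
        obtain ⟨z, hz, rfl⟩ := ha
        exact (NHmem z _ (hy' z (hKI hz))).2.2) n ω hr.1
    have hge : pr (srv G C n ω ((K2 n ω).image y')) ≤ pr (Good2 n ω) := by
      apply pr_mono
      intro x hx
      exact ⟨hn, hx⟩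
    refine le_trans ?_ (h1.trans hge)
    rw [hcard]
    have h2 : B1 ≤ 2 * (K2 n ω).card := by
      have e1 : (Srvd ω).card ≤ (K2 n ω).card + (I.filter (fun z => twoU y y' ω n z)).card := by
        rw [← Finset.card_union_add_card_inter]
        refine le_trans (Finset.card_le_card ?_) (Nat.le_add_right _ _)
        intro z hz
        rw [Finset.mem_union]
        by_cases hk : z ∈ K2 n ω
        · left; exact hk
        · right
          have hzI := (Finset.mem_filter.mp hz).1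
          obtain ⟨j, hj, hsv⟩ := (Finset.mem_filter.mp hz).2
          have hyu : usedB ω n (y z) := ⟨j, by omega, hsv.1.1⟩
          rw [Finset.mem_filter]
          refine ⟨hzI, ?_⟩
          simp only [K2, Finset.mem_filter (s := Srvd ω)] at hk
          unfold twoU
          tauto
      have e2 := hr.2.1
      have e3 := hr.2.2 hn
      omega
    have h3 : (B1 : ℝ) ≤ 2 * ((K2 n ω).card : ℝ) := by exact_mod_cast h2
    rw [hp2, div_le_iff₀ (by positivity)]
    have e : ((K2 n ω).card : ℝ) * (Real.exp (-8) / (3 * d)) * (6 * d) =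
        2 * ((K2 n ω).card : ℝ) * Real.exp (-8) := by
      field_simp
      ring
    rw [e]
    exact mul_le_mul_of_nonneg_right h3 hexp.le
  -- block events
  let E1 : ℕ → Om V t d → Prop := fun b ω => Reg1 (b * β1 + β1) ω ∧
    ∀ n, b * β1 ≤ n → n < b * β1 + β1 → ¬ Good1 n ω (layer ω n)
  let E2 : ℕ → Om V t d → Prop := fun b ω => Reg2 (T1 + b * β2 + β2) ω ∧
    ∀ n, T1 + b * β2 ≤ n → n < T1 + b * β2 + β2 → ¬ Good2 n ω (layer ω n)
  have blk1 : ∀ b, b < B1 → b * β1 + β1 ≤ T1 := by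
    intro b hb
    have := Nat.mul_le_mul_right β1 (Nat.succ_le_of_lt hb)
    rwa [Nat.succ_mul] at this
  have blk2 : ∀ b, b < B2 → b * β2 + β2 ≤ B2 * β2 := by
    intro b hb
    have := Nat.mul_le_mul_right β2 (Nat.succ_le_of_lt hb)
    rwa [Nat.succ_mul] at this
  have hE1 : ∀ b ∈ Finset.range B1, pr (E1 b) ≤ (1 - p1) ^ β1 := by
    intro b hb
    have hb' := blk1 b (Finset.mem_range.mp hb)
    exact chain (b * β1) Reg1 Good1 hRa1 (fun n ω hr => hRmono1 n (n + 1) ω (by omega) hr) hGa1 p1 hp11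
      β1 (by omega) (fun n _ _ ω hr => hlow1 n ω hr)
  have hE2 : ∀ b ∈ Finset.range B2, pr (E2 b) ≤ (1 - p2) ^ β2 := by
    intro b hb
    have hb' := blk2 b (Finset.mem_range.mp hb)
    exact chain (T1 + b * β2) Reg2 Good2 hRa2 hRm2 hGa2 p2 hp21
      β2 (by omega) (fun n hn _ ω hr => hlow2 n ω (by omega) hr)
  have hS1 : pr (fun ω => ∃ b ∈ Finset.range B1, E1 b ω) ≤ B1 * (1 - p1) ^ β1 := by
    refine (pr_exists_le _ _).trans ((Finset.sum_le_sum hE1).trans ?_)
    rw [Finset.sum_const, Finset.card_range, nsmul_eq_mul]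
  have hS2 : pr (fun ω => ∃ b ∈ Finset.range B2, E2 b ω) ≤ B2 * (1 - p2) ^ β2 := by
    refine (pr_exists_le _ _).trans ((Finset.sum_le_sum hE2).trans ?_)
    rw [Finset.sum_const, Finset.card_range, nsmul_eq_mul]
  -- covering
  have hsub : pr (fun ω : Om V t d => 8 * (C.filter (fun c => usedB ω t c)).card ≤ C.card ∧
      ¬ ∃ a ∈ C, ∃ b ∈ C, a ≠ b ∧ ¬ usedB ω t a ∧ ¬ usedB ω t b ∧ twoPal G ω a ∧ twoPal G ω b) ≤
      pr (fun ω : Om V t d => ((((I.card < 2 * (I.filter (fun z => anyU y y' ω t z)).card) ∨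
      (B1 < 2 * (I.filter (fun z => twoU y y' ω t z)).card)) ∨
      (se ≤ (I.filter (fun z => allU y y' ω t z)).card)) ∨
      (∃ b ∈ Finset.range B1, E1 b ω)) ∨ (∃ b ∈ Finset.range B2, E2 b ω)) := by
    apply pr_mono
    rintro ω ⟨hCr, hno⟩
    by_contra hcon
    push Not at hcon
    obtain ⟨⟨⟨⟨ha, htw⟩, hal⟩, hb1⟩, hb2⟩ := hcon
    -- phase 1
    have hex1 : ∀ b, b < B1 → ∃ n z, (b * β1 ≤ n ∧ n < b * β1 + β1) ∧ z ∈ I ∧ srvAt G C ω n (y z) := by
      intro b hb
      have hr1 : Reg1 (b * β1 + β1) ω := by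
        have hh := blk1 b hb
        exact hRmono1 _ t ω (by omega) ⟨hCr, ha⟩
      have hnE := hb1 b (Finset.mem_range.mpr hb)
      simp only [E1, not_and, not_forall, not_not] at hnE
      obtain ⟨n, hn1, hn2, a, h1, c, h2, h3, h4, h5⟩ := hnE hr1
      rw [Finset.mem_image] at h1
      obtain ⟨z, hz, rfl⟩ := h1
      rw [Finset.mem_filter] at hz
      have hnt : n < t := by have hh := blk1 b hb; omega
      have hfy : ¬ usedB ω n (y z) := fun h => hz.2 (Or.inr (Or.inl h))
      exact ⟨n, z, ⟨hn1, hn2⟩, hz.1, ret_of_isol hnt h4 hfy, c, h2, ret_of_isol hnt h5 h3⟩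
    have hSr : B1 ≤ (Srvd ω).card := by
      by_cases hB1 : B1 = 0
      · omega
      have : ∀ b, ∃ nz : ℕ × V, b < B1 → (b * β1 ≤ nz.1 ∧ nz.1 < b * β1 + β1) ∧ nz.2 ∈ I ∧
          srvAt G C ω nz.1 (y nz.2) := by
        intro b
        by_cases hb : b < B1
        · obtain ⟨n, z, h⟩ := hex1 b hb
          exact ⟨(n, z), fun _ => h⟩
        · obtain ⟨n, z, -⟩ := hex1 0 (by omega)
          exact ⟨(n, z), fun h => absurd h hb⟩
      choose NZ hNZ using this
      have hinj : Set.InjOn (fun b => (NZ b).2) (Finset.range B1 : Set ℕ) := by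
        refine block_inj (G := G) (ω := ω) 0 β1 (fun b => (NZ b).1) (fun b => (NZ b).2)
          (fun b => (NZ b).2) B1 y ?_ ?_
        · intro b hb; have := (hNZ b hb).1; omega
        · intro b hb; exact (hNZ b hb).2.2.1
      have := Finset.card_le_card_of_injOn (s := Finset.range B1) (t := Srvd ω) (fun b => (NZ b).2) ?_ hinj
      · rwa [Finset.card_range] at this
      · intro b hb
        rw [Finset.coe_range, Set.mem_Iio] at hb
        have h1 := hNZ b hb
        have h2 := blk1 b hb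
        exact Finset.mem_filter.mpr ⟨h1.2.1, (NZ b).1, by omega, h1.2.2⟩
    -- phase 2
    have hex2 : ∀ b, b < B2 → ∃ n z, (T1 + b * β2 ≤ n ∧ n < T1 + b * β2 + β2) ∧ z ∈ Srvd ω ∧
        srvAt G C ω n (y' z) := by
      intro b hb
      have hh := blk2 b hb
      have hr2 : Reg2 (T1 + b * β2 + β2) ω := by
        refine ⟨?_, ?_, fun _ => hSr⟩
        · have := usedcard_mono ω C (show T1 + b * β2 + β2 ≤ t by omega)
          exact le_trans (Nat.mul_le_mul_left _ this) hCr
        · have := twoM ω (T1 + b * β2 + β2) t (by omega)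
          exact le_trans (Nat.mul_le_mul_left _ this) htw
      have hnE := hb2 b (Finset.mem_range.mpr hb)
      simp only [E2, not_and, not_forall, not_not] at hnE
      obtain ⟨n, hn1, hn2, -, a, h1, c, h2, h3, h4, h5⟩ := hnE hr2
      rw [Finset.mem_image] at h1
      obtain ⟨z, hz, rfl⟩ := h1
      simp only [K2, Finset.mem_filter (s := Srvd ω)] at hz
      have hnt : n < t := by omega
      exact ⟨n, z, ⟨hn1, hn2⟩, hz.1, ret_of_isol hnt h4 hz.2.2, c, h2, ret_of_isol hnt h5 h3⟩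
    set Z2 := (Srvd ω).filter (fun z => ∃ n, T1 ≤ n ∧ srvAt G C ω n (y' z)) with hZ2
    have hZc : B2 ≤ Z2.card := by
      have : ∀ b, ∃ nz : ℕ × V, b < B2 → (T1 + b * β2 ≤ nz.1 ∧ nz.1 < T1 + b * β2 + β2) ∧
          nz.2 ∈ Srvd ω ∧ srvAt G C ω nz.1 (y' nz.2) := by
        intro b
        by_cases hb : b < B2
        · obtain ⟨n, z, h⟩ := hex2 b hb
          exact ⟨(n, z), fun _ => h⟩
        · obtain ⟨n, z, -⟩ := hex2 0 (by omega)
          exact ⟨(n, z), fun h => absurd h hb⟩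
      choose NZ hNZ using this
      have hinj : Set.InjOn (fun b => (NZ b).2) (Finset.range B2 : Set ℕ) := by
        refine block_inj (G := G) (ω := ω) T1 β2 (fun b => (NZ b).1) (fun b => (NZ b).2)
          (fun b => (NZ b).2) B2 y' ?_ ?_
        · intro b hb; exact (hNZ b hb).1
        · intro b hb; exact (hNZ b hb).2.2.1
      have := Finset.card_le_card_of_injOn (s := Finset.range B2) (t := Z2) (fun b => (NZ b).2) ?_ hinj
      · rwa [Finset.card_range] at this
      · intro b hb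
        rw [Finset.coe_range, Set.mem_Iio] at hb
        have h1 := hNZ b hb
        exact Finset.mem_filter.mpr ⟨h1.2.1, (NZ b).1, by omega, h1.2.2⟩
    have htwoP : ∀ z ∈ Z2, z ∈ C ∧ twoPal G ω z := by
      intro z hz
      rw [hZ2, Finset.mem_filter] at hz
      obtain ⟨hz1, n, hn, hs2⟩ := hz
      obtain ⟨hzI, j, hj, hs1⟩ := Finset.mem_filter.mp hz1
      have m1 := NHmem z _ (hy z hzI)
      have m2 := NHmem z _ (hy' z hzI)
      refine ⟨hIC hzI, j, n, by omega, ?_, ?_⟩
      · exact pal_of_srvAt hCl (hIC hzI) m1.2.1 m1.1 hs1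
      · exact pal_of_srvAt hCl (hIC hzI) m2.2.1 m2.1 hs2
    have hcnt : (Z2.filter (fun z => usedB ω t z)).card < se := by
      refine lt_of_le_of_lt (Finset.card_le_card ?_) hal
      intro z hz
      rw [Finset.mem_filter, hZ2, Finset.mem_filter] at hz
      obtain ⟨⟨hz1, n, hn, hs2⟩, hzu⟩ := hz
      obtain ⟨hzI, j, hj, hs1⟩ := Finset.mem_filter.mp hz1
      rw [Finset.mem_filter]
      refine ⟨hzI, hzu, ⟨j, ret_lt hs1.1, hs1.1.1⟩, ⟨n, ret_lt hs2.1, hs2.1.1⟩⟩
    have hsplit := Finset.card_filter_add_card_filter_not (s := Z2) (fun z => usedB ω t z)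
    have h2 : 1 < (Z2.filter (fun z => ¬ usedB ω t z)).card := by omega
    obtain ⟨a, ha', b, hb', hab⟩ := Finset.one_lt_card.mp h2
    rw [Finset.mem_filter] at ha' hb'
    have w1 := htwoP a ha'.1
    have w2 := htwoP b hb'.1
    exact hno ⟨a, w1.1, b, w2.1, hab, ha'.2, hb'.2, w1.2, w2.2⟩
  refine hsub.trans ((pr_or_le _ _).trans ?_)
  refine add_le_add ((pr_or_le _ _).trans ?_) hS2
  refine add_le_add ((pr_or_le _ _).trans ?_) hS1
  exact add_le_add (pr_or_le _ _) le_rfl

end Pool.Agent.Helper244.RB
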