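import Pool.Agent.Helper244.RB.Prob

set_option autoImplicit false
open Classical

namespace Pool.Agent.Helper244.RB

/-- outcomes: every vertex has a value in `Fin d` for each of `t` rounds -/
abbrev Om (V : Type) (t d : ℕ) := V → Fin t → Fin d

variable {V : Type} [Fintype V] {t d : ℕ}

/-- vertex `v` is a member of round `j` -/
def mem (ω : Om V t d) (j : ℕ) (v : V) : Prop := ∃ h : j < t, (ω v ⟨j, h⟩ : ℕ) = 0

/-- member of some round before `n` -/
def usedB (ω : Om V t d) (n : ℕ) (v : V) : Prop := ∃ j, j < n ∧ mem ω j v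

/-- replace round `n` -/
noncomputable def upd (ω : Om V t d) (n : ℕ) (x : V → Fin d) : Om V t d :=
  fun v j => if (j : ℕ) = n then x v else ω v j

/-- equal on the rounds before `n` -/
def agree (n : ℕ) (ω ω' : Om V t d) : Prop := ∀ v (j : Fin t), (j : ℕ) < n → ω v j = ω' v j

/-- round `n` -/
noncomputable def layer [NeZero d] (ω : Om V t d) (n : ℕ) : V → Fin d :=
  fun v => if h : n < t then ω v ⟨n, h⟩ else 0

omit [Fintype V] in
lemma agree_symm {n : ℕ} {ω ω' : Om V t d} (h : agree n ω ω') : agree n ω' ω :=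
  fun v j hj => (h v j hj).symm

omit [Fintype V] in
lemma agree_mono {m n : ℕ} {ω ω' : Om V t d} (hmn : m ≤ n) (h : agree n ω ω') : agree m ω ω' :=
  fun v j hj => h v j (lt_of_lt_of_le hj hmn)

omit [Fintype V] in
lemma agree_upd (ω : Om V t d) (n : ℕ) (x : V → Fin d) : agree n (upd ω n x) ω := by
  intro v j hj
  simp only [upd]
  rw [if_neg (by omega)]

omit [Fintype V] in
lemma layer_upd [NeZero d] (ω : Om V t d) (n : ℕ) (hn : n < t) (x : V → Fin d) :
    layer (upd ω n x) n = x := by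
  funext v
  simp [layer, upd, hn]

omit [Fintype V] in
lemma layer_congr [NeZero d] {n : ℕ} {ω ω' : Om V t d} (h : agree n ω ω') (m : ℕ) (hm : m < n) :
    layer ω m = layer ω' m := by
  funext v
  simp only [layer]
  by_cases hmt : m < t
  · rw [dif_pos hmt, dif_pos hmt]; exact h v _ hm
  · rw [dif_neg hmt, dif_neg hmt]

omit [Fintype V] in
lemma mem_congr {n : ℕ} {ω ω' : Om V t d} (h : agree n ω ω') (m : ℕ) (hm : m < n) (v : V) :
    mem ω m v ↔ mem ω' m v := by
  unfold mem
  constructor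
  · rintro ⟨ht, h0⟩; exact ⟨ht, by rw [← h v ⟨m, ht⟩ hm]; exact h0⟩
  · rintro ⟨ht, h0⟩; exact ⟨ht, by rw [h v ⟨m, ht⟩ hm]; exact h0⟩

omit [Fintype V] in
lemma usedB_congr {n : ℕ} {ω ω' : Om V t d} (h : agree n ω ω') (m : ℕ) (hm : m ≤ n) (v : V) :
    usedB ω m v ↔ usedB ω' m v := by
  unfold usedB
  constructor
  · rintro ⟨j, hj, h0⟩; exact ⟨j, hj, (mem_congr h j (by omega) v).mp h0⟩
  · rintro ⟨j, hj, h0⟩; exact ⟨j, hj, (mem_congr h j (by omega) v).mpr h0⟩

omit [Fintype V] in
lemma usedB_mono {ω : Om V t d} {m n : ℕ} (hmn : m ≤ n) {v : V} (h : usedB ω m v) : usedB ω n v := by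
  obtain ⟨j, hj, h0⟩ := h
  exact ⟨j, by omega, h0⟩

omit [Fintype V] in
lemma mem_iff_layer [NeZero d] (ω : Om V t d) (n : ℕ) (hn : n < t) (v : V) :
    mem ω n v ↔ layer ω n v = 0 := by
  unfold mem
  simp only [layer, dif_pos hn]
  constructor
  · rintro ⟨_, h⟩; exact Fin.ext h
  · intro h; exact ⟨hn, by rw [h]; rfl⟩

/-- resampling one round -/
lemma step [NeZero d] (n : ℕ) (hn : n < t) (Q Q' : Om V t d → Prop)
    (hQ : ∀ ω x, Q' (upd ω n x) → Q ω) (p : ℝ)
    (hp : ∀ ω, Q ω → pr (fun x : V → Fin d => Q' (upd ω n x)) ≤ p) :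
    pr Q' ≤ p * pr Q := by
  have hpos : (0 : ℝ) < (Fintype.card (Om V t d) : ℝ) := by exact_mod_cast Fintype.card_pos
  have hposL : (0 : ℝ) < (Fintype.card (V → Fin d) : ℝ) := by exact_mod_cast Fintype.card_pos
  -- the bijection
  let e : (Om V t d × (V → Fin d)) ≃ (Om V t d × (V → Fin d)) :=
    { toFun := fun w => (upd w.1 n w.2, fun v => w.1 v ⟨n, hn⟩)
      invFun := fun w => (upd w.1 n w.2, fun v => w.1 v ⟨n, hn⟩)
      left_inv := by
        intro w
        refine Prod.ext ?_ ?_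
        · funext v j
          simp only [upd]
          by_cases hj : (j : ℕ) = n
          · rw [if_pos hj]
            have hjn : j = ⟨n, hn⟩ := Fin.ext hj
            rw [hjn]
          · rw [if_neg hj, if_neg hj]
        · funext v
          simp [upd]
      right_inv := by
        intro w
        refine Prod.ext ?_ ?_
        · funext v j
          simp only [upd]
          by_cases hj : (j : ℕ) = n
          · rw [if_pos hj]
            have hjn : j = ⟨n, hn⟩ := Fin.ext hj
            rw [hjn]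
          · rw [if_neg hj, if_neg hj]
        · funext v
          simp [upd] }
  have h1 : ∑ w : Om V t d × (V → Fin d), (if Q' (upd w.1 n w.2) then (1 : ℝ) else 0) =
      ∑ w : Om V t d × (V → Fin d), (if Q' w.1 then (1 : ℝ) else 0) :=
    Fintype.sum_equiv e _ _ (fun w => rfl)
  rw [Fintype.sum_prod_type, Fintype.sum_prod_type] at h1
  have h2 : ∀ (R : Om V t d → Prop), ∑ ω : Om V t d, (if R ω then (1 : ℝ) else 0) = (cnt R : ℝ) := by
    intro R
    rw [Finset.sum_boole]; rfl
  have h2' : ∀ (R : (V → Fin d) → Prop), ∑ x : V → Fin d, (if R x then (1 : ℝ) else 0) = (cnt R : ℝ) := by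
    intro R
    rw [Finset.sum_boole]; rfl
  have h3 : ∑ ω : Om V t d, ∑ _x : V → Fin d, (if Q' ω then (1 : ℝ) else 0) =
      (Fintype.card (V → Fin d) : ℝ) * (cnt Q' : ℝ) := by
    rw [← h2 Q', Finset.mul_sum]
    apply Finset.sum_congr rfl
    intro ω _
    rw [Finset.sum_const, Finset.card_univ, nsmul_eq_mul]
  have h4 : ∑ ω : Om V t d, ∑ x : V → Fin d, (if Q' (upd ω n x) then (1 : ℝ) else 0) ≤
      ∑ ω : Om V t d, (if Q ω then p * (Fintype.card (V → Fin d) : ℝ) else 0) := by
    apply Finset.sum_le_sum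
    intro ω _
    by_cases hω : Q ω
    · rw [if_pos hω, h2' (fun x => Q' (upd ω n x)), cnt_eq_mul]
      exact mul_le_mul_of_nonneg_right (hp ω hω) hposL.le
    · rw [if_neg hω]
      apply le_of_eq
      apply Finset.sum_eq_zero
      intro x _
      rw [if_neg (fun h => hω (hQ ω x h))]
  rw [h1, h3] at h4
  have h5 : ∑ ω : Om V t d, (if Q ω then p * (Fintype.card (V → Fin d) : ℝ) else 0) =
      p * (Fintype.card (V → Fin d) : ℝ) * (cnt Q : ℝ) := by
    rw [← h2 Q, Finset.mul_sum]
    apply Finset.sum_congr rfl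
    intro ω _
    by_cases hω : Q ω <;> simp [hω]
  rw [h5] at h4
  unfold pr
  rw [mul_div_assoc']
  apply div_le_div_of_nonneg_right _ hpos.le
  nlinarith

/-- no good round in an interval is unlikely -/
theorem chain [NeZero d] (n0 : ℕ) (Reg : ℕ → Om V t d → Prop)
    (Good : ℕ → Om V t d → (V → Fin d) → Prop)
    (hRa : ∀ n ω ω', agree n ω ω' → Reg n ω → Reg n ω')
    (hRm : ∀ n ω, Reg (n + 1) ω → Reg n ω)
    (hGa : ∀ n ω ω' x, agree n ω ω' → Good n ω x → Good n ω' x)
    (p : ℝ) (hp1 : p ≤ 1) :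
    ∀ m : ℕ, n0 + m ≤ t →
    (∀ n, n0 ≤ n → n < n0 + m → ∀ ω, Reg n ω → p ≤ pr (Good n ω)) →
    pr (fun ω => Reg (n0 + m) ω ∧ ∀ n, n0 ≤ n → n < n0 + m → ¬ Good n ω (layer ω n)) ≤ (1 - p) ^ m := by
  intro m
  induction m with
  | zero => intro _ _; simpa using pr_le_one _
  | succ m ih =>
    intro hm hp
    have ih' := ih (by omega) (fun n h1 h2 => hp n h1 (by omega))
    have hs := step (V := V) (t := t) (d := d) (n0 + m) (by omega)
      (fun ω => Reg (n0 + m) ω ∧ ∀ n, n0 ≤ n → n < n0 + m → ¬ Good n ω (layer ω n))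
      (fun ω => Reg (n0 + (m + 1)) ω ∧ ∀ n, n0 ≤ n → n < n0 + (m + 1) → ¬ Good n ω (layer ω n))
      ?_ (1 - p) ?_
    · refine hs.trans ?_
      rw [pow_succ']
      exact mul_le_mul_of_nonneg_left ih' (by linarith)
    · rintro ω x ⟨h1, h2⟩
      have ha := agree_upd ω (n0 + m) x
      refine ⟨hRa _ _ _ ha (hRm _ _ h1), ?_⟩
      intro n hn1 hn2 hg
      refine h2 n hn1 (by omega) ?_
      rw [layer_congr ha n hn2]
      exact hGa n _ _ _ (agree_mono (by omega) (agree_symm ha)) hg
    · rintro ω ⟨hR, -⟩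
      have hg := hp (n0 + m) (by omega) (by omega) ω hR
      have h1 : pr (fun x : V → Fin d => Reg (n0 + (m + 1)) (upd ω (n0 + m) x) ∧
          ∀ n, n0 ≤ n → n < n0 + (m + 1) → ¬ Good n (upd ω (n0 + m) x) (layer (upd ω (n0 + m) x) n)) ≤
          pr (fun x : V → Fin d => ¬ Good (n0 + m) ω x) := by
        apply pr_mono
        rintro x ⟨-, h⟩ hgood
        refine h (n0 + m) (by omega) (by omega) ?_
        rw [layer_upd ω (n0 + m) (by omega) x]
        exact hGa _ _ _ _ (agree_symm (agree_upd ω (n0 + m) x)) hgood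
      refine h1.trans ?_
      have h2 : pr (fun x : V → Fin d => ¬ Good (n0 + m) ω x) + pr (Good (n0 + m) ω) = 1 := by
        unfold pr
        rw [← add_div]
        have hc : cnt (fun x : V → Fin d => ¬ Good (n0 + m) ω x) + cnt (Good (n0 + m) ω) =
            Fintype.card (V → Fin d) := by
          unfold cnt ev
          rw [add_comm, Finset.card_filter_add_card_filter_not, Finset.card_univ]
        have hc' : (cnt (fun x : V → Fin d => ¬ Good (n0 + m) ω x) : ℝ) + (cnt (Good (n0 + m) ω) : ℝ) =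
            (Fintype.card (V → Fin d) : ℝ) := by exact_mod_cast hc
        rw [hc', div_self]
        have : 0 < Fintype.card (V → Fin d) := Fintype.card_pos
        positivity
      linarith

/-- probability of prescribed zeros and non-zeros in one round -/
lemma pr_layer [NeZero d] (Z F : Finset V) (hZF : Disjoint Z F) :
    pr (fun x : V → Fin d => (∀ v ∈ Z, x v = 0) ∧ ∀ v ∈ F, x v ≠ 0) =
      (1 / (d : ℝ)) ^ Z.card * (1 - 1 / (d : ℝ)) ^ F.card := by
  have hd : (d : ℝ) ≠ 0 := by exact_mod_cast NeZero.ne d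
  have h : (fun x : V → Fin d => (∀ v ∈ Z, x v = 0) ∧ ∀ v ∈ F, x v ≠ 0) =
      (fun x : V → Fin d => ∀ v, x v ∈ (if v ∈ Z then {0} else if v ∈ F then Finset.univ.erase 0
        else Finset.univ : Finset (Fin d))) := by
    funext x
    apply propext
    constructor
    · rintro ⟨h1, h2⟩ v
      by_cases hz : v ∈ Z
      · simp [hz, h1 v hz]
      · by_cases hf : v ∈ F
        · simp [hz, hf, h2 v hf]
        · simp [hz, hf]
    · intro h
      refine ⟨fun v hv => ?_, fun v hv => ?_⟩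
      · have := h v; simpa [hv] using this
      · have hz : v ∉ Z := fun hz => Finset.disjoint_left.mp hZF hz hv
        have := h v; simpa [hz, hv] using this
  rw [h, pr_pi]
  have h1 : ∀ v : V, (((if v ∈ Z then {0} else if v ∈ F then Finset.univ.erase 0
        else Finset.univ : Finset (Fin d)).card : ℝ)) / (Fintype.card (Fin d) : ℝ) =
      (if v ∈ Z then 1 / (d : ℝ) else 1) * (if v ∈ F then (1 - 1 / (d : ℝ)) else 1) := by
    intro v
    rw [Fintype.card_fin]
    by_cases hz : v ∈ Z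
    · have hf : v ∉ F := fun hf => Finset.disjoint_left.mp hZF hz hf
      simp [hz, hf]
    · by_cases hf : v ∈ F
      · simp only [hz, hf, if_true, if_false]
        rw [Finset.card_erase_of_mem (Finset.mem_univ _), Finset.card_univ, Fintype.card_fin]
        have hd1 : 1 ≤ d := Nat.one_le_iff_ne_zero.mpr (NeZero.ne d)
        rw [Nat.cast_sub hd1]
        field_simp
        simp
      · simp [hz, hf, hd]
  rw [Finset.prod_congr rfl (fun v _ => h1 v), Finset.prod_mul_distrib]
  congr 1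
  · rw [Finset.prod_ite]
    simp
  · rw [Finset.prod_ite]
    simp

lemma kappa_bound (d : ℕ) (hd : 2 ≤ d) (m : ℕ) (hm : m ≤ 4 * d) :
    Real.exp (-8) ≤ (1 - 1 / (d : ℝ)) ^ m := by
  have hdr : (2 : ℝ) ≤ d := by exact_mod_cast hd
  set y := 1 / (d : ℝ) with hy
  have hy0 : 0 < y := by positivity
  have hy1 : y ≤ 1 / 2 := by rw [hy]; apply one_div_le_one_div_of_le <;> linarith
  have h1 : Real.exp (-(2 * y)) ≤ 1 - y := by
    have e1 : 1 + 2 * y ≤ Real.exp (2 * y) := by
      have := Real.add_one_le_exp (2 * y); linarith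
    have e2 : 1 ≤ Real.exp (2 * y) * (1 - y) := by nlinarith
    rw [Real.exp_neg]
    rw [inv_le_iff_one_le_mul₀ (Real.exp_pos _)]
    linarith
  have h2 : (Real.exp (-(2 * y))) ^ m ≤ (1 - y) ^ m := pow_le_pow_left₀ (Real.exp_pos _).le h1 m
  refine le_trans ?_ h2
  rw [← Real.exp_nat_mul]
  apply Real.exp_le_exp.mpr
  have hmr : (m : ℝ) ≤ 4 * d := by exact_mod_cast hm
  have hyd : y * d = 1 := by rw [hy]; field_simp
  have : (m : ℝ) * y ≤ 4 := by
    calc (m : ℝ) * y ≤ (4 * d) * y := mul_le_mul_of_nonneg_right hmr hy0.le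
      _ = 4 * (y * d) := by ring
      _ = 4 := by rw [hyd]; ring
  nlinarith

/-- lower bound for two zeros and at most `4 d` non-zeros -/
lemma pr_layer_two [NeZero d] (hd : 2 ≤ d) (a b : V) (hab : a ≠ b) (F : Finset V)
    (hF : F.card ≤ 4 * d) (ha : a ∉ F) (hb : b ∉ F) :
    Real.exp (-8) / (d : ℝ) ^ 2 ≤
      pr (fun x : V → Fin d => (x a = 0 ∧ x b = 0) ∧ ∀ v ∈ F, x v ≠ 0) := by
  have h := pr_layer (d := d) ({a, b} : Finset V) F (by
    rw [Finset.disjoint_left]
    intro x hx
    rw [Finset.mem_insert, Finset.mem_singleton] at hx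
    rcases hx with rfl | rfl <;> assumption)
  have e : (fun x : V → Fin d => (x a = 0 ∧ x b = 0) ∧ ∀ v ∈ F, x v ≠ 0) =
      (fun x : V → Fin d => (∀ v ∈ ({a, b} : Finset V), x v = 0) ∧ ∀ v ∈ F, x v ≠ 0) := by
    funext x
    simp
  rw [e, h, Finset.card_pair hab]
  have hk := kappa_bound d hd F.card hF
  have hdr : (0 : ℝ) < d := by
    have : (2 : ℝ) ≤ d := by exact_mod_cast hd
    linarith
  rw [div_eq_mul_inv, mul_comm]
  have : ((d : ℝ) ^ 2)⁻¹ = (1 / (d : ℝ)) ^ 2 := by rw [one_div, inv_pow]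
  rw [this]
  exact mul_le_mul_of_nonneg_left hk (by positivity)

end Pool.Agent.Helper244.RB
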