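import Pool.Agent.Helper244.RB.Param

set_option autoImplicit false
open Classical

namespace Pool.Agent.Helper244.RB

variable {V : Type} [Fintype V] {a h t d : ℕ}

/-- ball of a graph -/
noncomputable def ball (G : SimpleGraph V) : ℕ → V → Finset V
  | 0, v => {v}
  | r + 1, v => insert v ((nb G v).biUnion (fun u => ball G r u))

lemma self_ball (G : SimpleGraph V) (r : ℕ) (v : V) : v ∈ ball G r v := by
  cases r with
  | zero => simp [ball]
  | succ r => simp [ball]

lemma ball_step {G : SimpleGraph V} {r : ℕ} {u v w : V} (h : G.Adj v u) (hw : w ∈ ball G r u) :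
    w ∈ ball G (r + 1) v := by
  rw [ball, Finset.mem_insert, Finset.mem_biUnion]
  exact Or.inr ⟨u, mem_nb.mpr h, hw⟩

lemma ball_mono_succ {G : SimpleGraph V} (r : ℕ) : ∀ v : V, ball G r v ⊆ ball G (r + 1) v := by
  induction r with
  | zero =>
    intro v w hw
    rw [ball, Finset.mem_singleton] at hw
    subst hw
    exact self_ball G 1 w
  | succ r ih =>
    intro v w hw
    rw [ball, Finset.mem_insert, Finset.mem_biUnion] at hw
    rcases hw with rfl | ⟨u, hu, hw⟩
    · exact self_ball G _ w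
    · exact ball_step (mem_nb.mp hu) (ih u hw)

lemma ball_mono {G : SimpleGraph V} {r s : ℕ} (hrs : r ≤ s) (v : V) : ball G r v ⊆ ball G s v := by
  induction s, hrs using Nat.le_induction with
  | base => exact Finset.Subset.refl _
  | succ s _ ih => exact ih.trans (ball_mono_succ s v)

/-- extension at the far end -/
lemma ball_snoc {G : SimpleGraph V} (r : ℕ) : ∀ {v w x : V}, w ∈ ball G r v → G.Adj w x →
    x ∈ ball G (r + 1) v := by
  induction r with
  | zero =>
    intro v w x hw hx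
    rw [ball, Finset.mem_singleton] at hw
    subst hw
    exact ball_step hx (self_ball G 0 x)
  | succ r ih =>
    intro v w x hw hx
    rw [ball, Finset.mem_insert, Finset.mem_biUnion] at hw
    rcases hw with rfl | ⟨u, hu, hw⟩
    · exact ball_step hx (self_ball G _ x)
    · exact ball_step (mem_nb.mp hu) (ih hw hx)

lemma ball_symm {G : SimpleGraph V} (r : ℕ) : ∀ {v w : V}, w ∈ ball G r v → v ∈ ball G r w := by
  induction r with
  | zero =>
    intro v w hw
    rw [ball, Finset.mem_singleton] at hw ⊢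
    exact hw.symm
  | succ r ih =>
    intro v w hw
    rw [ball, Finset.mem_insert, Finset.mem_biUnion] at hw
    rcases hw with rfl | ⟨u, hu, hw⟩
    · exact self_ball G _ w
    · exact ball_snoc r (ih hw) (mem_nb.mp hu).symm

lemma ball_card {G : SimpleGraph V} (hdeg : ∀ v, (nb G v).card ≤ d) (hd : 1 ≤ d) (r : ℕ) :
    ∀ v : V, (ball G r v).card ≤ (d + 1) ^ r := by
  induction r with
  | zero => intro v; simp [ball]
  | succ r ih =>
    intro v
    rw [ball]
    refine (Finset.card_insert_le _ _).trans ?_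
    have h1 := Finset.card_biUnion_le_card_mul (nb G v) (fun u => ball G r u) ((d + 1) ^ r)
      (fun u _ => ih u)
    have h2 := Nat.mul_le_mul_right ((d + 1) ^ r) (hdeg v)
    have h3 : 1 ≤ (d + 1) ^ r := Nat.one_le_pow _ _ (by omega)
    rw [pow_succ]
    have e : (d + 1) ^ r * (d + 1) = d * (d + 1) ^ r + (d + 1) ^ r := by ring
    omega

lemma dep_count {G : SimpleGraph V} (hdeg : ∀ v, (nb G v).card ≤ d) (hd : 1 ≤ d) (v : V) :
    ((Finset.univ : Finset V).filter (fun w => ¬ Disjoint (ball G 3 v) (ball G 3 w))).card ≤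
      (d + 1) ^ 6 := by
  have h1 : (Finset.univ : Finset V).filter (fun w => ¬ Disjoint (ball G 3 v) (ball G 3 w)) ⊆
      (ball G 3 v).biUnion (fun u => ball G 3 u) := by
    intro w hw
    rw [Finset.mem_filter] at hw
    obtain ⟨u, hu, hu'⟩ := Finset.not_disjoint_iff.mp hw.2
    rw [Finset.mem_biUnion]
    exact ⟨u, hu, ball_symm 3 hu'⟩
  refine (Finset.card_le_card h1).trans ?_
  refine (Finset.card_biUnion_le_card_mul _ _ ((d + 1) ^ 3) (fun u _ => ball_card hdeg hd 3 u)).trans ?_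
  calc (ball G 3 v).card * (d + 1) ^ 3 ≤ (d + 1) ^ 3 * (d + 1) ^ 3 :=
        Nat.mul_le_mul_right _ (ball_card hdeg hd 3 v)
    _ = (d + 1) ^ 6 := by rw [← pow_add]

/-- agreement on a set -/
def agr (S : Finset V) (ω ω' : Om V t d) : Prop := ∀ u ∈ S, ω u = ω' u

omit [Fintype V] in
lemma mem_agr {S : Finset V} {ω ω' : Om V t d} (h : agr S ω ω') {v : V} (hv : v ∈ S) (j : ℕ) :
    mem ω j v ↔ mem ω' j v := by
  unfold mem
  rw [h v hv]

omit [Fintype V] in
lemma used_agr {S : Finset V} {ω ω' : Om V t d} (h : agr S ω ω') {v : V} (hv : v ∈ S) (j : ℕ) :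
    usedB ω j v ↔ usedB ω' j v := by
  unfold usedB
  constructor
  · rintro ⟨i, hi, h0⟩; exact ⟨i, hi, (mem_agr h hv i).mp h0⟩
  · rintro ⟨i, hi, h0⟩; exact ⟨i, hi, (mem_agr h hv i).mpr h0⟩

lemma ret_agr {G : SimpleGraph V} {S : Finset V} {ω ω' : Om V t d} (h : agr S ω ω') {v : V}
    (hv : ball G 1 v ⊆ S) (j : ℕ) : ret G ω j v ↔ ret G ω' j v := by
  have hvS : v ∈ S := hv (self_ball G 1 v)
  have hw : ∀ w, G.Adj v w → w ∈ S := fun w hw => hv (ball_step hw (self_ball G 0 w))
  unfold ret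
  rw [mem_agr h hvS, used_agr h hvS]
  constructor
  · rintro ⟨h1, h2, h3⟩
    exact ⟨h1, h2, fun w hw' hm => h3 w hw' ((mem_agr h (hw w hw') j).mpr hm)⟩
  · rintro ⟨h1, h2, h3⟩
    exact ⟨h1, h2, fun w hw' hm => h3 w hw' ((mem_agr h (hw w hw') j).mp hm)⟩

lemma ball_trans {G : SimpleGraph V} (r s : ℕ) : ∀ {v w : V}, w ∈ ball G s v →
    ball G r w ⊆ ball G (s + r) v := by
  induction s with
  | zero =>
    intro v w hw
    rw [ball, Finset.mem_singleton] at hw
    subst hw
    rw [zero_add]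
  | succ s ih =>
    intro v w hw
    rw [ball, Finset.mem_insert, Finset.mem_biUnion] at hw
    rcases hw with rfl | ⟨u, hu, hw⟩
    · exact ball_mono (by omega) w
    · intro x hx
      have := ih hw hx
      have e : s + 1 + r = (s + r) + 1 := by ring
      rw [e]
      exact ball_step (mem_nb.mp hu) this

lemma pal_agr {G : SimpleGraph V} {S : Finset V} {ω ω' : Om V t d} (h : agr S ω ω') {v : V}
    (hv : ball G 2 v ⊆ S) (j : ℕ) : pal G ω j v ↔ pal G ω' j v := by
  have hw : ∀ w, G.Adj v w → ball G 1 w ⊆ S := by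
    intro w hw
    exact (ball_trans 1 1 (ball_step hw (self_ball G 0 w))).trans hv
  unfold pal
  constructor
  · rintro ⟨x, y, h1, h2, h3, h4, h5⟩
    exact ⟨x, y, h1, h2, h3, (ret_agr h (hw x h2) j).mp h4, (ret_agr h (hw y h3) j).mp h5⟩
  · rintro ⟨x, y, h1, h2, h3, h4, h5⟩
    exact ⟨x, y, h1, h2, h3, (ret_agr h (hw x h2) j).mpr h4, (ret_agr h (hw y h3) j).mpr h5⟩

lemma twoPal_agr {G : SimpleGraph V} {S : Finset V} {ω ω' : Om V t d} (h : agr S ω ω') {v : V}
    (hv : ball G 2 v ⊆ S) : twoPal G ω v ↔ twoPal G ω' v := by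
  unfold twoPal
  constructor
  · rintro ⟨i, j, h1, h2, h3⟩
    exact ⟨i, j, h1, (pal_agr h hv i).mp h2, (pal_agr h hv j).mp h3⟩
  · rintro ⟨i, j, h1, h2, h3⟩
    exact ⟨i, j, h1, (pal_agr h hv i).mpr h2, (pal_agr h hv j).mpr h3⟩

/-- the clique is good -/
def cgood (G : SimpleGraph V) (C : Finset V) (ω : Om V t d) : Prop :=
  8 * (C.filter (fun c => usedB ω t c)).card ≤ C.card ∧
    ∃ a ∈ C, ∃ b ∈ C, a ≠ b ∧ ¬ usedB ω t a ∧ ¬ usedB ω t b ∧ twoPal G ω a ∧ twoPal G ω b

/-- bad event at a vertex -/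
def bad (G : SimpleGraph V) (F : Finset (Finset V)) (v : V) (ω : Om V t d) : Prop :=
  (d * d ≤ 10000 * npairs G v ∧ ¬ twoPal G ω v) ∨ ∃ C ∈ F, v ∈ C ∧ ¬ cgood G C ω

lemma bad_dep {G : SimpleGraph V} {F : Finset (Finset V)} (hF : ∀ C ∈ F, Clq G C) (v : V) :
    DependsOn (fun ω : Om V t d => bad G F v ω) (ball G 3 v) := by
  intro ω ω' h hb
  have hag : agr (ball G 3 v) ω ω' := h
  rcases hb with ⟨h1, h2⟩ | ⟨C, hC, hv, hng⟩
  · left
    exact ⟨h1, fun h3 => h2 ((twoPal_agr hag (ball_mono (by norm_num) v)).mpr h3)⟩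
  · right
    refine ⟨C, hC, hv, fun hg => hng ?_⟩
    have hC1 : ∀ c ∈ C, c ∈ ball G 1 v := by
      intro c hc
      by_cases hcv : v = c
      · subst hcv; exact self_ball G 1 v
      · exact ball_step (hF C hC v hv c hc hcv) (self_ball G 0 c)
    have hC3 : ∀ c ∈ C, c ∈ ball G 3 v := fun c hc => ball_mono (by norm_num) v (hC1 c hc)
    have hC2 : ∀ c ∈ C, ball G 2 c ⊆ ball G 3 v := fun c hc => ball_trans 2 1 (hC1 c hc)
    obtain ⟨g1, x, hx, y, hy, g2, g3, g4, g5, g6⟩ := hg
    have e : C.filter (fun c => usedB ω t c) = C.filter (fun c => usedB ω' t c) :=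
      Finset.filter_congr (fun c hc => used_agr hag (hC3 c hc) t)
    refine ⟨?_, x, hx, y, hy, g2, ?_, ?_, ?_, ?_⟩
    · rw [e]; exact g1
    · exact fun hu => g3 ((used_agr hag (hC3 x hx) t).mp hu)
    · exact fun hu => g4 ((used_agr hag (hC3 y hy) t).mp hu)
    · exact (twoPal_agr hag (hC2 x hx)).mpr g5
    · exact (twoPal_agr hag (hC2 y hy)).mpr g6

/-- probability of the bad event -/
theorem bad_pr [NeZero d] (hP : Par a h t d) {G : SimpleGraph V} {F : Finset (Finset V)}
    (hR : RStr d V G F) (v : V) : pr (fun ω : Om V t d => bad G F v ω) ≤ 1 / (a : ℝ) ^ 200 := by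
  have h0 := hP.apos
  have h1 := hP.abig
  set ε : ℝ := 1 / (a : ℝ) ^ 240 with hε
  have hε0 : 0 < ε := by positivity
  have hdpos : (0 : ℝ) < d := by rw [hP.dr]; positivity
  have hd1 : (1 : ℝ) ≤ d := by rw [hP.dr]; exact one_le_pow₀ (by linarith)
  have p1 : pr (fun ω : Om V t d => d * d ≤ 10000 * npairs G v ∧ ¬ twoPal G ω v) ≤ 2 * ε := by
    by_cases hs : d * d ≤ 10000 * npairs G v
    · refine le_trans (pr_mono ?_) (sparse_final hP G hR.reg v hs)
      exact fun ω hω => hω.2
    · have : (fun ω : Om V t d => d * d ≤ 10000 * npairs G v ∧ ¬ twoPal G ω v) = fun _ => False := by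
        funext ω; simp [hs]
      rw [this]
      have : pr (fun _ : Om V t d => False) = 0 := by unfold pr cnt ev; simp
      rw [this]; positivity
  have p2 : pr (fun ω : Om V t d => ∃ C ∈ F, v ∈ C ∧ ¬ cgood G C ω) ≤ 6 * d * ε := by
    by_cases hex : ∃ C ∈ F, v ∈ C
    · obtain ⟨C, hC, hv⟩ := hex
      have hle : ∀ ω : Om V t d, (∃ C ∈ F, v ∈ C ∧ ¬ cgood G C ω) → ¬ cgood G C ω := by
        rintro ω ⟨C', hC', hv', hng⟩
        have : C' = C := by
          by_contra hne
          exact Finset.disjoint_left.mp (hR.disj C' hC' C hC hne) hv' hv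
        rwa [this] at hng
      refine (pr_mono hle).trans ?_
      have hCb := hR.big C hC
      have hdn : 10000000 ≤ d := by
        rw [hP.hd]
        calc 10000000 ≤ a ^ 2 := by have := hP.big; nlinarith
          _ ≤ a ^ 32 := Nat.pow_le_pow_right (by have := hP.big; omega) (by norm_num)
      have q1 := used_thr (V := V) hP C 8 _ (by norm_num) (by norm_num) rfl (by omega)
      have hsplit : ∀ ω : Om V t d, ¬ cgood G C ω →
          (C.card < 8 * (C.filter (fun u => usedB ω t u)).card) ∨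
          (8 * (C.filter (fun c => usedB ω t c)).card ≤ C.card ∧
      ¬ ∃ a ∈ C, ∃ b ∈ C, a ≠ b ∧ ¬ usedB ω t a ∧ ¬ usedB ω t b ∧ twoPal G ω a ∧ twoPal G ω b) := by
        intro ω hng
        by_cases hu : 8 * (C.filter (fun c => usedB ω t c)).card ≤ C.card
        · right; exact ⟨hu, fun h => hng ⟨hu, h⟩⟩
        · left; omega
      refine (pr_mono hsplit).trans ((pr_or_le _ _).trans ?_)
      have q2 : pr (fun ω : Om V t d => 8 * (C.filter (fun c => usedB ω t c)).card ≤ C.card ∧
          ¬ ∃ a ∈ C, ∃ b ∈ C, a ≠ b ∧ ¬ usedB ω t a ∧ ¬ usedB ω t b ∧ twoPal G ω a ∧ twoPal G ω b) ≤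
          5 * d * ε := by
        rcases Nat.lt_or_ge (d - C.card) (a ^ 9) with hk | hk
        · have := small_final hP hR hC hk.le
          rw [← hε] at this
          nlinarith
        · have hsub : ∀ ω : Om V t d, (8 * (C.filter (fun c => usedB ω t c)).card ≤ C.card ∧
              ¬ ∃ a ∈ C, ∃ b ∈ C, a ≠ b ∧ ¬ usedB ω t a ∧ ¬ usedB ω t b ∧ twoPal G ω a ∧ twoPal G ω b) →
              ∃ z ∈ C, 8 * (C.filter (fun c => usedB ω t c)).card ≤ C.card ∧ ¬ twoPal G ω z := by
            rintro ω ⟨hu, hno⟩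
            by_contra hcon
            push Not at hcon
            have e1 := Finset.card_filter_add_card_filter_not (s := C) (fun u => usedB ω t u)
            have e2 : 1 < (C.filter (fun u => ¬ usedB ω t u)).card := by omega
            obtain ⟨x, hx, y, hy, hxy⟩ := Finset.one_lt_card.mp e2
            rw [Finset.mem_filter] at hx hy
            exact hno ⟨x, hx.1, y, hy.1, hxy, hx.2, hy.2, hcon x hx.1 hu, hcon y hy.1 hu⟩
          refine (pr_mono hsub).trans ((pr_exists_le _ _).trans ?_)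
          have hsum : ∑ z ∈ C, pr (fun ω : Om V t d =>
              8 * (C.filter (fun c => usedB ω t c)).card ≤ C.card ∧ ¬ twoPal G ω z) ≤
              ∑ _z ∈ C, 2 * ε := by
            apply Finset.sum_le_sum
            intro z hz
            exact large_final hP hR hC hk hz
          refine hsum.trans ?_
          rw [Finset.sum_const, nsmul_eq_mul]
          have hCd : (C.card : ℝ) ≤ d := by
            have := hR.small C hC
            exact_mod_cast (by omega : C.card ≤ d)
          nlinarith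
      nlinarith
    · have : (fun ω : Om V t d => ∃ C ∈ F, v ∈ C ∧ ¬ cgood G C ω) = fun _ => False := by
        funext ω
        apply propext
        constructor
        · rintro ⟨C, hC, hv, _⟩; exact hex ⟨C, hC, hv⟩
        · exact False.elim
      rw [this]
      have : pr (fun _ : Om V t d => False) = 0 := by unfold pr cnt ev; simp
      rw [this]; positivity
  refine (pr_or_le _ _).trans ((add_le_add p1 p2).trans ?_)
  have e1 : 2 * ε + 6 * d * ε ≤ (a : ℝ) ^ 33 * ε := by
    have : (a : ℝ) ^ 33 = a * d := by rw [hP.dr]; ring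
    rw [this]
    have : 2 * ε + 6 * d * ε = (2 + 6 * d) * ε := by ring
    rw [this]
    apply mul_le_mul_of_nonneg_right _ hε0.le
    nlinarith
  refine e1.trans ?_
  rw [hε, mul_one_div, div_le_div_iff₀ (by positivity) (by positivity), one_mul, ← pow_add]
  exact pow_le_pow_right₀ (by linarith) (by norm_num)

/-- a good outcome -/
theorem good_exists [NeZero d] (hP : Par a h t d) {G : SimpleGraph V} {F : Finset (Finset V)}
    (hR : RStr d V G F) : ∃ ω : Om V t d, ∀ v, ¬ bad G F v ω := by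
  have h0 := hP.apos
  have h1 := hP.abig
  have hd1 : (1 : ℝ) ≤ d := by rw [hP.dr]; exact one_le_pow₀ (by linarith)
  have hdb := hP.d_big
  have h4 : 4 * (1 / (a : ℝ) ^ 200) * (((d + 1) ^ 6 : ℕ) : ℝ) ≤ 1 := by
    push_cast
    have e1 : ((d : ℝ) + 1) ^ 6 ≤ (2 * d) ^ 6 := pow_le_pow_left₀ (by positivity) (by linarith) 6
    have e2 : (2 * (d : ℝ)) ^ 6 = 64 * (a : ℝ) ^ 192 := by rw [hP.dr]; ring
    have e3 : (256 : ℝ) * (a : ℝ) ^ 192 ≤ (a : ℝ) ^ 200 := by
      have : (a : ℝ) ^ 200 = (a : ℝ) ^ 8 * (a : ℝ) ^ 192 := by ring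
      rw [this]
      apply mul_le_mul_of_nonneg_right _ (by positivity)
      calc (256 : ℝ) ≤ (a : ℝ) ^ 1 := by rw [pow_one]; linarith
        _ ≤ (a : ℝ) ^ 8 := pow_le_pow_right₀ (by linarith) (by norm_num)
    have e4 : 4 * (1 / (a : ℝ) ^ 200) * ((d : ℝ) + 1) ^ 6 = (4 * ((d : ℝ) + 1) ^ 6) / (a : ℝ) ^ 200 := by
      ring
    rw [e4, div_le_one (by positivity)]
    linarith
  obtain ⟨ω, hω⟩ := lll (Finset.univ : Finset V) (fun v (ω : Om V t d) => bad G F v ω)
    (fun v => ball G 3 v) (fun v _ => bad_dep hR.clq v) (1 / (a : ℝ) ^ 200) ((d + 1) ^ 6)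
    (by positivity)
    (fun v _ => by
      rw [cnt_eq_mul]
      exact mul_le_mul_of_nonneg_right (bad_pr hP hR v) (by positivity))
    (fun v _ => dep_count (fun v => (hR.reg v).le) (by omega) v)
    h4 (Nat.one_le_pow _ _ (by omega)) Fintype.card_pos
  exact ⟨ω, fun v => hω v (Finset.mem_univ v)⟩

end Pool.Agent.Helper244.RB
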