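import Mathlib

set_option autoImplicit false
open Classical

namespace Pool.Agent.Helper244.RB

variable {V : Type} [Fintype V]

/-- neighbours as a finite set -/
noncomputable def nb (G : SimpleGraph V) (v : V) : Finset V := Finset.univ.filter (fun w => G.Adj v w)

lemma mem_nb {G : SimpleGraph V} {v w : V} : w ∈ nb G v ↔ G.Adj v w := by
  simp [nb]

lemma nb_symm {G : SimpleGraph V} {v w : V} : w ∈ nb G v ↔ v ∈ nb G w := by
  rw [mem_nb, mem_nb, G.adj_comm]

lemma self_notMem_nb {G : SimpleGraph V} {v : V} : v ∉ nb G v := by
  rw [mem_nb]; exact G.loopless.irrefl v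

/-- greedy extension along a rank function -/
theorem extend (G : SimpleGraph V) (n : ℕ) (rank : V → ℕ) :
    ∀ (m : ℕ) (U : Finset V) (f : V → Fin n), U.card = m →
      (∀ v ∉ U, ∀ w ∉ U, G.Adj v w → f v ≠ f w) →
      (∀ v ∈ U, ((nb G v \ U).image f).card +
        ((nb G v ∩ U).filter (fun u => rank u ≤ rank v)).card < n) → G.Colorable n := by
  intro m
  induction m with
  | zero =>
    intro U f hU hp _
    rw [Finset.card_eq_zero] at hU
    subst hU
    exact ⟨SimpleGraph.Coloring.mk f (fun {v w} h => hp v (by simp) w (by simp) h)⟩
  | succ m ih =>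
    intro U f hU hp hc
    have hne : U.Nonempty := by
      rw [← Finset.card_pos]; omega
    obtain ⟨v, hv, hmin⟩ := Finset.exists_min_image U rank hne
    have hlt : ((nb G v \ U).image f).card < (Finset.univ : Finset (Fin n)).card := by
      rw [Finset.card_univ, Fintype.card_fin]
      exact lt_of_le_of_lt (Nat.le_add_right _ _) (hc v hv)
    obtain ⟨c, -, hcn⟩ := Finset.exists_mem_notMem_of_card_lt_card hlt
    refine ih (U.erase v) (Function.update f v c) (by rw [Finset.card_erase_of_mem hv, hU]; rfl) ?_ ?_
    · intro a ha b hb hab
      have key : ∀ a b : V, a ∉ U.erase v → b ∉ U.erase v → G.Adj a b → a = v →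
          Function.update f v c a ≠ Function.update f v c b := by
        intro a b ha hb hab hav
        subst hav
        have hba : b ≠ a := fun h => by subst h; exact G.loopless.irrefl _ hab
        have hbU : b ∉ U := fun h => hb (Finset.mem_erase.mpr ⟨hba, h⟩)
        rw [Function.update_self, Function.update_of_ne hba]
        intro hcb
        apply hcn
        rw [Finset.mem_image]
        exact ⟨b, by rw [Finset.mem_sdiff, mem_nb]; exact ⟨hab, hbU⟩, hcb.symm⟩
      by_cases hav : a = v
      · exact key a b ha hb hab hav
      · by_cases hbv : b = v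
        · exact (key b a hb ha hab.symm hbv).symm
        · rw [Function.update_of_ne hav, Function.update_of_ne hbv]
          exact hp a (fun h => ha (Finset.mem_erase.mpr ⟨hav, h⟩)) b
            (fun h => hb (Finset.mem_erase.mpr ⟨hbv, h⟩)) hab
    · intro w hw
      rw [Finset.mem_erase] at hw
      obtain ⟨hwv, hwU⟩ := hw
      have h0 := hc w hwU
      by_cases hadj : v ∈ nb G w
      · have h1 : ((nb G w \ U.erase v).image (Function.update f v c)) ⊆
            insert c ((nb G w \ U).image f) := by
          intro x hx
          rw [Finset.mem_image] at hx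
          obtain ⟨u, hu, rfl⟩ := hx
          rw [Finset.mem_sdiff] at hu
          rw [Finset.mem_insert]
          by_cases huv : u = v
          · left; rw [huv, Function.update_self]
          · right
            rw [Function.update_of_ne huv, Finset.mem_image]
            exact ⟨u, by rw [Finset.mem_sdiff]; exact ⟨hu.1, fun h => hu.2 (Finset.mem_erase.mpr ⟨huv, h⟩)⟩, rfl⟩
        have h2 := (Finset.card_le_card h1).trans (Finset.card_insert_le _ _)
        have h3 : ((nb G w ∩ U.erase v).filter (fun u => rank u ≤ rank w)) =
            ((nb G w ∩ U).filter (fun u => rank u ≤ rank w)).erase v := by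
          ext u
          simp only [Finset.mem_filter, Finset.mem_inter, Finset.mem_erase]
          tauto
        have h4 : v ∈ (nb G w ∩ U).filter (fun u => rank u ≤ rank w) := by
          rw [Finset.mem_filter, Finset.mem_inter]
          exact ⟨⟨hadj, hv⟩, hmin w hwU⟩
        rw [h3, Finset.card_erase_of_mem h4]
        have h5 := Finset.card_pos.mpr ⟨v, h4⟩
        omega
      · have h1 : ((nb G w \ U.erase v).image (Function.update f v c)) ⊆
            ((nb G w \ U).image f) := by
          intro x hx
          rw [Finset.mem_image] at hx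
          obtain ⟨u, hu, rfl⟩ := hx
          rw [Finset.mem_sdiff] at hu
          have huv : u ≠ v := fun h => hadj (h ▸ hu.1)
          rw [Function.update_of_ne huv, Finset.mem_image]
          exact ⟨u, by rw [Finset.mem_sdiff]; exact ⟨hu.1, fun h => hu.2 (Finset.mem_erase.mpr ⟨huv, h⟩)⟩, rfl⟩
        have h2 := Finset.card_le_card h1
        have h3 : ((nb G w ∩ U.erase v).filter (fun u => rank u ≤ rank w)).card ≤
            ((nb G w ∩ U).filter (fun u => rank u ≤ rank w)).card := by
          apply Finset.card_le_card
          intro u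
          simp only [Finset.mem_filter, Finset.mem_inter, Finset.mem_erase]
          tauto
        omega

/-- savings: redundant elements -/
lemma card_image_redundant {α β : Type} [DecidableEq β] (A P : Finset α) (f : α → β) (hP : P ⊆ A)
    (h : ∀ p ∈ P, ∃ q ∈ A \ P, f q = f p) : (A.image f).card + P.card ≤ A.card := by
  have h1 : A.image f ⊆ (A \ P).image f := by
    intro x hx
    rw [Finset.mem_image] at hx
    obtain ⟨a, ha, rfl⟩ := hx
    by_cases hap : a ∈ P
    · obtain ⟨q, hq, hqf⟩ := h a hap
      exact Finset.mem_image.mpr ⟨q, hq, hqf⟩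
    · exact Finset.mem_image.mpr ⟨a, Finset.mem_sdiff.mpr ⟨ha, hap⟩, rfl⟩
  have h2 := (Finset.card_le_card h1).trans Finset.card_image_le
  rw [Finset.card_sdiff_of_subset hP] at h2
  have h3 := Finset.card_le_card hP
  omega

/-- the local condition in `extend`, from savings and later neighbours -/
lemma block_bound (G : SimpleGraph V) {n : ℕ} (rank : V → ℕ) (U : Finset V) (f : V → Fin n)
    (v : V) (P L : Finset V) (hP : P ⊆ nb G v \ U)
    (hf : ∀ p ∈ P, ∃ q ∈ (nb G v \ U) \ P, f q = f p)
    (hL : L ⊆ nb G v ∩ U) (hr : ∀ u ∈ L, rank v < rank u) :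
    ((nb G v \ U).image f).card + ((nb G v ∩ U).filter (fun u => rank u ≤ rank v)).card
      + P.card + L.card ≤ (nb G v).card := by
  have h1 := card_image_redundant (nb G v \ U) P f hP hf
  have h2 : ((nb G v ∩ U).filter (fun u => rank u ≤ rank v)).card + L.card ≤ (nb G v ∩ U).card := by
    have hd : Disjoint ((nb G v ∩ U).filter (fun u => rank u ≤ rank v)) L := by
      rw [Finset.disjoint_left]
      intro a ha hb
      have := (Finset.mem_filter.mp ha).2
      have := hr a hb
      omega
    rw [← Finset.card_union_of_disjoint hd]
    exact Finset.card_le_card (Finset.union_subset (Finset.filter_subset _ _) hL)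
  have h3 := Finset.card_sdiff_add_card_inter (nb G v) U
  omega

end Pool.Agent.Helper244.RB
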