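import Pool.Agent.Helper244.RB.Dep

set_option autoImplicit false
open Classical

namespace Pool.Agent.Helper244.RB

variable {V : Type} [Fintype V] {a h t d : ℕ}

theorem good_color [NeZero d] (hd : 1000 ≤ d) (ht : t + 1 ≤ d) {G : SimpleGraph V}
    {F : Finset (Finset V)} (hR : RStr d V G F) (ω : Om V t d) (hω : ∀ v, ¬ bad G F v ω) :
    G.Colorable (d - 1) := by
  rcases isEmpty_or_nonempty V with hE | hE
  · exact ⟨SimpleGraph.Coloring.mk (fun v => hE.elim v) (fun {v} => hE.elim v)⟩
  have hpos : 0 < d - 1 := by omega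
  let f : V → Fin (d - 1) := fun v =>
    if h : ∃ j, ret G ω j v then ⟨h.choose, by have := ret_lt h.choose_spec; omega⟩ else ⟨0, hpos⟩
  have hf : ∀ v j, ret G ω j v → (f v : ℕ) = j := by
    intro v j hj
    have hex : ∃ j, ret G ω j v := ⟨j, hj⟩
    simp only [f, dif_pos hex]
    exact ret_unique hex.choose_spec hj
  set U : Finset V := Finset.univ.filter (fun v => ¬ ∃ j, ret G ω j v) with hU
  have memU : ∀ v, v ∉ U ↔ ∃ j, ret G ω j v := by
    intro v
    rw [hU, Finset.mem_filter]
    simp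
  have usedU : ∀ v, ¬ usedB ω t v → v ∈ U := by
    intro v hv
    by_contra hcon
    obtain ⟨j, hj⟩ := (memU v).mp hcon
    exact hv ⟨j, ret_lt hj, hj.1⟩
  have hcg : ∀ C ∈ F, cgood G C ω := by
    intro C hC
    have h1 := hR.big C hC
    obtain ⟨v, hv⟩ := Finset.card_pos.mp (show 0 < C.card by omega)
    by_contra hng
    exact hω v (Or.inr ⟨C, hC, hv, hng⟩)
  have hsp : ∀ C : Finset V, ∃ p : V × V, C ∈ F → p.1 ∈ C ∧ p.2 ∈ C ∧ p.1 ≠ p.2 ∧
      ¬ usedB ω t p.1 ∧ ¬ usedB ω t p.2 ∧ twoPal G ω p.1 ∧ twoPal G ω p.2 := by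
    intro C
    by_cases hC : C ∈ F
    · obtain ⟨-, x, hx, y, hy, h1, h2, h3, h4, h5⟩ := hcg C hC
      exact ⟨(x, y), fun _ => ⟨hx, hy, h1, h2, h3, h4, h5⟩⟩
    · obtain ⟨v⟩ := hE
      exact ⟨(v, v), fun h => absurd h hC⟩
  choose p hp using hsp
  let rank : V → ℕ := fun v => if (∃ C ∈ F, v = (p C).1 ∨ v = (p C).2) then 2 else
    if ∃ C ∈ F, v ∈ C then 1 else 0
  have rank2 : ∀ C ∈ F, rank (p C).1 = 2 ∧ rank (p C).2 = 2 := by
    intro C hC
    constructor
    · simp only [rank]
      rw [if_pos ⟨C, hC, Or.inl rfl⟩]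
    · simp only [rank]
      rw [if_pos ⟨C, hC, Or.inr rfl⟩]
  -- enough savings
  have key : ∀ v ∈ U, ∀ P L : Finset V, P ⊆ nb G v \ U →
      (∀ q ∈ P, ∃ q' ∈ (nb G v \ U) \ P, f q' = f q) → L ⊆ nb G v ∩ U →
      (∀ u ∈ L, rank v < rank u) → 2 ≤ P.card + L.card →
      ((nb G v \ U).image f).card + ((nb G v ∩ U).filter (fun u => rank u ≤ rank v)).card < d - 1 := by
    intro v _ P L h1 h2 h3 h4 h5
    have h6 := block_bound G rank U f v P L h1 h2 h3 h4
    rw [hR.reg v] at h6
    omega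
  have caseTwo : ∀ v ∈ U, twoPal G ω v → ((nb G v \ U).image f).card +
      ((nb G v ∩ U).filter (fun u => rank u ≤ rank v)).card < d - 1 := by
    rintro v hv ⟨i, j, hij, ⟨x, y, hxy, hvx, hvy, hx, hy⟩, ⟨x', y', hxy', hvx', hvy', hx', hy'⟩⟩
    have hyy : y ≠ y' := by rintro rfl; exact hij (ret_unique hy hy')
    have hxy1 : x ≠ y' := by rintro rfl; exact hij (ret_unique hx hy')
    have hxy2 : x' ≠ y := by rintro rfl; exact hij (ret_unique hy hx')
    refine key v hv {y, y'} ∅ ?_ ?_ (Finset.empty_subset _) (fun u hu => absurd hu (Finset.notMem_empty u)) ?_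
    · intro q hq
      rw [Finset.mem_insert, Finset.mem_singleton] at hq
      rw [Finset.mem_sdiff, mem_nb]
      rcases hq with rfl | rfl
      · exact ⟨hvy, (memU _).mpr ⟨i, hy⟩⟩
      · exact ⟨hvy', (memU _).mpr ⟨j, hy'⟩⟩
    · intro q hq
      rw [Finset.mem_insert, Finset.mem_singleton] at hq
      rcases hq with rfl | rfl
      · refine ⟨x, ?_, ?_⟩
        · rw [Finset.mem_sdiff, Finset.mem_sdiff, mem_nb, Finset.mem_insert, Finset.mem_singleton]
          exact ⟨⟨hvx, (memU _).mpr ⟨i, hx⟩⟩, fun h => h.elim hxy hxy1⟩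
        · exact Fin.ext ((hf x i hx).trans (hf _ i hy).symm)
      · refine ⟨x', ?_, ?_⟩
        · rw [Finset.mem_sdiff, Finset.mem_sdiff, mem_nb, Finset.mem_insert, Finset.mem_singleton]
          exact ⟨⟨hvx', (memU _).mpr ⟨j, hx'⟩⟩, fun h => h.elim hxy2 hxy'⟩
        · exact Fin.ext ((hf x' j hx').trans (hf _ j hy').symm)
    · rw [Finset.card_pair hyy, Finset.card_empty]
  refine extend G (d - 1) rank U.card U f rfl ?_ ?_
  · intro v hv w hw hvw hfe
    obtain ⟨i, hi⟩ := (memU v).mp hv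
    obtain ⟨j, hj⟩ := (memU w).mp hw
    have h1 := hf v i hi
    have h2 := hf w j hj
    rw [hfe, h2] at h1
    subst h1
    exact hi.2.2 w hvw hj.1
  · intro v hv
    by_cases htw : twoPal G ω v
    · exact caseTwo v hv htw
    by_cases hcore : ∃ C ∈ F, v ∈ C
    · obtain ⟨C, hC, hvC⟩ := hcore
      have hpC := hp C hC
      have hns : ¬ ∃ C ∈ F, v = (p C).1 ∨ v = (p C).2 := by
        rintro ⟨C', hC', h | h⟩
        · exact htw (h ▸ (hp C' hC').2.2.2.2.2.1)
        · exact htw (h ▸ (hp C' hC').2.2.2.2.2.2)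
      have hr : rank v = 1 := by
        simp only [rank]
        rw [if_neg hns, if_pos ⟨C, hC, hvC⟩]
      have hv1 : v ≠ (p C).1 := fun h => hns ⟨C, hC, Or.inl h⟩
      have hv2 : v ≠ (p C).2 := fun h => hns ⟨C, hC, Or.inr h⟩
      refine key v hv ∅ {(p C).1, (p C).2} (Finset.empty_subset _)
        (fun u hu => absurd hu (Finset.notMem_empty u)) ?_ ?_ ?_
      · intro q hq
        rw [Finset.mem_insert, Finset.mem_singleton] at hq
        rw [Finset.mem_inter, mem_nb]
        rcases hq with rfl | rfl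
        · exact ⟨hR.clq C hC v hvC _ hpC.1 hv1, usedU _ hpC.2.2.2.1⟩
        · exact ⟨hR.clq C hC v hvC _ hpC.2.1 hv2, usedU _ hpC.2.2.2.2.1⟩
      · intro q hq
        rw [Finset.mem_insert, Finset.mem_singleton] at hq
        rw [hr]
        rcases hq with rfl | rfl
        · rw [(rank2 C hC).1]; norm_num
        · rw [(rank2 C hC).2]; norm_num
      · rw [Finset.card_pair hpC.2.2.1, Finset.card_empty]
    · rcases hR.cov v with h1 | h1 | ⟨C, hC, hdeg⟩
      · exact absurd h1 hcore
      · exact absurd ⟨h1, htw⟩ (fun h => hω v (Or.inl h))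
      · have hns : ¬ ∃ C ∈ F, v = (p C).1 ∨ v = (p C).2 := by
          rintro ⟨C', hC', h | h⟩
          · exact htw (h ▸ (hp C' hC').2.2.2.2.2.1)
          · exact htw (h ▸ (hp C' hC').2.2.2.2.2.2)
        have hr : rank v = 0 := by
          simp only [rank]
          rw [if_neg hns, if_neg hcore]
        have hCg := (hcg C hC).1
        have hCs := hR.small C hC
        refine key v hv ∅ ((nb G v ∩ C).filter (fun u => ¬ usedB ω t u)) (Finset.empty_subset _)
          (fun u hu => absurd hu (Finset.notMem_empty u)) ?_ ?_ ?_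
        · intro q hq
          rw [Finset.mem_filter, Finset.mem_inter] at hq
          rw [Finset.mem_inter]
          exact ⟨hq.1.1, usedU q hq.2⟩
        · intro q hq
          rw [Finset.mem_filter, Finset.mem_inter] at hq
          rw [hr]
          simp only [rank]
          by_cases h5 : ∃ C ∈ F, q = (p C).1 ∨ q = (p C).2
          · rw [if_pos h5]; norm_num
          · rw [if_neg h5, if_pos ⟨C, hC, hq.1.2⟩]; norm_num
        · rw [degIn_eq] at hdeg
          have e1 := Finset.card_filter_add_card_filter_not (s := nb G v ∩ C) (fun u => usedB ω t u)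
          have e2 : ((nb G v ∩ C).filter (fun u => usedB ω t u)).card ≤
              (C.filter (fun u => usedB ω t u)).card :=
            Finset.card_le_card (Finset.filter_subset_filter _ Finset.inter_subset_right)
          rw [Finset.card_empty]
          omega

/-- random part of the theorem -/
theorem rstr_color [NeZero d] (hP : Par a h t d) {G : SimpleGraph V} {F : Finset (Finset V)}
    (hR : RStr d V G F) : G.Colorable (d - 1) := by
  obtain ⟨ω, hω⟩ := good_exists hP hR
  refine good_color hP.d_big ?_ hR ω hω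
  rw [hP.ht, hP.hd]
  have hb := hP.big
  have h1 : 1 ≤ a ^ 24 := Nat.one_le_pow _ _ (by omega)
  have h2 : a ^ 25 ≤ a ^ 32 := Nat.pow_le_pow_right (by omega) (by norm_num)
  have h3 : a ^ 25 = a ^ 24 * a := by ring
  nlinarith

end Pool.Agent.Helper244.RB
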