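import Pool.Agent.Helper244.RB.Final

set_option autoImplicit false
open Classical

namespace Pool.Agent.Helper244.RB

/-- for some large `d`, every graph with maximum degree at most `d` and no clique on `d - 1`
vertices is `(d - 1)`-colourable -/
theorem weak_reed : ∃ d : ℕ, 1000 ≤ d ∧ ∀ (V : Type) [Fintype V] (H : SimpleGraph V),
    (∀ v, (nb H v).card ≤ d) → (∀ K : Finset V, Clq H K → K.card + 2 ≤ d) →
    H.Colorable (d - 1) := by
  obtain ⟨a, h, t, d, hP⟩ := exists_par
  have hd := hP.d_big
  have : NeZero d := ⟨by omega⟩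
  refine ⟨d, hd, ?_⟩
  have key : ∀ (n : ℕ) (V : Type) [Fintype V] (H : SimpleGraph V), Fintype.card V = n →
      (∀ v, (nb H v).card ≤ d) → (∀ K : Finset V, Clq H K → K.card + 2 ≤ d) →
      H.Colorable (d - 1) := by
    intro n
    induction n using Nat.strong_induction_on with
    | _ n ih =>
      intro V _ H hn hdeg hfree
      by_contra hcol
      have hc : Crit d V H := ⟨hdeg, hfree, hcol, fun W _ H' hlt h1 h2 =>
        ih _ (hn ▸ hlt) W H' rfl h1 h2⟩
      obtain ⟨F, hF⟩ := doubling hc hd
      exact hcol (dbl_color (rstr_color hP hF))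
  intro V _ H h1 h2
  exact key _ V H rfl h1 h2

end Pool.Agent.Helper244.RB
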