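import Pool.Agent.Helper244.RB.Unit

set_option autoImplicit false
open Classical

namespace Pool.Agent.Helper244.RB

/-- parameters -/
structure Par (a h t d : ℕ) : Prop where
  big : 1000000 ≤ a
  ht : t = a ^ 24
  hd : d = a ^ 32
  hh : t = h + h
  hexp : Real.exp (-(Real.exp (-8) / 12 * a)) ≤ 1 / (a : ℝ) ^ 255

theorem exists_par : ∃ a h t d : ℕ, Par a h t d := by
  have hc : (0 : ℝ) < Real.exp (-8) / 12 := by positivity
  set c : ℝ := Real.exp (-8) / 12 with hcdef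
  have h1 := Real.tendsto_pow_mul_exp_neg_atTop_nhds_zero 255
  have h2 : Filter.Tendsto (fun b : ℕ => c * ((2 * b : ℕ) : ℝ)) Filter.atTop Filter.atTop := by
    apply Filter.Tendsto.const_mul_atTop hc
    apply tendsto_natCast_atTop_atTop.comp
    apply Filter.tendsto_atTop_mono (f := fun b : ℕ => b) (fun b => by omega) Filter.tendsto_id
  have h3 := h1.comp h2
  have h4 : ∀ᶠ b : ℕ in Filter.atTop, (c * ((2 * b : ℕ) : ℝ)) ^ 255 *
      Real.exp (-(c * ((2 * b : ℕ) : ℝ))) < c ^ 255 :=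
    h3.eventually_lt_const (by positivity)
  have h5 : ∀ᶠ b : ℕ in Filter.atTop, 1000000 ≤ b := Filter.eventually_ge_atTop _
  obtain ⟨b, hb1, hb2⟩ := (h4.and h5).exists
  refine ⟨2 * b, b * (2 * b) ^ 23, (2 * b) ^ 24, (2 * b) ^ 32, by omega, rfl, rfl, by ring, ?_⟩
  rw [mul_pow] at hb1
  have hpos : (0 : ℝ) < ((2 * b : ℕ) : ℝ) ^ 255 := by
    have : (0 : ℝ) < ((2 * b : ℕ) : ℝ) := by exact_mod_cast (by omega : 0 < 2 * b)
    positivity
  rw [le_div_iff₀ hpos]
  have hc255 : (0 : ℝ) < c ^ 255 := by positivity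
  have h6 : c ^ 255 * (((2 * b : ℕ) : ℝ) ^ 255 * Real.exp (-(c * ((2 * b : ℕ) : ℝ)))) < c ^ 255 * 1 := by
    rw [mul_one]
    calc c ^ 255 * (((2 * b : ℕ) : ℝ) ^ 255 * Real.exp (-(c * ((2 * b : ℕ) : ℝ))))
        = c ^ 255 * ((2 * b : ℕ) : ℝ) ^ 255 * Real.exp (-(c * ((2 * b : ℕ) : ℝ))) := by ring
      _ < c ^ 255 := hb1
  have h7 := lt_of_mul_lt_mul_left h6 hc255.le
  rw [mul_comm]
  exact h7.le

section
variable {a h t d : ℕ} (hP : Par a h t d)
include hP

lemma Par.apos : (0 : ℝ) < a := by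
  have := hP.big
  exact_mod_cast (by omega : 0 < a)

lemma Par.abig : (1000000 : ℝ) ≤ a := by exact_mod_cast hP.big

lemma Par.dr : (d : ℝ) = (a : ℝ) ^ 32 := by rw [hP.hd]; push_cast; rfl

lemma Par.tr : (t : ℝ) = (a : ℝ) ^ 24 := by rw [hP.ht]; push_cast; rfl

lemma Par.tau : (t : ℝ) / d = 1 / (a : ℝ) ^ 8 := by
  have := hP.apos
  rw [hP.dr, hP.tr]
  field_simp

lemma Par.hr : (h : ℝ) = (a : ℝ) ^ 24 / 2 := by
  have h1 : (t : ℝ) = h + h := by exact_mod_cast hP.hh
  rw [hP.tr] at h1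
  linarith

lemma Par.d_big : 1000 ≤ d := by
  rw [hP.hd]
  calc 1000 ≤ a := by have := hP.big; omega
    _ = a ^ 1 := (pow_one a).symm
    _ ≤ a ^ 32 := Nat.pow_le_pow_right (by have := hP.big; omega) (by norm_num)

lemma Par.small_exp (x : ℝ) (n : ℕ) (hx1 : x ≤ 1) (hxn : Real.exp (-8) / 12 * a ≤ x * n) :
    (1 - x) ^ n ≤ 1 / (a : ℝ) ^ 255 := by
  have h1 : 1 - x ≤ Real.exp (-x) := Real.one_sub_le_exp_neg x
  calc (1 - x) ^ n ≤ (Real.exp (-x)) ^ n := pow_le_pow_left₀ (by linarith) h1 n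
    _ = Real.exp (-(x * n)) := by rw [← Real.exp_nat_mul]; congr 1; ring
    _ ≤ Real.exp (-(Real.exp (-8) / 12 * a)) := by
        apply Real.exp_le_exp.mpr
        linarith
    _ ≤ 1 / (a : ℝ) ^ 255 := hP.hexp

lemma Par.pow_eps (m : ℕ) (hm : 240 ≤ m) : 1 / (a : ℝ) ^ m ≤ 1 / (a : ℝ) ^ 240 := by
  have := hP.apos
  have h1 := hP.abig
  apply one_div_le_one_div_of_le (by positivity)
  exact pow_le_pow_right₀ (by linarith) hm

lemma Par.mul_eps (c : ℝ) (i : ℕ) (hi : i ≤ 14) (hc : c ≤ (a : ℝ) ^ (i + 1)) :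
    c * (1 / (a : ℝ) ^ 255) ≤ 1 / (a : ℝ) ^ 240 := by
  have h0 := hP.apos
  have h1 := hP.abig
  rw [mul_one_div, div_le_div_iff₀ (by positivity) (by positivity), one_mul]
  calc c * (a : ℝ) ^ 240 ≤ (a : ℝ) ^ (i + 1) * (a : ℝ) ^ 240 :=
        mul_le_mul_of_nonneg_right hc (by positivity)
    _ = (a : ℝ) ^ (i + 241) := by rw [← pow_add]
    _ ≤ (a : ℝ) ^ 255 := pow_le_pow_right₀ (by linarith) (by omega)

end

variable {V : Type} [Fintype V] {a h t d : ℕ}

lemma used_thr [NeZero d] (hP : Par a h t d) (I : Finset V) (c m : ℕ) (hc0 : 0 < c) (hc : c ≤ 40000)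
    (hI : I.card = m) (hm : 2400000 ≤ m) :
    pr (fun ω : Om V t d => m < c * (I.filter (fun u => usedB ω t u)).card) ≤ 1 / (a : ℝ) ^ 240 := by
  have h0 := hP.apos
  have h1 := hP.abig
  have h2 := tail_thr (t := t) (d := d) I (fun v ω => usedB ω t v) (fun v => {v}) ((t : ℝ) / d) (by positivity)
    (fun v _ => used_dep v) (fun i _ j _ hij => by simpa using hij) (fun v _ => pr_used v)
    m c 60 hc0 (1 / (a : ℝ) ^ 5) (by nlinarith) (by norm_num) (by positivity)
    (by rw [div_le_one (by positivity)]; exact one_le_pow₀ (by linarith)) ?_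
  · refine h2.trans ?_
    rw [div_pow, one_pow, ← pow_mul]
    exact hP.pow_eps _ (by norm_num)
  · rw [hI, hP.tau]
    have hcr : (c : ℝ) ≤ 40000 := by exact_mod_cast hc
    have e : 3 * (m : ℝ) * (1 / (a : ℝ) ^ 8) * c = (1 / (a : ℝ) ^ 5 * m) * (3 * c / (a : ℝ) ^ 3) := by
      field_simp
    rw [e]
    apply mul_le_of_le_one_right (by positivity)
    rw [div_le_one (by positivity)]
    calc 3 * (c : ℝ) ≤ (a : ℝ) ^ 1 := by rw [pow_one]; linarith
      _ ≤ (a : ℝ) ^ 3 := pow_le_pow_right₀ (by linarith) (by norm_num)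

/-- sparse vertices -/
theorem sparse_final [NeZero d] (hP : Par a h t d) (G : SimpleGraph V)
    (hreg : ∀ v, (nb G v).card = d) (v : V) (hv : d * d ≤ 10000 * npairs G v) :
    pr (fun ω : Om V t d => ¬ twoPal G ω v) ≤ 2 * (1 / (a : ℝ) ^ 240) := by
  have h0 := hP.apos
  have h1 := hP.abig
  have hexp := Real.exp_pos (-8)
  have hexp1 : Real.exp (-8) ≤ 1 := Real.exp_le_one_iff.mpr (by norm_num)
  refine (sparse_bound hP.d_big G (fun v => (hreg v).le) h hP.hh v hv).trans ?_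
  have hdn : 2400000 ≤ d := by
    rw [hP.hd]
    calc 2400000 ≤ a ^ 2 := by have := hP.big; nlinarith
      _ ≤ a ^ 32 := Nat.pow_le_pow_right (by have := hP.big; omega) (by norm_num)
  have h2 := used_thr (V := V) hP (nb G v) 40000 d (by norm_num) le_rfl (hreg v) hdn
  have h3 := hP.small_exp (Real.exp (-8) / 40000) h (by linarith) ?_
  · have h4 := hP.mul_eps 2 0 (by norm_num) (by rw [zero_add, pow_one]; linarith)
    linarith
  · rw [hP.hr]
    have : (a : ℝ) ^ 24 = a * (a : ℝ) ^ 23 := by ring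
    rw [this]
    have h5 : (10000 : ℝ) ≤ (a : ℝ) ^ 23 := by
      calc (10000 : ℝ) ≤ (a : ℝ) ^ 1 := by rw [pow_one]; linarith
        _ ≤ (a : ℝ) ^ 23 := pow_le_pow_right₀ (by linarith) (by norm_num)
    have h6 : (0 : ℝ) ≤ Real.exp (-8) * a := by positivity
    have h7 := mul_le_mul_of_nonneg_left h5 h6
    have e : Real.exp (-8) / 40000 * (a * (a : ℝ) ^ 23 / 2) = Real.exp (-8) * a * (a : ℝ) ^ 23 / 80000 := by
      ring
    rw [e]
    linarith

/-- cliques with many outside neighbours -/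
theorem large_final [NeZero d] (hP : Par a h t d) {G : SimpleGraph V} {F : Finset (Finset V)}
    (hR : RStr d V G F) {C : Finset V} (hC : C ∈ F) (hk : a ^ 9 ≤ d - C.card) {z : V} (hz : z ∈ C) :
    pr (fun ω : Om V t d => 8 * (C.filter (fun c => usedB ω t c)).card ≤ C.card ∧ ¬ twoPal G ω z) ≤
      2 * (1 / (a : ℝ) ^ 240) := by
  have h0 := hP.apos
  have h1 := hP.abig
  have hexp := Real.exp_pos (-8)
  have hexp1 : Real.exp (-8) ≤ 1 := Real.exp_le_one_iff.mpr (by norm_num)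
  refine (large_bound hP.d_big hR hC h hP.hh hz).trans ?_
  have hN := NH_card hR hC hz
  have h9 : 2400000 ≤ a ^ 9 := by
    calc 2400000 ≤ a ^ 2 := by have := hP.big; nlinarith
      _ ≤ a ^ 9 := Nat.pow_le_pow_right (by have := hP.big; omega) (by norm_num)
  have h2 := used_thr (V := V) hP (NHs d G C z) 2 _ (by norm_num) (by norm_num) rfl (by omega)
  have hkr : (a : ℝ) ^ 9 ≤ ((d - C.card : ℕ) : ℝ) := by exact_mod_cast hk
  have hkd : ((d - C.card : ℕ) : ℝ) ≤ d := by exact_mod_cast Nat.sub_le _ _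
  have hdpos : (0 : ℝ) < d := by rw [hP.dr]; positivity
  have h3 := hP.small_exp (((d - C.card : ℕ) : ℝ) * Real.exp (-8) / (6 * d)) h ?_ ?_
  · have h4 := hP.mul_eps 2 0 (by norm_num) (by rw [zero_add, pow_one]; linarith)
    linarith
  · rw [div_le_one (by positivity)]
    nlinarith
  · have e1 : (a : ℝ) ^ 9 * Real.exp (-8) / (6 * d) * h = Real.exp (-8) / 12 * a := by
      rw [hP.dr, hP.hr]
      field_simp
      norm_num
    rw [← e1]
    have hh0 : (0 : ℝ) ≤ h := by positivity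
    apply mul_le_mul_of_nonneg_right _ hh0
    apply div_le_div_of_nonneg_right _ (by positivity)
    exact mul_le_mul_of_nonneg_right hkr hexp.le

/-- cliques with few outside neighbours -/
theorem small_final [NeZero d] (hP : Par a h t d) {G : SimpleGraph V} {F : Finset (Finset V)}
    (hR : RStr d V G F) {C : Finset V} (hC : C ∈ F) (hk : d - C.card ≤ a ^ 9) :
    pr (fun ω : Om V t d => 8 * (C.filter (fun c => usedB ω t c)).card ≤ C.card ∧
      ¬ ∃ a ∈ C, ∃ b ∈ C, a ≠ b ∧ ¬ usedB ω t a ∧ ¬ usedB ω t b ∧ twoPal G ω a ∧ twoPal G ω b) ≤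
      5 * (1 / (a : ℝ) ^ 240) := by
  have h0 := hP.apos
  have h1 := hP.abig
  have hbig := hP.big
  have hexp := Real.exp_pos (-8)
  have hexp1 : Real.exp (-8) ≤ 1 := Real.exp_le_one_iff.mpr (by norm_num)
  have hdpos : (0 : ℝ) < d := by rw [hP.dr]; positivity
  obtain ⟨y, y', hyy, hunits⟩ := units hR hC
  have hCb := hR.big C hC
  have hmC : a ^ 22 * (2 * (d - C.card + 5)) ≤ C.card := by
    have e1 : a ^ 22 * (2 * (d - C.card + 5)) ≤ a ^ 22 * (2 * (a ^ 9 + 5)) :=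
      Nat.mul_le_mul_left _ (by omega)
    have e2 : 50 * (a ^ 22 * (2 * (a ^ 9 + 5))) ≤ 49 * d := by
      rw [hP.hd]
      have e3 : 50 * (2 * (a ^ 9 + 5)) ≤ 49 * a ^ 10 := by
        have : a ^ 10 = a ^ 9 * a := by ring
        rw [this]
        have h9 : 1 ≤ a ^ 9 := Nat.one_le_pow _ _ (by omega)
        nlinarith
      have e4 := Nat.mul_le_mul_left (a ^ 22) e3
      have e5 : a ^ 22 * (49 * a ^ 10) = 49 * a ^ 32 := by ring
      have e6 : a ^ 22 * (50 * (2 * (a ^ 9 + 5))) = 50 * (a ^ 22 * (2 * (a ^ 9 + 5))) := by ring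
      omega
    omega
  obtain ⟨I, hIC, hIm, hdis⟩ := hunits (a ^ 22) hmC
  have hIr : (I.card : ℝ) = (a : ℝ) ^ 22 := by rw [hIm]; push_cast; rfl
  have hne : ∀ z ∈ I, z ≠ y z ∧ z ≠ y' z ∧ y z ≠ y' z := by
    intro z hz
    have h2 := hyy z (hIC hz)
    have n1 := NHs_mem h2.1
    have n2 := NHs_mem h2.2.1
    refine ⟨?_, ?_, h2.2.2⟩
    · intro h; exact n1.2.1 (h ▸ hIC hz)
    · intro h; exact n2.2.1 (h ▸ hIC hz)
  have hdis2 : ∀ z ∈ I, ∀ w ∈ I, z ≠ w → y z ≠ y w ∧ y' z ≠ y' w := by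
    intro z hz w hw hzw
    have h2 := Finset.disjoint_left.mp (hdis z hz w hw hzw)
    constructor
    · intro h
      exact h2 (a := y z) (by simp) (by rw [h]; simp)
    · intro h
      exact h2 (a := y' z) (by simp) (by rw [h]; simp)
  have hpw : ∀ i j : ℕ, i ≤ j → a ^ i ≤ a ^ j := fun i j hij => Nat.pow_le_pow_right (by omega) hij
  have hpr : ∀ i j : ℕ, i ≤ j → (a : ℝ) ^ i ≤ (a : ℝ) ^ j := fun i j hij =>
    pow_le_pow_right₀ (by linarith) hij
  have hT : a ^ 12 * a ^ 11 + a ^ 2 * a ^ 21 ≤ t := by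
    rw [hP.ht]
    have e1 : a ^ 12 * a ^ 11 = a ^ 23 := by ring
    have e2 : a ^ 2 * a ^ 21 = a ^ 23 := by ring
    have e3 : a ^ 24 = a ^ 23 * a := by ring
    rw [e1, e2, e3]
    nlinarith [Nat.zero_le (a ^ 23)]
  have hse : 300 + 1 ≤ a ^ 2 := by nlinarith
  have hB1d : a ^ 12 ≤ d := by rw [hP.hd]; exact hpw 12 32 (by norm_num)
  have hq01 : (0 : ℝ) ≤ 1 / (a : ℝ) ^ 5 := by positivity
  have hq11 : 1 / (a : ℝ) ^ 5 ≤ 1 := by
    rw [div_le_one (by positivity)]; exact one_le_pow₀ (by linarith)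
  refine (small_bound hP.d_big hR hC I hIC y y' (fun z hz => (hyy z (hIC hz)).1)
    (fun z hz => (hyy z (hIC hz)).2.1) hdis2 (a ^ 12) (a ^ 11) (a ^ 2) (a ^ 21) 300 hT hse hB1d).trans ?_
  -- term 1
  have t1 : pr (fun ω : Om V t d => I.card < 2 * (I.filter (fun z => anyU y y' ω t z)).card) ≤
      1 / (a : ℝ) ^ 240 := by
    have h2 := tail_thr (t := t) (d := d) I (fun z ω => anyU y y' ω t z) (fun z => {z, y z, y' z})
      (3 * ((t : ℝ) / d)) (by positivity) (fun z _ => any_dep y y' z) hdis (fun z _ => any_pr y y' z)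
      I.card 2 60 (by norm_num) (1 / (a : ℝ) ^ 5)
      (by rw [hIm]; exact le_trans (by nlinarith) (hpw 2 22 (by norm_num)))
      (by norm_num) hq01 hq11 ?_
    · refine h2.trans ?_
      rw [div_pow, one_pow, ← pow_mul]
      exact hP.pow_eps _ (by norm_num)
    · rw [hP.tau]
      have e : 3 * (I.card : ℝ) * (3 * (1 / (a : ℝ) ^ 8)) * (2 : ℕ) =
          (1 / (a : ℝ) ^ 5 * I.card) * (18 / (a : ℝ) ^ 3) := by
        push_cast
        field_simp
        ring
      rw [e]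
      apply mul_le_of_le_one_right (by positivity)
      rw [div_le_one (by positivity)]
      calc (18 : ℝ) ≤ (a : ℝ) ^ 1 := by rw [pow_one]; linarith
        _ ≤ (a : ℝ) ^ 3 := hpr 1 3 (by norm_num)
  have t2 : pr (fun ω : Om V t d => a ^ 12 < 2 * (I.filter (fun z => twoU y y' ω t z)).card) ≤
      1 / (a : ℝ) ^ 240 := by
    have h2 := tail_thr (t := t) (d := d) I (fun z ω => twoU y y' ω t z) (fun z => {z, y z, y' z})
      (3 * ((t : ℝ) / d) ^ 2) (by positivity) (fun z _ => two_dep y y' z) hdis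
      (fun z hz => two_pr y y' z (hne z hz).1 (hne z hz).2.1 (hne z hz).2.2)
      (a ^ 12) 2 60 (by norm_num) (1 / (a : ℝ) ^ 5)
      (le_trans (by nlinarith) (hpw 2 12 (by norm_num)))
      (by norm_num) hq01 hq11 ?_
    · refine h2.trans ?_
      rw [div_pow, one_pow, ← pow_mul]
      exact hP.pow_eps _ (by norm_num)
    · rw [hP.tau, hIr]
      have e : 3 * (a : ℝ) ^ 22 * (3 * (1 / (a : ℝ) ^ 8) ^ 2) * (2 : ℕ) = 18 * (a : ℝ) ^ 6 := by
        push_cast
        field_simp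
        norm_num
      have e2 : 1 / (a : ℝ) ^ 5 * ((a ^ 12 : ℕ) : ℝ) = a * (a : ℝ) ^ 6 := by
        push_cast
        field_simp
      rw [e, e2]
      apply mul_le_mul_of_nonneg_right (by linarith) (by positivity)
  have t3 : pr (fun ω : Om V t d => 300 ≤ (I.filter (fun z => allU y y' ω t z)).card) ≤
      1 / (a : ℝ) ^ 240 := by
    have h2 := tail_thr (t := t) (d := d) I (fun z ω => allU y y' ω t z) (fun z => {z, y z, y' z})
      (((t : ℝ) / d) ^ 3) (by positivity) (fun z _ => all_dep y y' z) hdis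
      (fun z hz => all_pr y y' z (hne z hz).1 (hne z hz).2.1 (hne z hz).2.2)
      299 1 299 (by norm_num) (1 / (a : ℝ))
      (by norm_num)
      (by norm_num) (by positivity) (by rw [div_le_one (by positivity)]; linarith) ?_
    · refine le_trans (pr_mono ?_) (h2.trans ?_)
      · intro ω hω
        rw [one_mul]
        exact hω
      · rw [div_pow, one_pow]
        exact hP.pow_eps _ (by norm_num)
    · rw [hP.tau, hIr]
      have e : 3 * (a : ℝ) ^ 22 * (1 / (a : ℝ) ^ 8) ^ 3 * (1 : ℕ) = 3 / (a : ℝ) ^ 2 := by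
        push_cast
        field_simp
      rw [e, one_div_mul_eq_div, div_le_div_iff₀ (by positivity) (by positivity)]
      push_cast
      nlinarith
  have t4 : ((a ^ 12 : ℕ) : ℝ) * (1 - (I.card : ℝ) * Real.exp (-8) / (6 * d)) ^ (a ^ 11) ≤
      1 / (a : ℝ) ^ 240 := by
    have h2 := hP.small_exp ((I.card : ℝ) * Real.exp (-8) / (6 * d)) (a ^ 11) ?_ ?_
    · refine (mul_le_mul_of_nonneg_left h2 (by positivity)).trans ?_
      exact hP.mul_eps _ 11 (by norm_num) (by push_cast; exact le_rfl)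
    · rw [div_le_one (by positivity), hIr, hP.dr]
      have := hpr 22 32 (by norm_num)
      have h22 : (0 : ℝ) ≤ (a : ℝ) ^ 22 := by positivity
      nlinarith
    · rw [hIr, hP.dr]
      push_cast
      have e : (a : ℝ) ^ 22 * Real.exp (-8) / (6 * (a : ℝ) ^ 32) * (a : ℝ) ^ 11 =
          Real.exp (-8) / 6 * a := by
        field_simp
      rw [e]
      have : 0 < Real.exp (-8) * a := by positivity
      linarith
  have t5 : ((a ^ 2 : ℕ) : ℝ) * (1 - ((a ^ 12 : ℕ) : ℝ) * Real.exp (-8) / (6 * d)) ^ (a ^ 21) ≤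
      1 / (a : ℝ) ^ 240 := by
    have h2 := hP.small_exp (((a ^ 12 : ℕ) : ℝ) * Real.exp (-8) / (6 * d)) (a ^ 21) ?_ ?_
    · refine (mul_le_mul_of_nonneg_left h2 (by positivity)).trans ?_
      exact hP.mul_eps _ 1 (by norm_num) (by push_cast; exact le_rfl)
    · rw [div_le_one (by positivity), hP.dr]
      push_cast
      have := hpr 12 32 (by norm_num)
      have h22 : (0 : ℝ) ≤ (a : ℝ) ^ 12 := by positivity
      nlinarith
    · rw [hP.dr]
      push_cast
      have e : (a : ℝ) ^ 12 * Real.exp (-8) / (6 * (a : ℝ) ^ 32) * (a : ℝ) ^ 21 =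
          Real.exp (-8) / 6 * a := by
        field_simp
      rw [e]
      have : 0 < Real.exp (-8) * a := by positivity
      linarith
  linarith

end Pool.Agent.Helper244.RB
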