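import Pool.Agent.Helper244.RB.LLL

set_option autoImplicit false
open Classical

namespace Pool.Agent.Helper244.RB

variable {T C ι : Type} [Fintype T] [Fintype C]

/-- uniform probability -/
noncomputable def pr (P : (T → C) → Prop) : ℝ := (cnt P : ℝ) / (Fintype.card (T → C) : ℝ)

lemma pr_nonneg (P : (T → C) → Prop) : 0 ≤ pr P := by unfold pr; positivity

lemma cnt_le_card (P : (T → C) → Prop) : cnt P ≤ Fintype.card (T → C) := by
  unfold cnt ev
  exact Finset.card_le_univ _

lemma pr_le_one (P : (T → C) → Prop) : pr P ≤ 1 := by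
  unfold pr
  apply div_le_one_of_le₀
  · exact_mod_cast cnt_le_card P
  · positivity

lemma pr_mono {P Q : (T → C) → Prop} (h : ∀ ω, P ω → Q ω) : pr P ≤ pr Q := by
  unfold pr
  apply div_le_div_of_nonneg_right _ (by positivity)
  exact_mod_cast cnt_mono h

lemma cnt_eq_mul [Nonempty C] (P : (T → C) → Prop) :
    (cnt P : ℝ) = pr P * (Fintype.card (T → C) : ℝ) := by
  unfold pr
  have : (0 : ℝ) < (Fintype.card (T → C) : ℝ) := by exact_mod_cast Fintype.card_pos
  field_simp

lemma pr_exists_le (I : Finset ι) (P : ι → (T → C) → Prop) :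
    pr (fun ω => ∃ i ∈ I, P i ω) ≤ ∑ i ∈ I, pr (P i) := by
  unfold pr
  rw [← Finset.sum_div]
  apply div_le_div_of_nonneg_right _ (by positivity)
  have h : ev (fun ω : T → C => ∃ i ∈ I, P i ω) ⊆ I.biUnion (fun i => ev (P i)) := by
    intro ω hω
    rw [mem_ev] at hω
    obtain ⟨i, hi, hP⟩ := hω
    rw [Finset.mem_biUnion]
    exact ⟨i, hi, mem_ev.mpr hP⟩
  have h2 := (Finset.card_le_card h).trans Finset.card_biUnion_le
  have h3 : cnt (fun ω : T → C => ∃ i ∈ I, P i ω) ≤ ∑ i ∈ I, cnt (P i) := h2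
  exact_mod_cast h3

lemma pr_or_le (P Q : (T → C) → Prop) : pr (fun ω => P ω ∨ Q ω) ≤ pr P + pr Q := by
  have h := pr_exists_le (Finset.univ : Finset Bool) (fun b => if b then P else Q)
  rw [Fintype.sum_bool] at h
  simp only [if_true, Bool.false_eq_true, if_false] at h
  refine le_trans (pr_mono ?_) h
  rintro ω (h | h)
  · exact ⟨true, Finset.mem_univ _, h⟩
  · exact ⟨false, Finset.mem_univ _, h⟩

lemma pr_indep [Nonempty C] (P Q : (T → C) → Prop) (S : Finset T) (hP : DependsOn P S)
    (hQ : ∀ ω ω' : T → C, (∀ t, t ∉ S → ω t = ω' t) → (Q ω → Q ω')) :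
    pr (fun ω => P ω ∧ Q ω) = pr P * pr Q := by
  have h := indep P Q S hP hQ
  have hpos : (0 : ℝ) < (Fintype.card (T → C) : ℝ) := by exact_mod_cast Fintype.card_pos
  have h2 : (cnt (fun ω => P ω ∧ Q ω) : ℝ) * (Fintype.card (T → C) : ℝ) = (cnt P : ℝ) * (cnt Q : ℝ) := by
    exact_mod_cast h
  unfold pr
  rw [div_mul_div_comm, ← h2]
  field_simp

lemma pr_all [Nonempty C] (P : ι → (T → C) → Prop) (S : ι → Finset T) (p : ℝ) (hp0 : 0 ≤ p)
    (J : Finset ι) (hd : ∀ i ∈ J, DependsOn (P i) (S i))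
    (hdis : ∀ i ∈ J, ∀ j ∈ J, i ≠ j → Disjoint (S i) (S j))
    (hp : ∀ i ∈ J, pr (P i) ≤ p) : pr (fun ω => ∀ i ∈ J, P i ω) ≤ p ^ J.card := by
  induction J using Finset.induction_on with
  | empty => simpa using pr_le_one _
  | insert a J ha ih =>
    have e1 : pr (fun ω => ∀ i ∈ insert a J, P i ω) = pr (fun ω => P a ω ∧ ∀ i ∈ J, P i ω) := by
      congr 1
      funext ω
      simp
    rw [e1, pr_indep (P a) (fun ω => ∀ i ∈ J, P i ω) (S a) (hd a (Finset.mem_insert_self _ _)) ?_,
      Finset.card_insert_of_notMem ha, pow_succ']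
    · exact mul_le_mul (hp a (Finset.mem_insert_self _ _))
        (ih (fun i hi => hd i (Finset.mem_insert_of_mem hi))
          (fun i hi j hj => hdis i (Finset.mem_insert_of_mem hi) j (Finset.mem_insert_of_mem hj))
          (fun i hi => hp i (Finset.mem_insert_of_mem hi))) (pr_nonneg _) hp0
    · intro ω ω' hω hall i hi
      refine hd i (Finset.mem_insert_of_mem hi) ω ω' ?_ (hall i hi)
      intro t ht
      apply hω
      have := hdis a (Finset.mem_insert_self _ _) i (Finset.mem_insert_of_mem hi)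
        (by rintro rfl; exact ha hi)
      exact fun hta => Finset.disjoint_left.mp this hta ht

lemma factorial_lower (s : ℕ) : ((s : ℝ) / 3) ^ s ≤ (s.factorial : ℝ) := by
  have h := Real.pow_div_factorial_le_exp (s : ℝ) (by positivity) s
  have h1 : Real.exp (s : ℝ) ≤ 3 ^ s := by
    have : Real.exp (s : ℝ) = (Real.exp 1) ^ s := by rw [← Real.exp_nat_mul]; simp
    rw [this]
    apply pow_le_pow_left₀ (Real.exp_pos _).le
    have := Real.exp_one_lt_d9
    linarith
  have h2 : (s : ℝ) ^ s / (s.factorial : ℝ) ≤ 3 ^ s := h.trans h1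
  have hf : (0 : ℝ) < (s.factorial : ℝ) := by exact_mod_cast s.factorial_pos
  rw [div_le_iff₀ hf] at h2
  rw [div_pow, div_le_iff₀ (by positivity)]
  linarith

/-- tail bound for many independent rare items -/
lemma tail (I : Finset ι) (P : ι → (T → C) → Prop) (p : ℝ) (hp0 : 0 ≤ p) (s : ℕ) (hs : 0 < s)
    (h : ∀ J ⊆ I, pr (fun ω => ∀ i ∈ J, P i ω) ≤ p ^ J.card) :
    pr (fun ω => s ≤ (I.filter (fun i => P i ω)).card) ≤ (3 * (I.card : ℝ) * p / s) ^ s := by
  have h1 : pr (fun ω => s ≤ (I.filter (fun i => P i ω)).card) ≤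
      pr (fun ω => ∃ J ∈ I.powersetCard s, ∀ i ∈ J, P i ω) := by
    apply pr_mono
    intro ω hω
    obtain ⟨J, hJ, hJc⟩ := Finset.exists_subset_card_eq hω
    refine ⟨J, ?_, ?_⟩
    · rw [Finset.mem_powersetCard]
      exact ⟨hJ.trans (Finset.filter_subset _ _), hJc⟩
    · intro i hi
      exact (Finset.mem_filter.mp (hJ hi)).2
  refine h1.trans ((pr_exists_le _ _).trans ?_)
  have h2 : ∑ J ∈ I.powersetCard s, pr (fun ω : T → C => ∀ i ∈ J, P i ω) ≤
      ∑ _J ∈ I.powersetCard s, p ^ s := by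
    apply Finset.sum_le_sum
    intro J hJ
    rw [Finset.mem_powersetCard] at hJ
    have := h J hJ.1
    rwa [hJ.2] at this
  refine h2.trans ?_
  rw [Finset.sum_const, Finset.card_powersetCard, nsmul_eq_mul]
  have h3 : ((I.card.choose s : ℕ) : ℝ) ≤ (I.card : ℝ) ^ s / (s.factorial : ℝ) := Nat.choose_le_pow_div s I.card
  have hf : (0 : ℝ) < (s.factorial : ℝ) := by exact_mod_cast s.factorial_pos
  have hsr : (0 : ℝ) < (s : ℝ) := by exact_mod_cast hs
  have h4 := factorial_lower s
  calc ((I.card.choose s : ℕ) : ℝ) * p ^ s ≤ (I.card : ℝ) ^ s / (s.factorial : ℝ) * p ^ s :=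
        mul_le_mul_of_nonneg_right h3 (by positivity)
    _ ≤ (I.card : ℝ) ^ s / (((s : ℝ) / 3) ^ s) * p ^ s := by
        apply mul_le_mul_of_nonneg_right _ (by positivity)
        apply div_le_div_of_nonneg_left (by positivity) (by positivity) h4
    _ = (3 * (I.card : ℝ) * p / s) ^ s := by
        rw [div_pow, div_pow, mul_pow, mul_pow]
        field_simp

/-- lower bound for a union with bounded multiplicity -/
lemma pr_union_lower (I : Finset ι) (W : ι → (T → C) → Prop) (M : ℕ) (G : (T → C) → Prop)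
    (hW : ∀ i ∈ I, ∀ ω, W i ω → G ω) (hM : ∀ ω, ∀ S ⊆ I, (∀ i ∈ S, W i ω) → S.card ≤ M) :
    ∑ i ∈ I, pr (W i) ≤ M * pr G := by
  unfold pr
  rw [← Finset.sum_div, mul_div_assoc']
  apply div_le_div_of_nonneg_right _ (by positivity)
  have h1 : ∑ i ∈ I, cnt (W i) ≤ M * cnt G := by
    have e1 : ∀ i ∈ I, cnt (W i) = ∑ ω ∈ ev G, if W i ω then 1 else 0 := by
      intro i hi
      rw [← Finset.sum_filter, Finset.sum_const, smul_eq_mul, mul_one]
      unfold cnt
      congr 1
      ext ω
      rw [mem_ev, Finset.mem_filter, mem_ev]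
      exact ⟨fun h => ⟨hW i hi ω h, h⟩, fun h => h.2⟩
    rw [Finset.sum_congr rfl e1, Finset.sum_comm]
    calc ∑ ω ∈ ev G, ∑ i ∈ I, (if W i ω then 1 else 0) ≤ ∑ _ω ∈ ev G, M := by
          apply Finset.sum_le_sum
          intro ω _
          rw [← Finset.card_filter]
          exact hM ω _ (Finset.filter_subset _ _) (fun i hi => (Finset.mem_filter.mp hi).2)
      _ = M * cnt G := by
          rw [Finset.sum_const, smul_eq_mul, mul_comm]; rfl
  exact_mod_cast h1

/-- probability of a product condition -/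
lemma pr_pi [Nonempty C] (A : T → Finset C) :
    pr (fun ω : T → C => ∀ v, ω v ∈ A v) = ∏ v, ((A v).card : ℝ) / (Fintype.card C : ℝ) := by
  have h : ev (fun ω : T → C => ∀ v, ω v ∈ A v) = Fintype.piFinset A := by
    ext ω
    rw [mem_ev, Fintype.mem_piFinset]
  unfold pr cnt
  rw [h, Fintype.card_piFinset, Fintype.card_fun, Finset.prod_div_distrib, Finset.prod_const,
    Finset.card_univ]
  push_cast
  rfl

lemma pr_coord [Nonempty C] (v : T) (Q : C → Prop) [DecidablePred Q] :
    pr (fun ω : T → C => Q (ω v)) = ((Finset.univ.filter Q).card : ℝ) / (Fintype.card C : ℝ) := by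
  have h : (fun ω : T → C => Q (ω v)) =
      (fun ω : T → C => ∀ u, ω u ∈ (if u = v then Finset.univ.filter Q else Finset.univ : Finset C)) := by
    funext ω
    apply propext
    constructor
    · intro h u
      by_cases hu : u = v
      · subst hu; simp [h]
      · simp [hu]
    · intro h
      have := h v
      simpa using this
  rw [h, pr_pi]
  rw [Finset.prod_eq_single v]
  · simp
  · intro u _ hu
    have : (Fintype.card C : ℝ) ≠ 0 := by
      have : 0 < Fintype.card C := Fintype.card_pos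
      positivity
    simp only [if_neg hu, Finset.card_univ]
    field_simp
  · intro h; exact absurd (Finset.mem_univ _) h

end Pool.Agent.Helper244.RB
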