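import Pool.Agent.Helper244.RB.Str3

set_option autoImplicit false
open Classical

namespace Pool.Agent.Helper244.RB

/-- number of neighbours in a set -/
noncomputable def degIn {V : Type} (G : SimpleGraph V) (C : Finset V) (v : V) : ℕ :=
  (C.filter (fun w => G.Adj v w)).card

lemma degIn_eq {V : Type} [Fintype V] (G : SimpleGraph V) (C : Finset V) (v : V) :
    degIn G C v = (nb G v ∩ C).card := by
  rw [degIn]
  congr 1
  ext w
  rw [Finset.mem_filter, Finset.mem_inter, mem_nb]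
  tauto

/-- the structure used in the random part -/
structure RStr (d : ℕ) (V : Type) [Fintype V] (G : SimpleGraph V) (F : Finset (Finset V)) : Prop where
  reg : ∀ v, (nb G v).card = d
  clq : ∀ C ∈ F, Clq G C
  big : ∀ C ∈ F, 49 * d ≤ 50 * C.card
  small : ∀ C ∈ F, C.card + 2 ≤ d
  huge : ∀ C ∈ F, ∀ z ∈ C, ∀ x1 x2, x1 ∉ C → x2 ∉ C → x1 ≠ x2 → G.Adj z x1 → G.Adj z x2 →
    d - C.card + 6 ≤ degIn G C x1 → d - C.card + 6 ≤ degIn G C x2 → False
  disj : ∀ C ∈ F, ∀ C' ∈ F, C ≠ C' → Disjoint C C'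
  cov : ∀ v, (∃ C ∈ F, v ∈ C) ∨ d * d ≤ 10000 * npairs G v ∨
    ∃ C ∈ F, 9 * d ≤ 10 * degIn G C v

variable {V : Type} [Fintype V]

/-- two copies joined at the vertices of degree `d - 1` -/
def dbl (d : ℕ) (H : SimpleGraph V) : SimpleGraph (V × Bool) where
  Adj p q := (p.2 = q.2 ∧ H.Adj p.1 q.1) ∨ (p.2 ≠ q.2 ∧ p.1 = q.1 ∧ (nb H p.1).card + 1 = d)
  symm := ⟨by
    rintro p q (⟨h1, h2⟩ | ⟨h1, h2, h3⟩)
    · exact Or.inl ⟨h1.symm, h2.symm⟩
    · exact Or.inr ⟨h1.symm, h2.symm, h2 ▸ h3⟩⟩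
  loopless := ⟨by
    rintro p (⟨_, h2⟩ | ⟨h1, _⟩)
    · exact H.loopless.irrefl _ h2
    · exact h1 rfl⟩

/-- embedding of a copy -/
def cp (b : Bool) : V ↪ V × Bool := ⟨fun v => (v, b), fun _ _ h => (Prod.ext_iff.mp h).1⟩

omit [Fintype V] in
lemma mem_cp {C : Finset V} {b : Bool} {p : V × Bool} : p ∈ C.map (cp b) ↔ p.1 ∈ C ∧ p.2 = b := by
  rw [Finset.mem_map]
  constructor
  · rintro ⟨v, hv, rfl⟩; exact ⟨hv, rfl⟩
  · rintro ⟨h1, h2⟩
    refine ⟨p.1, h1, ?_⟩
    subst h2; rfl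

lemma degIn_same (d : ℕ) (H : SimpleGraph V) (C : Finset V) (v : V) (b : Bool) :
    degIn (dbl d H) (C.map (cp b)) (v, b) = degIn H C v := by
  rw [degIn, degIn, Finset.filter_map, Finset.card_map]
  congr 1
  apply Finset.filter_congr
  intro w _
  change ((b = b ∧ H.Adj v w) ∨ (b ≠ b ∧ v = w ∧ (nb H v).card + 1 = d)) ↔ H.Adj v w
  simp

lemma degIn_diff (d : ℕ) (H : SimpleGraph V) (C : Finset V) (v : V) (b b' : Bool) (hb : b ≠ b') :
    degIn (dbl d H) (C.map (cp b')) (v, b) ≤ 1 := by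
  rw [degIn, Finset.card_le_one]
  intro p hp q hq
  rw [Finset.mem_filter, mem_cp] at hp hq
  have h1 : v = p.1 := by
    rcases hp.2 with h | h
    · exact absurd (h.1.trans hp.1.2) hb
    · exact h.2.1
  have h2 : v = q.1 := by
    rcases hq.2 with h | h
    · exact absurd (h.1.trans hq.1.2) hb
    · exact h.2.1
  exact Prod.ext (h1.symm.trans h2) (hp.1.2.trans hq.1.2.symm)

lemma dbl_reg {d : ℕ} {H : SimpleGraph V} (hc : Crit d V H) (p : V × Bool) :
    (nb (dbl d H) p).card = d := by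
  obtain ⟨v, b⟩ := p
  have h1 := hc.deg v
  have h2 := hc.mindeg v
  by_cases hd : (nb H v).card + 1 = d
  · have : nb (dbl d H) (v, b) = insert (v, !b) ((nb H v).map (cp b)) := by
      ext q
      rw [mem_nb, Finset.mem_insert, mem_cp, mem_nb]
      constructor
      · rintro (h | h)
        · right; exact ⟨h.2, h.1.symm⟩
        · left
          refine Prod.ext h.2.1.symm ?_
          have := h.1
          simp only [ne_eq] at this
          cases b <;> cases hq : q.2 <;> simp_all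
      · rintro (h | h)
        · right
          subst h
          refine ⟨by simp, rfl, hd⟩
        · left; exact ⟨h.2.symm, h.1⟩
    rw [this, Finset.card_insert_of_notMem, Finset.card_map, hd]
    rw [mem_cp]
    simp
  · have : nb (dbl d H) (v, b) = (nb H v).map (cp b) := by
      ext q
      rw [mem_nb, mem_cp, mem_nb]
      constructor
      · rintro (h | h)
        · exact ⟨h.2, h.1.symm⟩
        · exact absurd h.2.2 hd
      · rintro h
        left; exact ⟨h.2.symm, h.1⟩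
    rw [this, Finset.card_map]
    omega

theorem doubling {d : ℕ} {H : SimpleGraph V} (hc : Crit d V H) (hd : 1000 ≤ d) :
    ∃ F : Finset (Finset (V × Bool)), RStr d (V × Bool) (dbl d H) F := by
  obtain ⟨F, hF, hmax⟩ := exists_family d H
  refine ⟨(F ×ˢ (Finset.univ : Finset Bool)).image (fun q => q.1.map (cp q.2)), ?_⟩
  have memF : ∀ D, D ∈ (F ×ˢ (Finset.univ : Finset Bool)).image (fun q => q.1.map (cp q.2)) ↔
      ∃ C ∈ F, ∃ b, D = C.map (cp b) := by
    intro D
    rw [Finset.mem_image]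
    constructor
    · rintro ⟨q, hq, rfl⟩
      exact ⟨q.1, (Finset.mem_product.mp hq).1, q.2, rfl⟩
    · rintro ⟨C, hC, b, rfl⟩
      exact ⟨(C, b), Finset.mem_product.mpr ⟨hC, Finset.mem_univ _⟩, rfl⟩
  refine ⟨dbl_reg hc, ?_, ?_, ?_, ?_, ?_, ?_⟩
  · intro D hD
    obtain ⟨C, hC, b, rfl⟩ := (memF D).mp hD
    intro p hp q hq hpq
    rw [mem_cp] at hp hq
    left
    refine ⟨hp.2.trans hq.2.symm, (hF.1 C hC).1 p.1 hp.1 q.1 hq.1 ?_⟩
    intro h
    exact hpq (Prod.ext h (hp.2.trans hq.2.symm))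
  · intro D hD
    obtain ⟨C, hC, b, rfl⟩ := (memF D).mp hD
    rw [Finset.card_map]; exact (hF.1 C hC).2
  · intro D hD
    obtain ⟨C, hC, b, rfl⟩ := (memF D).mp hD
    rw [Finset.card_map]; exact hc.free C (hF.1 C hC).1
  · intro D hD
    obtain ⟨C, hC, b, rfl⟩ := (memF D).mp hD
    rintro ⟨z, bz⟩ hz ⟨x1, b1⟩ ⟨x2, b2⟩ hx1 hx2 hne hz1 hz2 hh1 hh2
    rw [mem_cp] at hz
    rw [Finset.card_map] at hh1 hh2
    obtain ⟨hz, rfl⟩ := hz
    have e1 : b1 = bz := by
      by_contra hb
      have := hh1.trans (degIn_diff d H C x1 b1 bz hb)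
      omega
    have e2 : b2 = bz := by
      by_contra hb
      have := hh2.trans (degIn_diff d H C x2 b2 bz hb)
      omega
    subst e1 e2
    change d - C.card + 6 ≤ degIn (dbl d H) (Finset.map (cp b2) C) (x1, b2) at hh1
    change d - C.card + 6 ≤ degIn (dbl d H) (Finset.map (cp b2) C) (x2, b2) at hh2
    rw [degIn_same, degIn_eq] at hh1 hh2
    have a1 : H.Adj z x1 := by
      rcases hz1 with h | h
      · exact h.2
      · exact absurd rfl h.1
    have a2 : H.Adj z x2 := by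
      rcases hz2 with h | h
      · exact h.2
      · exact absurd rfl h.1
    refine one_huge hc hd hF hmax hC hz ?_ ?_ ?_ a1 a2 hh1 hh2
    · intro h; exact hx1 (mem_cp.mpr ⟨h, rfl⟩)
    · intro h; exact hx2 (mem_cp.mpr ⟨h, rfl⟩)
    · rintro rfl; exact hne rfl
  · intro D hD D' hD' hne
    obtain ⟨C, hC, b, rfl⟩ := (memF D).mp hD
    obtain ⟨C', hC', b', rfl⟩ := (memF D').mp hD'
    rw [Finset.disjoint_left]
    intro p hp hp'
    rw [mem_cp] at hp hp'
    have hbb : b = b' := hp.2.symm.trans hp'.2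
    subst hbb
    have hCC : C ≠ C' := by rintro rfl; exact hne rfl
    exact Finset.disjoint_left.mp (hF.2 C hC C' hC' hCC) hp.1 hp'.1
  · rintro ⟨v, b⟩
    by_cases h1 : ∃ C ∈ F, v ∈ C
    · left
      obtain ⟨C, hC, hv⟩ := h1
      exact ⟨C.map (cp b), (memF _).mpr ⟨C, hC, b, rfl⟩, mem_cp.mpr ⟨hv, rfl⟩⟩
    · right
      by_cases h2 : d * d ≤ 10000 * npairs H v
      · left
        refine h2.trans (Nat.mul_le_mul_left _ ?_)
        unfold npairs
        refine Finset.card_le_card_of_injOn (fun q => ((q.1, b), (q.2, b))) ?_ ?_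
        · intro q hq
          simp only [Finset.coe_filter, Finset.mem_product, mem_nb, Set.mem_ofPred_eq] at hq ⊢
          refine ⟨⟨Or.inl ⟨rfl, hq.1.1⟩, Or.inl ⟨rfl, hq.1.2⟩⟩, ?_, ?_⟩
          · intro h; exact hq.2.1 (Prod.ext_iff.mp h).1
          · rintro (h | h)
            · exact hq.2.2 h.2
            · exact h.1 rfl
        · intro q _ q' _ h
          simp only [Prod.mk.injEq, and_true] at h
          exact Prod.ext h.1 h.2
      · right
        push Not at h2
        obtain ⟨K, hK, hvK, hKb⟩ := dense_clique hc hd v h2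
        obtain ⟨C, hC, hCd⟩ := fam_hit (by omega) hF hmax K hK hKb
        refine ⟨C.map (cp b), (memF _).mpr ⟨C, hC, b, rfl⟩, ?_⟩
        rw [degIn_same, degIn_eq]
        rw [Finset.not_disjoint_iff] at hCd
        obtain ⟨u, huK, huC⟩ := hCd
        have e1 := card_union_le_of_common hc hK (hF.1 C hC).1 u huK huC
        have e2 := Finset.card_union_add_card_inter K C
        have e3 : K ∩ C ⊆ nb H v ∩ C := by
          intro w hw
          rw [Finset.mem_inter] at hw
          rw [Finset.mem_inter, mem_nb]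
          refine ⟨hK v hvK w hw.1 ?_, hw.2⟩
          rintro rfl
          exact h1 ⟨C, hC, hw.2⟩
        have e4 := Finset.card_le_card e3
        have e5 := (hF.1 C hC).2
        omega

theorem dbl_color {d n : ℕ} {H : SimpleGraph V} (h : (dbl d H).Colorable n) : H.Colorable n := by
  obtain ⟨c⟩ := h
  exact ⟨SimpleGraph.Coloring.mk (fun v => c (v, false))
    (fun {v w} hvw => c.valid (Or.inl ⟨rfl, hvw⟩))⟩

end Pool.Agent.Helper244.RB
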