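import Pool.Agent.Helper244.RB.Chain
import Pool.Agent.Helper244.RB.Str4

set_option autoImplicit false
open Classical

namespace Pool.Agent.Helper244.RB

variable {V : Type} [Fintype V] {t d : ℕ}

/-- the vertex keeps the colour of round `j` -/
def ret (G : SimpleGraph V) (ω : Om V t d) (j : ℕ) (v : V) : Prop :=
  mem ω j v ∧ ¬ usedB ω j v ∧ ∀ w, G.Adj v w → ¬ mem ω j w

/-- colour `j` is repeated at `v` -/
def pal (G : SimpleGraph V) (ω : Om V t d) (j : ℕ) (v : V) : Prop :=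
  ∃ a b, a ≠ b ∧ G.Adj v a ∧ G.Adj v b ∧ ret G ω j a ∧ ret G ω j b

/-- two repeated colours -/
def twoPal (G : SimpleGraph V) (ω : Om V t d) (v : V) : Prop :=
  ∃ j j', j ≠ j' ∧ pal G ω j v ∧ pal G ω j' v

/-- isolated zero of a round -/
def isol [NeZero d] (G : SimpleGraph V) (x : V → Fin d) (a : V) : Prop :=
  x a = 0 ∧ ∀ w, G.Adj a w → x w ≠ 0

omit [Fintype V] in
lemma ret_of_isol [NeZero d] {G : SimpleGraph V} {ω : Om V t d} {n : ℕ} (hn : n < t) {a : V}
    (h : isol G (layer ω n) a) (hf : ¬ usedB ω n a) : ret G ω n a := by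
  refine ⟨(mem_iff_layer ω n hn a).mpr h.1, hf, ?_⟩
  intro w hw hm
  exact h.2 w hw ((mem_iff_layer ω n hn w).mp hm)

omit [Fintype V] in
lemma ret_unique {G : SimpleGraph V} {ω : Om V t d} {i j : ℕ} {a : V} (hi : ret G ω i a)
    (hj : ret G ω j a) : i = j := by
  by_contra hne
  rcases Nat.lt_or_gt_of_ne hne with h | h
  · exact hj.2.1 ⟨i, h, hi.1⟩
  · exact hi.2.1 ⟨j, h, hj.1⟩

omit [Fintype V] in
lemma ret_congr {G : SimpleGraph V} {n : ℕ} {ω ω' : Om V t d} (h : agree n ω ω') (j : ℕ) (hj : j < n)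
    (v : V) : ret G ω j v ↔ ret G ω' j v := by
  unfold ret
  rw [mem_congr h j hj v, usedB_congr h j (by omega) v]
  constructor
  · rintro ⟨h1, h2, h3⟩
    exact ⟨h1, h2, fun w hw hm => h3 w hw ((mem_congr h j hj w).mpr hm)⟩
  · rintro ⟨h1, h2, h3⟩
    exact ⟨h1, h2, fun w hw hm => h3 w hw ((mem_congr h j hj w).mp hm)⟩

omit [Fintype V] in
lemma ret_lt {G : SimpleGraph V} {ω : Om V t d} {j : ℕ} {a : V} (h : ret G ω j a) : j < t := by
  obtain ⟨hj, _⟩ := h.1
  exact hj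

/-- two isolated zeros, nonadjacent, in the neighbourhood -/
def pairGood [NeZero d] (G : SimpleGraph V) (v : V) (n : ℕ) (ω : Om V t d) (x : V → Fin d) : Prop :=
  ∃ a b, a ≠ b ∧ G.Adj v a ∧ G.Adj v b ∧ ¬ usedB ω n a ∧ ¬ usedB ω n b ∧ isol G x a ∧ isol G x b

lemma W_isol [NeZero d] {G : SimpleGraph V} {a b : V} {F : Finset V} {x : V → Fin d}
    (hnab : ¬ G.Adj a b) (hF : ∀ w, w ∈ nb G a → w ≠ a → w ≠ b → w ∈ F)
    (hx : (x a = 0 ∧ x b = 0) ∧ ∀ v ∈ F, x v ≠ 0) : isol G x a := by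
  refine ⟨hx.1.1, fun w hw => hx.2 w (hF w (mem_nb.mpr hw) ?_ ?_)⟩
  · rintro rfl; exact G.loopless.irrefl _ hw
  · rintro rfl; exact hnab hw

theorem pair_count [NeZero d] (hd : 2 ≤ d) (G : SimpleGraph V) (hdeg : ∀ v, (nb G v).card ≤ d)
    (v : V) (n : ℕ) (ω : Om V t d) :
    ((((nb G v ×ˢ nb G v).filter (fun p => (p.1 ≠ p.2 ∧ ¬ G.Adj p.1 p.2) ∧
      ¬ usedB ω n p.1 ∧ ¬ usedB ω n p.2)).card : ℝ)) * (Real.exp (-8) / (d : ℝ) ^ 2) ≤
      2 * pr (pairGood G v n ω) := by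
  set P := (nb G v ×ˢ nb G v).filter (fun p => (p.1 ≠ p.2 ∧ ¬ G.Adj p.1 p.2) ∧
      ¬ usedB ω n p.1 ∧ ¬ usedB ω n p.2) with hP
  let Fs : V × V → Finset V := fun p => ((nb G v ∪ nb G p.1) ∪ nb G p.2) \ {p.1, p.2}
  let W : V × V → (V → Fin d) → Prop := fun p x => (x p.1 = 0 ∧ x p.2 = 0) ∧ ∀ w ∈ Fs p, x w ≠ 0
  have memP : ∀ p ∈ P, (G.Adj v p.1 ∧ G.Adj v p.2) ∧ (p.1 ≠ p.2 ∧ ¬ G.Adj p.1 p.2) ∧
      ¬ usedB ω n p.1 ∧ ¬ usedB ω n p.2 := by
    intro p hp
    rw [hP, Finset.mem_filter, Finset.mem_product, mem_nb, mem_nb] at hp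
    exact hp
  have h1 : ∑ p ∈ P, pr (W p) ≤ 2 * pr (pairGood G v n ω) := by
    refine pr_union_lower P W 2 (pairGood G v n ω) ?_ ?_
    · intro p hp x hx
      obtain ⟨⟨a1, a2⟩, ⟨a3, a4⟩, a5, a6⟩ := memP p hp
      refine ⟨p.1, p.2, a3, a1, a2, a5, a6, ?_, ?_⟩
      · refine W_isol (b := p.2) (F := Fs p) a4 ?_ hx
        intro w hw h1 h2
        simp only [Fs, Finset.mem_sdiff, Finset.mem_union, Finset.mem_insert, Finset.mem_singleton]
        tauto
      · refine W_isol (b := p.1) (F := Fs p) (fun h => a4 h.symm) ?_ ⟨⟨hx.1.2, hx.1.1⟩, hx.2⟩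
        intro w hw h1 h2
        simp only [Fs, Finset.mem_sdiff, Finset.mem_union, Finset.mem_insert, Finset.mem_singleton]
        tauto
    · intro x S hSP hSW
      by_cases hne : S.Nonempty
      · obtain ⟨p0, hp0⟩ := hne
        have hp0 : p0 ∈ P ∧ W p0 x := ⟨hSP hp0, hSW p0 hp0⟩
        have hsub : S ⊆ {p0, (p0.2, p0.1)} := by
          intro q hq
          have hq : q ∈ P ∧ W q x := ⟨hSP hq, hSW q hq⟩
          obtain ⟨⟨b1, b2⟩, ⟨b3, -⟩, -, -⟩ := memP q hq.1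
          have k : ∀ w, G.Adj v w → x w = 0 → w = p0.1 ∨ w = p0.2 := by
            intro w hw hx
            by_contra hcon
            push Not at hcon
            refine hp0.2.2 w ?_ hx
            simp only [Fs, Finset.mem_sdiff, Finset.mem_union, Finset.mem_insert,
              Finset.mem_singleton, mem_nb]
            tauto
          have k1 := k q.1 b1 hq.2.1.1
          have k2 := k q.2 b2 hq.2.1.2
          rw [Finset.mem_insert, Finset.mem_singleton]
          rcases k1 with k1 | k1 <;> rcases k2 with k2 | k2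
          · exact absurd (k1.trans k2.symm) b3
          · left; exact Prod.ext k1 k2
          · right; exact Prod.ext k1 k2
          · exact absurd (k1.trans k2.symm) b3
        exact (Finset.card_le_card hsub).trans Finset.card_le_two
      · rw [Finset.not_nonempty_iff_eq_empty] at hne
        rw [hne]; simp
  refine le_trans ?_ h1
  rw [← nsmul_eq_mul, ← Finset.sum_const]
  apply Finset.sum_le_sum
  intro p hp
  obtain ⟨⟨a1, a2⟩, ⟨a3, a4⟩, a5, a6⟩ := memP p hp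
  refine pr_layer_two hd p.1 p.2 a3 (Fs p) ?_ (by simp [Fs]) (by simp [Fs])
  have e1 : (Fs p).card ≤ ((nb G v ∪ nb G p.1) ∪ nb G p.2).card :=
    Finset.card_le_card Finset.sdiff_subset
  have e2 := Finset.card_union_le (nb G v ∪ nb G p.1) (nb G p.2)
  have e3 := Finset.card_union_le (nb G v) (nb G p.1)
  have e4 := hdeg v
  have e5 := hdeg p.1
  have e6 := hdeg p.2
  omega

theorem pairs_fresh (G : SimpleGraph V) (hdeg : ∀ v, (nb G v).card ≤ d)
    (v : V) (n : ℕ) (ω : Om V t d) :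
    npairs G v ≤ ((nb G v ×ˢ nb G v).filter (fun p => (p.1 ≠ p.2 ∧ ¬ G.Adj p.1 p.2) ∧
      ¬ usedB ω n p.1 ∧ ¬ usedB ω n p.2)).card +
      2 * (((nb G v).filter (fun u => usedB ω n u)).card * d) := by
  set U := (nb G v).filter (fun u => usedB ω n u) with hU
  have hsub : (nb G v ×ˢ nb G v).filter (fun p => p.1 ≠ p.2 ∧ ¬ G.Adj p.1 p.2) ⊆
      ((nb G v ×ˢ nb G v).filter (fun p => (p.1 ≠ p.2 ∧ ¬ G.Adj p.1 p.2) ∧
      ¬ usedB ω n p.1 ∧ ¬ usedB ω n p.2)) ∪ ((U ×ˢ nb G v) ∪ (nb G v ×ˢ U)) := by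
    intro p hp
    simp only [Finset.mem_filter, Finset.mem_product, Finset.mem_union, hU] at hp ⊢
    tauto
  have h1 := (Finset.card_le_card hsub).trans (Finset.card_union_le _ _)
  have h2 := Finset.card_union_le (U ×ˢ nb G v) (nb G v ×ˢ U)
  rw [Finset.card_product, Finset.card_product] at h2
  have h3 := hdeg v
  have h4 : U.card * (nb G v).card ≤ U.card * d := Nat.mul_le_mul_left _ h3
  have h5 : (nb G v).card * U.card ≤ U.card * d := by rw [mul_comm]; exact h4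
  unfold npairs
  omega

/-- a vertex of `K` is served by the clique `C` in the round -/
def srv [NeZero d] (G : SimpleGraph V) (C : Finset V) (n : ℕ) (ω : Om V t d) (K : Finset V)
    (x : V → Fin d) : Prop :=
  ∃ a ∈ K, ∃ c ∈ C, ¬ usedB ω n c ∧ isol G x a ∧ isol G x c

theorem serve_count [NeZero d] (hd : 2 ≤ d) (G : SimpleGraph V) (hdeg : ∀ v, (nb G v).card ≤ d)
    (C K : Finset V) (hCd : C.card ≤ d) (hKd : K.card ≤ d) (hKC : ∀ a ∈ K, a ∉ C)
    (n : ℕ) (ω : Om V t d) (q : ℕ)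
    (hq : ∀ a ∈ K, q ≤ (C.filter (fun c => ¬ G.Adj a c ∧ ¬ usedB ω n c)).card) :
    ((K.card * q : ℕ) : ℝ) * (Real.exp (-8) / (d : ℝ) ^ 2) ≤ pr (srv G C n ω K) := by
  set P := (K ×ˢ C).filter (fun p => ¬ G.Adj p.1 p.2 ∧ ¬ usedB ω n p.2) with hP
  let Fs : V × V → Finset V := fun p => ((K ∪ C) ∪ (nb G p.1 ∪ nb G p.2)) \ {p.1, p.2}
  let W : V × V → (V → Fin d) → Prop := fun p x => (x p.1 = 0 ∧ x p.2 = 0) ∧ ∀ w ∈ Fs p, x w ≠ 0
  have memP : ∀ p ∈ P, (p.1 ∈ K ∧ p.2 ∈ C) ∧ ¬ G.Adj p.1 p.2 ∧ ¬ usedB ω n p.2 := by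
    intro p hp
    rw [hP, Finset.mem_filter, Finset.mem_product] at hp
    exact hp
  have hne' : ∀ a ∈ K, ∀ c ∈ C, a ≠ c := by
    rintro a ha c hc rfl
    exact hKC a ha hc
  have h1 : ∑ p ∈ P, pr (W p) ≤ 1 * pr (srv G C n ω K) := by
    have := pr_union_lower P W 1 (srv G C n ω K) ?_ ?_
    · simpa using this
    · intro p hp x hx
      obtain ⟨⟨a1, a2⟩, a3, a4⟩ := memP p hp
      refine ⟨p.1, a1, p.2, a2, a4, ?_, ?_⟩
      · refine W_isol (b := p.2) (F := Fs p) a3 ?_ hx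
        intro w hw h1 h2
        simp only [Fs, Finset.mem_sdiff, Finset.mem_union, Finset.mem_insert, Finset.mem_singleton]
        tauto
      · refine W_isol (b := p.1) (F := Fs p) (fun h => a3 h.symm) ?_ ⟨⟨hx.1.2, hx.1.1⟩, hx.2⟩
        intro w hw h1 h2
        simp only [Fs, Finset.mem_sdiff, Finset.mem_union, Finset.mem_insert, Finset.mem_singleton]
        tauto
    · intro x S hSP hSW
      rw [Finset.card_le_one]
      intro p hp q hq
      have hp : p ∈ P ∧ W p x := ⟨hSP hp, hSW p hp⟩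
      have hq : q ∈ P ∧ W q x := ⟨hSP hq, hSW q hq⟩
      obtain ⟨⟨a1, a2⟩, -, -⟩ := memP p hp.1
      obtain ⟨⟨b1, b2⟩, -, -⟩ := memP q hq.1
      have k : ∀ w, (w ∈ K ∨ w ∈ C) → x w = 0 → w = p.1 ∨ w = p.2 := by
        intro w hw hx
        by_contra hcon
        push Not at hcon
        refine hp.2.2 w ?_ hx
        simp only [Fs, Finset.mem_sdiff, Finset.mem_union, Finset.mem_insert,
          Finset.mem_singleton]
        tauto
      have k1 := k q.1 (Or.inl b1) hq.2.1.1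
      have k2 := k q.2 (Or.inr b2) hq.2.1.2
      refine Prod.ext ?_ ?_
      · rcases k1 with k1 | k1
        · exact k1.symm
        · exact absurd k1 (hne' _ b1 _ a2)
      · rcases k2 with k2 | k2
        · exact absurd k2.symm (hne' _ a1 _ b2)
        · exact k2.symm
  rw [one_mul] at h1
  have hcard : K.card * q ≤ P.card := by
    have e : P.card = ∑ a ∈ K, (C.filter (fun c => ¬ G.Adj a c ∧ ¬ usedB ω n c)).card := by
      rw [hP]
      simp only [Finset.card_filter, Finset.sum_product]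
    rw [e]
    calc K.card * q = ∑ _a ∈ K, q := by rw [Finset.sum_const, smul_eq_mul]
      _ ≤ _ := Finset.sum_le_sum hq
  have hpos : (0 : ℝ) ≤ Real.exp (-8) / (d : ℝ) ^ 2 := by positivity
  refine le_trans (mul_le_mul_of_nonneg_right (by exact_mod_cast hcard : ((K.card * q : ℕ) : ℝ) ≤ (P.card : ℝ)) hpos) ?_
  refine le_trans ?_ h1
  rw [← nsmul_eq_mul, ← Finset.sum_const]
  apply Finset.sum_le_sum
  intro p hp
  obtain ⟨⟨a1, a2⟩, a3, a4⟩ := memP p hp
  refine pr_layer_two hd p.1 p.2 (hne' _ a1 _ a2) (Fs p) ?_ (by simp [Fs]) (by simp [Fs])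
  have e1 : (Fs p).card ≤ ((K ∪ C) ∪ (nb G p.1 ∪ nb G p.2)).card :=
    Finset.card_le_card Finset.sdiff_subset
  have e2 := Finset.card_union_le (K ∪ C) (nb G p.1 ∪ nb G p.2)
  have e3 := Finset.card_union_le K C
  have e4 := Finset.card_union_le (nb G p.1) (nb G p.2)
  have e5 := hdeg p.1
  have e6 := hdeg p.2
  omega

/-- serving probability when few vertices of the clique are used -/
theorem srv_lower [NeZero d] (hd : 1000 ≤ d) (G : SimpleGraph V) (hdeg : ∀ v, (nb G v).card ≤ d)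
    (C K : Finset V) (hCd : C.card ≤ d) (hCb : 49 * d ≤ 50 * C.card) (hKd : K.card ≤ d)
    (hKC : ∀ a ∈ K, a ∉ C) (hKdeg : ∀ a ∈ K, degIn G C a < d - C.card + 6)
    (n : ℕ) (ω : Om V t d) (hreg : 8 * (C.filter (fun c => usedB ω n c)).card ≤ C.card) :
    (K.card : ℝ) * (Real.exp (-8) / (3 * d)) ≤ pr (srv G C n ω K) := by
  have h := serve_count (by omega) G hdeg C K hCd hKd hKC n ω (d / 2) ?_
  · refine le_trans ?_ h
    have hdr : (1000 : ℝ) ≤ d := by exact_mod_cast hd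
    have hq : (d : ℝ) / 3 ≤ ((d / 2 : ℕ) : ℝ) := by
      have : d ≤ 3 * (d / 2) := by omega
      have : (d : ℝ) ≤ 3 * ((d / 2 : ℕ) : ℝ) := by exact_mod_cast this
      linarith
    have hexp := Real.exp_pos (-8)
    rw [Nat.cast_mul]
    have e1 : (K.card : ℝ) * (Real.exp (-8) / (3 * d)) =
        (K.card : ℝ) * ((d : ℝ) / 3) * (Real.exp (-8) / (d : ℝ) ^ 2) := by
      field_simp
    rw [e1]
    apply mul_le_mul_of_nonneg_right _ (by positivity)
    exact mul_le_mul_of_nonneg_left hq (by positivity)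
  · intro a ha
    have h1 : C.card ≤ (C.filter (fun c => ¬ G.Adj a c ∧ ¬ usedB ω n c)).card + degIn G C a +
        (C.filter (fun c => usedB ω n c)).card := by
      unfold degIn
      have hsub : C ⊆ ((C.filter (fun c => ¬ G.Adj a c ∧ ¬ usedB ω n c)) ∪
          (C.filter (fun c => G.Adj a c))) ∪ (C.filter (fun c => usedB ω n c)) := by
        intro c hc
        simp only [Finset.mem_union, Finset.mem_filter]
        tauto
      have e1 := (Finset.card_le_card hsub).trans (Finset.card_union_le _ _)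
      have e2 := Finset.card_union_le (C.filter (fun c => ¬ G.Adj a c ∧ ¬ usedB ω n c))
          (C.filter (fun c => G.Adj a c))
      omega
    have h2 := hKdeg a ha
    omega

end Pool.Agent.Helper244.RB
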