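import Pool.Agent.Helper244.RB.Ext

set_option autoImplicit false
open Classical

namespace Pool.Agent.Helper244.RB

variable {V : Type} [Fintype V]

/-- cliques as finite sets -/
def Clq (G : SimpleGraph V) (K : Finset V) : Prop := ∀ a ∈ K, ∀ b ∈ K, a ≠ b → G.Adj a b

omit [Fintype V] in
lemma Clq.mono {G : SimpleGraph V} {K L : Finset V} (h : Clq G K) (hL : L ⊆ K) : Clq G L :=
  fun a ha b hb hab => h a (hL ha) b (hL hb) hab

/-- minimal counterexample -/
structure Crit (d : ℕ) (V : Type) [Fintype V] (H : SimpleGraph V) : Prop where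
  deg : ∀ v, (nb H v).card ≤ d
  free : ∀ K : Finset V, Clq H K → K.card + 2 ≤ d
  ncol : ¬ H.Colorable (d - 1)
  min : ∀ (W : Type) [Fintype W] (H' : SimpleGraph W), Fintype.card W < Fintype.card V →
    (∀ w, (nb H' w).card ≤ d) → (∀ K : Finset W, Clq H' K → K.card + 2 ≤ d) →
    H'.Colorable (d - 1)

theorem merge {d : ℕ} {H : SimpleGraph V} (hc : Crit d V H) (U : Finset V)
    (r : V → V) (M : Finset V) (hrU : ∀ a, a ∉ U → r a ∉ U) (hrr : ∀ a, r (r a) = r a)
    (hlt : ∃ v, v ∈ U ∨ r v ≠ v)
    (hind : ∀ a, a ∉ U → ∀ b, b ∉ U → H.Adj a b → r a ≠ r b)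
    (hM : ∀ p, p ∉ M → ∀ a, a ∉ U → r a = p → a = p)
    (hMd : ∀ p ∈ M, ((Finset.univ.filter (fun a => a ∉ U ∧ r a = p)).biUnion
      (fun a => nb H a \ U)).card + 2 < d) :
    ∃ f : V → Fin (d - 1), (∀ a, a ∉ U → ∀ b, b ∉ U → H.Adj a b → f a ≠ f b) ∧
      (∀ a, a ∉ U → f a = f (r a)) := by
  obtain ⟨v0, hv0⟩ := hlt
  let S := {v : V // v ∉ U ∧ r v = v}
  let H' : SimpleGraph S :=
    { Adj := fun p q => p ≠ q ∧ ∃ a b, a ∉ U ∧ b ∉ U ∧ r a = p.1 ∧ r b = q.1 ∧ H.Adj a b
      symm := ⟨by
        rintro p q ⟨h, a, b, ha, hb, hra, hrb, hab⟩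
        exact ⟨h.symm, b, a, hb, ha, hrb, hra, hab.symm⟩⟩
      loopless := ⟨fun p h => h.1 rfl⟩ }
  have hcard : Fintype.card S < Fintype.card V := by
    apply Fintype.card_subtype_lt (x := v0)
    rintro ⟨h1, h2⟩
    rcases hv0 with h | h
    · exact h1 h
    · exact h h2
  have hdeg0 : ∀ p : S, (nb H' p).card ≤
      ((Finset.univ.filter (fun a => a ∉ U ∧ r a = p.1)).biUnion (fun a => nb H a \ U)).card := by
    intro p
    have h1 : (nb H' p).image (fun q : S => q.1) ⊆
        ((Finset.univ.filter (fun a => a ∉ U ∧ r a = p.1)).biUnion (fun a => nb H a \ U)).image r := by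
      intro x hx
      rw [Finset.mem_image] at hx
      obtain ⟨q, hq, rfl⟩ := hx
      rw [mem_nb] at hq
      obtain ⟨-, a, b, ha, hb, hra, hrb, hab⟩ := hq
      rw [Finset.mem_image]
      refine ⟨b, ?_, hrb⟩
      rw [Finset.mem_biUnion]
      exact ⟨a, by simp [ha, hra], by rw [Finset.mem_sdiff, mem_nb]; exact ⟨hab, hb⟩⟩
    have h2 : ((nb H' p).image (fun q : S => q.1)).card = (nb H' p).card :=
      Finset.card_image_of_injective _ Subtype.val_injective
    rw [← h2]
    exact (Finset.card_le_card h1).trans Finset.card_image_le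
  have hdeg : ∀ p : S, (nb H' p).card ≤ d := by
    intro p
    refine (hdeg0 p).trans ?_
    by_cases hp : p.1 ∈ M
    · have := hMd p.1 hp; omega
    · refine le_trans (Finset.card_le_card ?_) (hc.deg p.1)
      intro x hx
      rw [Finset.mem_biUnion] at hx
      obtain ⟨a, ha, hx⟩ := hx
      rw [Finset.mem_filter] at ha
      have := hM p.1 hp a ha.2.1 ha.2.2
      subst this
      exact (Finset.mem_sdiff.mp hx).1
  have hfree : ∀ K : Finset S, Clq H' K → K.card + 2 ≤ d := by
    intro K hK
    by_cases hex : ∃ p ∈ K, p.1 ∈ M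
    · obtain ⟨p, hp, hpM⟩ := hex
      have h1 : K.erase p ⊆ nb H' p := by
        intro q hq
        rw [Finset.mem_erase] at hq
        rw [mem_nb]
        exact hK p hp q hq.2 hq.1.symm
      have h2 := Finset.card_le_card h1
      rw [Finset.card_erase_of_mem hp] at h2
      have h3 := hdeg0 p
      have h4 := hMd p.1 hpM
      omega
    · push Not at hex
      have h1 : Clq H (K.map ⟨fun q : S => q.1, Subtype.val_injective⟩) := by
        intro a ha b hb hab
        rw [Finset.mem_map] at ha hb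
        obtain ⟨p, hp, rfl⟩ := ha
        obtain ⟨q, hq, rfl⟩ := hb
        have hpq : p ≠ q := fun h => hab (by rw [h])
        obtain ⟨-, a, b, ha, hb, hra, hrb, hadj⟩ := hK p hp q hq hpq
        have e1 := hM p.1 (hex p hp) a ha hra
        have e2 := hM q.1 (hex q hq) b hb hrb
        subst e1 e2
        exact hadj
      have h2 := hc.free _ h1
      rwa [Finset.card_map] at h2
  obtain ⟨c⟩ := hc.min S H' hcard hdeg hfree
  have hdpos : 0 < d - 1 := by
    have := hc.free ∅ (fun a ha => by simp at ha)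
    simp at this; omega
  let f : V → Fin (d - 1) := fun a =>
    if h : r a ∉ U ∧ r (r a) = r a then c ⟨r a, h⟩ else ⟨0, hdpos⟩
  have hf : ∀ a (ha : a ∉ U), f a = c ⟨r a, hrU a ha, hrr a⟩ := by
    intro a ha
    simp only [f]
    rw [dif_pos (⟨hrU a ha, hrr a⟩ : r a ∉ U ∧ r (r a) = r a)]
  refine ⟨f, ?_, ?_⟩
  · intro a ha b hb hab
    rw [hf a ha, hf b hb]
    apply c.valid
    refine ⟨?_, a, b, ha, hb, rfl, rfl, hab⟩
    intro h
    exact hind a ha b hb hab (congrArg Subtype.val h)
  · intro a ha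
    rw [hf a ha, hf (r a) (hrU a ha)]
    congr 1
    exact Subtype.ext (hrr a).symm

theorem partialCol {d : ℕ} {H : SimpleGraph V} (hc : Crit d V H) (D : Finset V)
    (hD : D.Nonempty) :
    ∃ f : V → Fin (d - 1), ∀ a, a ∉ D → ∀ b, b ∉ D → H.Adj a b → f a ≠ f b := by
  obtain ⟨v, hv⟩ := hD
  obtain ⟨f, hf, -⟩ := merge hc D id ∅ (fun a ha => ha) (fun a => rfl) ⟨v, Or.inl hv⟩
    (fun a _ b _ hab h => by
      simp only [id] at h; subst h; exact H.loopless.irrefl _ hab)
    (fun p _ a _ h => h) (fun p hp => by simp at hp)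
  exact ⟨f, hf⟩

/-- minimum degree -/
theorem Crit.mindeg {d : ℕ} {H : SimpleGraph V} (hc : Crit d V H) (v : V) :
    d ≤ (nb H v).card + 1 := by
  by_contra hlt
  push Not at hlt
  obtain ⟨f, hf⟩ := partialCol hc {v} ⟨v, by simp⟩
  apply hc.ncol
  refine extend H (d - 1) (fun _ => 0) 1 {v} f (by simp) hf ?_
  intro w hw
  rw [Finset.mem_singleton] at hw
  subst hw
  have h := block_bound H (fun _ => 0) {w} f w ∅ ∅ (by simp) (by simp) (by simp) (by simp)
  simp only [Finset.card_empty] at h
  omega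

/-- a dense set has no two disjoint non-edges -/
theorem no_two {d : ℕ} {H : SimpleGraph V} (hc : Crit d V H) (D : Finset V) (e : ℕ)
    (hD : ∀ v ∈ D, (D \ nb H v).card ≤ e) (hs : 2 * (d + e) + 3 ≤ d - 1 + 2 * D.card)
    (hs2 : 5 * e + 6 ≤ D.card)
    {a1 b1 a2 b2 : V} (ha1 : a1 ∈ D) (hb1 : b1 ∈ D) (ha2 : a2 ∈ D) (hb2 : b2 ∈ D)
    (h1 : a1 ≠ b1) (h2 : a2 ≠ b2) (h3 : a1 ≠ a2) (h4 : a1 ≠ b2) (h5 : b1 ≠ a2) (h6 : b1 ≠ b2)
    (hn1 : ¬ H.Adj a1 b1) (hn2 : ¬ H.Adj a2 b2) : False := by
  obtain ⟨g, hg⟩ := partialCol hc D ⟨a1, ha1⟩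
  have hout : ∀ v ∈ D, (nb H v \ D).card + D.card ≤ d + e := by
    intro v hv
    have e1 := Finset.card_sdiff_add_card_inter (nb H v) D
    have e2 := Finset.card_sdiff_add_card_inter D (nb H v)
    rw [Finset.inter_comm] at e2
    have e3 := hD v hv
    have e4 := hc.deg v
    omega
  -- first colour
  have hc1 : (((nb H a1 \ D).image g) ∪ ((nb H b1 \ D).image g)).card <
      (Finset.univ : Finset (Fin (d - 1))).card := by
    rw [Finset.card_univ, Fintype.card_fin]
    have e1 := Finset.card_union_le ((nb H a1 \ D).image g) ((nb H b1 \ D).image g)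
    have e2 := Finset.card_image_le (s := nb H a1 \ D) (f := g)
    have e3 := Finset.card_image_le (s := nb H b1 \ D) (f := g)
    have e4 := hout a1 ha1
    have e5 := hout b1 hb1
    omega
  obtain ⟨c1, -, hc1n⟩ := Finset.exists_mem_notMem_of_card_lt_card hc1
  have hc2 : (insert c1 (((nb H a2 \ D).image g) ∪ ((nb H b2 \ D).image g))).card <
      (Finset.univ : Finset (Fin (d - 1))).card := by
    rw [Finset.card_univ, Fintype.card_fin]
    have e0 := Finset.card_insert_le c1 (((nb H a2 \ D).image g) ∪ ((nb H b2 \ D).image g))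
    have e1 := Finset.card_union_le ((nb H a2 \ D).image g) ((nb H b2 \ D).image g)
    have e2 := Finset.card_image_le (s := nb H a2 \ D) (f := g)
    have e3 := Finset.card_image_le (s := nb H b2 \ D) (f := g)
    have e4 := hout a2 ha2
    have e5 := hout b2 hb2
    omega
  obtain ⟨c2, -, hc2n⟩ := Finset.exists_mem_notMem_of_card_lt_card hc2
  rw [Finset.mem_insert, Finset.mem_union, Finset.mem_image, Finset.mem_image] at hc2n
  rw [Finset.mem_union, Finset.mem_image, Finset.mem_image] at hc1n
  push Not at hc1n hc2n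
  obtain ⟨hc1a, hc1b⟩ := hc1n
  obtain ⟨hc21, hc2a, hc2b⟩ := hc2n
  let f : V → Fin (d - 1) := fun v =>
    if v = a1 ∨ v = b1 then c1 else if v = a2 ∨ v = b2 then c2 else g v
  have fa1 : f a1 = c1 := by simp [f]
  have fb1 : f b1 = c1 := by simp [f]
  have fa2 : f a2 = c2 := by simp [f, h3.symm, h5.symm]
  have fb2 : f b2 = c2 := by simp [f, h4.symm, h6.symm]
  have fg : ∀ v, v ∉ D → f v = g v := by
    intro v hv
    have e1 : v ≠ a1 := fun h => hv (h ▸ ha1)
    have e2 : v ≠ b1 := fun h => hv (h ▸ hb1)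
    have e3 : v ≠ a2 := fun h => hv (h ▸ ha2)
    have e4 : v ≠ b2 := fun h => hv (h ▸ hb2)
    simp [f, e1, e2, e3, e4]
  set F : Finset V := {a1, b1, a2, b2} with hF
  have hFD : F ⊆ D := by
    intro x hx
    simp only [hF, Finset.mem_insert, Finset.mem_singleton] at hx
    rcases hx with rfl | rfl | rfl | rfl <;> assumption
  -- y and z
  have hcap : ∀ (S : Finset V), S ⊆ D → ∀ v ∈ D, S.card ≤ (S ∩ nb H v).card + e := by
    intro S hS v hv
    have e1 := Finset.card_sdiff_add_card_inter S (nb H v)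
    have e2 : (S \ nb H v).card ≤ (D \ nb H v).card :=
      Finset.card_le_card (Finset.sdiff_subset_sdiff hS (le_refl _))
    have e3 := hD v hv
    omega
  set D1 := D ∩ nb H a1 with hD1
  set D2 := D1 ∩ nb H b1 with hD2
  set D3 := D2 ∩ nb H a2 with hD3
  set D4 := D3 ∩ nb H b2 with hD4
  have s1 : D1 ⊆ D := Finset.inter_subset_left
  have s2 : D2 ⊆ D := Finset.inter_subset_left.trans s1
  have s3 : D3 ⊆ D := Finset.inter_subset_left.trans s2
  have s4 : D4 ⊆ D := Finset.inter_subset_left.trans s3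
  have k1 : D.card ≤ D1.card + e := hcap D (le_refl _) a1 ha1
  have k2 : D1.card ≤ D2.card + e := hcap D1 s1 b1 hb1
  have k3 : D2.card ≤ D3.card + e := hcap D2 s2 a2 ha2
  have k4 : D3.card ≤ D4.card + e := hcap D3 s3 b2 hb2
  have hz : D4.Nonempty := by rw [← Finset.card_pos]; omega
  obtain ⟨z, hz⟩ := hz
  have k5 := hcap D4 s4 z (s4 hz)
  have hy : (D4 ∩ nb H z).Nonempty := by rw [← Finset.card_pos]; omega
  obtain ⟨y, hy⟩ := hy
  rw [Finset.mem_inter] at hy
  obtain ⟨hy4, hyz⟩ := hy
  have hadj4 : ∀ w ∈ D4, H.Adj w a1 ∧ H.Adj w b1 ∧ H.Adj w a2 ∧ H.Adj w b2 := by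
    intro w hw
    simp only [hD4, hD3, hD2, hD1, Finset.mem_inter, mem_nb] at hw
    exact ⟨hw.1.1.1.2.symm, hw.1.1.2.symm, hw.1.2.symm, hw.2.symm⟩
  have hzF : z ∉ F := by
    intro h
    have := hadj4 z hz
    simp only [hF, Finset.mem_insert, Finset.mem_singleton] at h
    rcases h with rfl | rfl | rfl | rfl
    · exact H.loopless.irrefl _ this.1
    · exact H.loopless.irrefl _ this.2.1
    · exact H.loopless.irrefl _ this.2.2.1
    · exact H.loopless.irrefl _ this.2.2.2
  have hyF : y ∉ F := by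
    intro h
    have := hadj4 y hy4
    simp only [hF, Finset.mem_insert, Finset.mem_singleton] at h
    rcases h with rfl | rfl | rfl | rfl
    · exact H.loopless.irrefl _ this.1
    · exact H.loopless.irrefl _ this.2.1
    · exact H.loopless.irrefl _ this.2.2.1
    · exact H.loopless.irrefl _ this.2.2.2
  have hyz' : H.Adj z y := mem_nb.mp hyz
  have hyne : y ≠ z := fun h => by rw [h] at hyz'; exact H.loopless.irrefl _ hyz'
  set U := D \ F with hU
  have hzU : z ∈ U := Finset.mem_sdiff.mpr ⟨s4 hz, hzF⟩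
  have hyU : y ∈ U := Finset.mem_sdiff.mpr ⟨s4 hy4, hyF⟩
  let rank : V → ℕ := fun v => if v = y ∨ v = z then 2 else if H.Adj v y ∧ H.Adj v z then 1 else 0
  apply hc.ncol
  refine extend H (d - 1) rank U.card U f rfl ?_ ?_
  · -- properness
    have hcase : ∀ v, v ∉ U → v ∉ D ∨ v ∈ F := by
      intro v hv
      by_contra hcon
      push Not at hcon
      exact hv (Finset.mem_sdiff.mpr hcon)
    have keyF : ∀ v w, v ∈ F → w ∉ D → H.Adj v w → f v ≠ f w := by
      intro v w hv hw hvw
      rw [fg w hw]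
      simp only [hF, Finset.mem_insert, Finset.mem_singleton] at hv
      rcases hv with rfl | rfl | rfl | rfl
      · rw [fa1]; exact (hc1a w (by rw [Finset.mem_sdiff, mem_nb]; exact ⟨hvw, hw⟩)).symm
      · rw [fb1]; exact (hc1b w (by rw [Finset.mem_sdiff, mem_nb]; exact ⟨hvw, hw⟩)).symm
      · rw [fa2]; exact (hc2a w (by rw [Finset.mem_sdiff, mem_nb]; exact ⟨hvw, hw⟩)).symm
      · rw [fb2]; exact (hc2b w (by rw [Finset.mem_sdiff, mem_nb]; exact ⟨hvw, hw⟩)).symm
    intro v hv w hw hvw
    rcases hcase v hv with hvD | hvF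
    · rcases hcase w hw with hwD | hwF
      · rw [fg v hvD, fg w hwD]; exact hg v hvD w hwD hvw
      · exact (keyF w v hwF hvD hvw.symm).symm
    · rcases hcase w hw with hwD | hwF
      · exact keyF v w hvF hwD hvw
      · simp only [hF, Finset.mem_insert, Finset.mem_singleton] at hvF hwF
        rcases hvF with rfl | rfl | rfl | rfl <;> rcases hwF with rfl | rfl | rfl | rfl <;>
          first
          | exact absurd hvw (H.loopless.irrefl _)
          | exact absurd hvw hn1
          | exact absurd hvw.symm hn1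
          | exact absurd hvw hn2
          | exact absurd hvw.symm hn2
          | (simp only [fa1, fb1, fa2, fb2]; exact hc21)
          | (simp only [fa1, fb1, fa2, fb2]; exact hc21.symm)
  · intro v hv
    have hvD : v ∈ D := (Finset.mem_sdiff.mp hv).1
    have hvF : v ∉ F := (Finset.mem_sdiff.mp hv).2
    have hdv := hc.deg v
    have hdpos := hc.free ∅ (fun a ha => by simp at ha)
    by_cases hyzv : v = y ∨ v = z
    · -- two savings
      have hv4 : v ∈ D4 := by rcases hyzv with rfl | rfl <;> assumption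
      have hadj := hadj4 v hv4
      have hb := block_bound H rank U f v {b1, b2} ∅ ?_ ?_ (by simp) (by simp)
      · have : ({b1, b2} : Finset V).card = 2 := Finset.card_pair h6
        rw [this, Finset.card_empty] at hb
        omega
      · intro x hx
        simp only [Finset.mem_insert, Finset.mem_singleton] at hx
        rw [Finset.mem_sdiff, mem_nb, hU, Finset.mem_sdiff]
        rcases hx with rfl | rfl
        · exact ⟨hadj.2.1, fun h => h.2 (by simp [hF])⟩
        · exact ⟨hadj.2.2.2, fun h => h.2 (by simp [hF])⟩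
      · intro p hp
        simp only [Finset.mem_insert, Finset.mem_singleton] at hp
        rcases hp with rfl | rfl
        · refine ⟨a1, ?_, by rw [fa1, fb1]⟩
          rw [Finset.mem_sdiff, Finset.mem_sdiff, mem_nb, hU, Finset.mem_sdiff]
          refine ⟨⟨hadj.1, fun h => h.2 (by simp [hF])⟩, ?_⟩
          simp [h1, h4]
        · refine ⟨a2, ?_, by rw [fa2, fb2]⟩
          rw [Finset.mem_sdiff, Finset.mem_sdiff, mem_nb, hU, Finset.mem_sdiff]
          refine ⟨⟨hadj.2.2.1, fun h => h.2 (by simp [hF])⟩, ?_⟩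
          simp [h2, h5.symm]
    · by_cases hvyz : H.Adj v y ∧ H.Adj v z
      · have hb := block_bound H rank U f v ∅ {y, z} (by simp) (by simp) ?_ ?_
        · have : ({y, z} : Finset V).card = 2 := Finset.card_pair hyne
          rw [this, Finset.card_empty] at hb
          omega
        · intro x hx
          simp only [Finset.mem_insert, Finset.mem_singleton] at hx
          rw [Finset.mem_inter, mem_nb]
          rcases hx with rfl | rfl
          · exact ⟨hvyz.1, hyU⟩
          · exact ⟨hvyz.2, hzU⟩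
        · intro u hu
          simp only [Finset.mem_insert, Finset.mem_singleton] at hu
          have e1 : rank v = 1 := by simp [rank, hyzv, hvyz]
          have e2 : rank u = 2 := by simp [rank, hu]
          omega
      · -- many later neighbours
        set L := (((D ∩ nb H v) ∩ nb H y) ∩ nb H z) \ F with hL
        have c1' := hcap D (le_refl _) v hvD
        have c2' := hcap (D ∩ nb H v) Finset.inter_subset_left y (s4 hy4)
        have c3' := hcap ((D ∩ nb H v) ∩ nb H y) (Finset.inter_subset_left.trans Finset.inter_subset_left)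
          z (s4 hz)
        have hFc : F.card ≤ 4 := by
          rw [hF]; exact Finset.card_le_four
        have hLc : 2 ≤ L.card := by
          have := Finset.le_card_sdiff F (((D ∩ nb H v) ∩ nb H y) ∩ nb H z)
          rw [← hL] at this
          omega
        have hb := block_bound H rank U f v ∅ L (by simp) (by simp) ?_ ?_
        · rw [Finset.card_empty] at hb
          omega
        · intro x hx
          simp only [hL, Finset.mem_sdiff, Finset.mem_inter] at hx
          rw [Finset.mem_inter, hU, Finset.mem_sdiff]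
          exact ⟨hx.1.1.1.2, hx.1.1.1.1, hx.2⟩
        · intro u hu
          simp only [hL, Finset.mem_sdiff, Finset.mem_inter, mem_nb] at hu
          have e1 : rank v = 0 := by simp [rank, hyzv, hvyz]
          have e2 : 1 ≤ rank u := by
            simp only [rank]
            split_ifs with i1 i2
            · norm_num
            · norm_num
            · exact absurd ⟨hu.1.1.2.symm, hu.1.2.symm⟩ i2
          omega

end Pool.Agent.Helper244.RB
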