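import Pool.Agent.Helper244.RB.Str1

set_option autoImplicit false
open Classical

namespace Pool.Agent.Helper244.RB

variable {V : Type} [Fintype V]

/-- ordered pairs of distinct nonadjacent neighbours -/
noncomputable def npairs (G : SimpleGraph V) (v : V) : ℕ :=
  ((nb G v ×ˢ nb G v).filter (fun p => p.1 ≠ p.2 ∧ ¬ G.Adj p.1 p.2)).card

lemma npairs_eq (G : SimpleGraph V) (v : V) :
    npairs G v = ∑ u ∈ nb G v, ((nb G v).filter (fun w => u ≠ w ∧ ¬ G.Adj u w)).card := by
  simp only [npairs, Finset.card_filter, Finset.sum_product]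

theorem dense_clique {d : ℕ} {H : SimpleGraph V} (hc : Crit d V H) (hd : 1000 ≤ d) (v : V)
    (hv : 10000 * npairs H v < d * d) :
    ∃ K : Finset V, Clq H K ∧ v ∈ K ∧ 49 * d ≤ 50 * K.card := by
  set A := (nb H v).filter (fun u =>
    100 * ((nb H v).filter (fun w => u ≠ w ∧ ¬ H.Adj u w)).card ≤ d) with hA
  set Bd := (nb H v).filter (fun u =>
    ¬ 100 * ((nb H v).filter (fun w => u ≠ w ∧ ¬ H.Adj u w)).card ≤ d) with hBd
  have hAB : A.card + Bd.card = (nb H v).card := Finset.card_filter_add_card_filter_not _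
  have hBc : Bd.card * d ≤ 100 * npairs H v := by
    rw [npairs_eq, Finset.mul_sum]
    calc Bd.card * d = ∑ _u ∈ Bd, d := by rw [Finset.sum_const, smul_eq_mul]
      _ ≤ ∑ u ∈ Bd, 100 * ((nb H v).filter (fun w => u ≠ w ∧ ¬ H.Adj u w)).card := by
          apply Finset.sum_le_sum
          intro u hu
          have := (Finset.mem_filter.mp hu).2
          omega
      _ ≤ _ := Finset.sum_le_sum_of_subset (Finset.filter_subset _ _)
  have hB100 : 100 * Bd.card < d := by
    have : (100 * Bd.card) * d < d * d := by nlinarith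
    exact Nat.lt_of_mul_lt_mul_right this
  have hmin := hc.mindeg v
  set D := insert v A with hD
  have hvA : v ∉ A := fun h => self_notMem_nb (Finset.mem_filter.mp h).1
  have hDc : D.card = A.card + 1 := Finset.card_insert_of_notMem hvA
  have hvadj : ∀ u ∈ D, u ≠ v → H.Adj v u := by
    intro u hu huv
    rw [hD, Finset.mem_insert] at hu
    rcases hu with h | h
    · exact absurd h huv
    · exact mem_nb.mp (Finset.mem_filter.mp h).1
  have hnon : ∀ u ∈ D, (D \ nb H u).card ≤ 1 + d / 100 := by
    intro u hu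
    by_cases huv : u = v
    · subst huv
      have : D \ nb H u ⊆ {u} := by
        intro x hx
        rw [Finset.mem_sdiff, mem_nb] at hx
        rw [Finset.mem_singleton]
        by_contra hxu
        exact hx.2 (hvadj x hx.1 hxu)
      have := Finset.card_le_card this
      simp at this
      omega
    · have huA : u ∈ A := by
        rw [hD, Finset.mem_insert] at hu
        exact hu.resolve_left huv
      have h1 := (Finset.mem_filter.mp huA).2
      have : D \ nb H u ⊆ insert u ((nb H v).filter (fun w => u ≠ w ∧ ¬ H.Adj u w)) := by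
        intro x hx
        rw [Finset.mem_sdiff, mem_nb] at hx
        rw [Finset.mem_insert, Finset.mem_filter]
        by_cases hxu : x = u
        · left; exact hxu
        · right
          have hxv : x ≠ v := by
            rintro rfl
            exact hx.2 (hvadj u hu huv).symm
          exact ⟨mem_nb.mpr (hvadj x hx.1 hxv), Ne.symm hxu, hx.2⟩
      have h2 := (Finset.card_le_card this).trans (Finset.card_insert_le _ _)
      omega
  by_cases hcl : ∀ a ∈ D, ∀ b ∈ D, a ≠ b → H.Adj a b
  · exact ⟨D, hcl, Finset.mem_insert_self _ _, by omega⟩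
  · push Not at hcl
    obtain ⟨a, ha, b, hb, hab, hnab⟩ := hcl
    refine ⟨(D.erase a).erase b, ?_, ?_, ?_⟩
    · intro x hx y hy hxy
      rw [Finset.mem_erase, Finset.mem_erase] at hx hy
      by_contra hnxy
      exact no_two hc D (1 + d / 100) hnon (by omega) (by omega) ha hb hx.2.2 hy.2.2 hab hxy
        hx.2.1.symm hy.2.1.symm hx.1.symm hy.1.symm hnab hnxy
    · have hav : v ≠ a := by
        rintro rfl
        exact hnab (hvadj b hb hab.symm)
      have hbv : v ≠ b := by
        rintro rfl
        exact hnab (hvadj a ha hab).symm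
      rw [Finset.mem_erase, Finset.mem_erase]
      exact ⟨hbv, hav, Finset.mem_insert_self _ _⟩
    · rw [Finset.card_erase_of_mem (Finset.mem_erase.mpr ⟨hab.symm, hb⟩), Finset.card_erase_of_mem ha]
      omega

/-- families of pairwise disjoint big cliques -/
def Fam {V : Type} (d : ℕ) (H : SimpleGraph V) (F : Finset (Finset V)) : Prop :=
  (∀ C ∈ F, Clq H C ∧ 49 * d ≤ 50 * C.card) ∧ ∀ C ∈ F, ∀ C' ∈ F, C ≠ C' → Disjoint C C'

theorem exists_family (d : ℕ) (H : SimpleGraph V) : ∃ F : Finset (Finset V), Fam d H F ∧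
    ∀ F', Fam d H F' → ∑ C ∈ F', C.card ≤ ∑ C ∈ F, C.card := by
  have hne : ((Finset.univ : Finset (Finset (Finset V))).filter (Fam d H)).Nonempty := by
    refine ⟨∅, ?_⟩
    rw [Finset.mem_filter]
    exact ⟨Finset.mem_univ _, by simp [Fam]⟩
  obtain ⟨F, hF, hmax⟩ := Finset.exists_max_image _ (fun F => ∑ C ∈ F, C.card) hne
  refine ⟨F, (Finset.mem_filter.mp hF).2, ?_⟩
  intro F' hF'
  exact hmax F' (Finset.mem_filter.mpr ⟨Finset.mem_univ _, hF'⟩)

omit [Fintype V] in
theorem fam_hit {d : ℕ} {H : SimpleGraph V} (hd : 0 < d) {F : Finset (Finset V)} (hF : Fam d H F)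
    (hmax : ∀ F', Fam d H F' → ∑ C ∈ F', C.card ≤ ∑ C ∈ F, C.card)
    (K : Finset V) (hK : Clq H K) (hKb : 49 * d ≤ 50 * K.card) : ∃ C ∈ F, ¬ Disjoint K C := by
  by_contra hcon
  push Not at hcon
  have hKF : K ∉ F := by
    intro h
    have := hcon K h
    rw [Finset.disjoint_self_iff_empty] at this
    rw [this] at hKb
    simp at hKb; omega
  have hF' : Fam d H (insert K F) := by
    refine ⟨?_, ?_⟩
    · intro C hC
      rw [Finset.mem_insert] at hC
      rcases hC with rfl | h
      · exact ⟨hK, hKb⟩
      · exact hF.1 C h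
    · intro C hC C' hC' hne
      rw [Finset.mem_insert] at hC hC'
      rcases hC with rfl | h <;> rcases hC' with rfl | h'
      · exact absurd rfl hne
      · exact hcon C' h'
      · exact (hcon C h).symm
      · exact hF.2 C h C' h' hne
  have := hmax _ hF'
  rw [Finset.sum_insert hKF] at this
  omega

omit [Fintype V] in
theorem fam_swap {d : ℕ} {H : SimpleGraph V} (hd : 0 < d) {F : Finset (Finset V)} (hF : Fam d H F)
    (hmax : ∀ F', Fam d H F' → ∑ C ∈ F', C.card ≤ ∑ C ∈ F, C.card)
    (C C' : Finset V) (hC : C ∈ F) (hC' : Clq H C') (hlt : C.card < C'.card)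
    (hdis : ∀ C'' ∈ F, C'' ≠ C → Disjoint C' C'') : False := by
  have hb := (hF.1 C hC).2
  have hKF : C' ∉ F.erase C := by
    intro h
    rw [Finset.mem_erase] at h
    have := hdis C' h.2 h.1
    rw [Finset.disjoint_self_iff_empty] at this
    rw [this] at hlt
    simp at hlt
  have hF' : Fam d H (insert C' (F.erase C)) := by
    refine ⟨?_, ?_⟩
    · intro K hK
      rw [Finset.mem_insert] at hK
      rcases hK with rfl | h
      · exact ⟨hC', by omega⟩
      · exact hF.1 K (Finset.mem_of_mem_erase h)
    · intro K hK K' hK' hne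
      rw [Finset.mem_insert, Finset.mem_erase] at hK hK'
      rcases hK with rfl | h <;> rcases hK' with rfl | h'
      · exact absurd rfl hne
      · exact hdis K' h'.2 h'.1
      · exact (hdis K h.2 h.1).symm
      · exact hF.2 K h.2 K' h'.2 hne
  have := hmax _ hF'
  rw [Finset.sum_insert hKF] at this
  have h2 := Finset.add_sum_erase F (fun C => C.card) hC
  omega

lemma card_union_le_of_common {d : ℕ} {H : SimpleGraph V} (hc : Crit d V H) {K C : Finset V}
    (hK : Clq H K) (hC : Clq H C) (u : V) (huK : u ∈ K) (huC : u ∈ C) :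
    (K ∪ C).card ≤ d + 1 := by
  have : K ∪ C ⊆ insert u (nb H u) := by
    intro x hx
    rw [Finset.mem_union] at hx
    rw [Finset.mem_insert, mem_nb]
    by_cases hxu : x = u
    · left; exact hxu
    · right
      rcases hx with h | h
      · exact hK u huK x h (Ne.symm hxu)
      · exact hC u huC x h (Ne.symm hxu)
  have h1 := (Finset.card_le_card this).trans (Finset.card_insert_le _ _)
  have := hc.deg u
  omega

end Pool.Agent.Helper244.RB
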