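import Pool.Agent.Helper244.RB.Str2

set_option autoImplicit false
open Classical

namespace Pool.Agent.Helper244.RB

variable {V : Type} [Fintype V]

lemma sdiff_bound {d : ℕ} {H : SimpleGraph V} (hc : Crit d V H) (v : V) (U : Finset V) :
    (nb H v \ U).card + (nb H v ∩ U).card ≤ d := by
  rw [Finset.card_sdiff_add_card_inter]
  exact hc.deg v

theorem two_merge {d : ℕ} {H : SimpleGraph V} (hc : Crit d V H) {C : Finset V} (hC : Clq H C)
    {z x1 x2 y1 y2 : V} (hz : z ∈ C) (hx1 : x1 ∉ C) (hx2 : x2 ∉ C) (hx : x1 ≠ x2)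
    (hzx1 : H.Adj z x1) (hzx2 : H.Adj z x2) (hy1 : y1 ∈ C) (hy2 : y2 ∈ C) (hy : y1 ≠ y2)
    (hn1 : ¬ H.Adj x1 y1) (hn2 : ¬ H.Adj x2 y2)
    (hh1 : d - C.card + 6 ≤ (nb H x1 ∩ C).card) (hh2 : d - C.card + 6 ≤ (nb H x2 ∩ C).card) :
    False := by
  have hfree := hc.free C hC
  have x1y1 : x1 ≠ y1 := fun h => hx1 (h ▸ hy1)
  have x1y2 : x1 ≠ y2 := fun h => hx1 (h ▸ hy2)
  have x2y1 : x2 ≠ y1 := fun h => hx2 (h ▸ hy1)
  have x2y2 : x2 ≠ y2 := fun h => hx2 (h ▸ hy2)
  have hzy1 : z ≠ y1 := by rintro rfl; exact hn1 hzx1.symm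
  have hzy2 : z ≠ y2 := by rintro rfl; exact hn2 hzx2.symm
  set U := (C.erase y1).erase y2 with hU
  have hUC : U ⊆ C := (Finset.erase_subset _ _).trans (Finset.erase_subset _ _)
  have hUc : U.card + 2 = C.card := by
    have h1 : y2 ∈ C.erase y1 := Finset.mem_erase.mpr ⟨hy.symm, hy2⟩
    have h2 := Finset.card_erase_of_mem h1
    have h3 := Finset.card_erase_of_mem hy1
    have h4 : 1 < C.card := Finset.one_lt_card.mpr ⟨y1, hy1, y2, hy2, hy⟩
    rw [hU]; omega
  have hy1U : y1 ∉ U := by simp [hU]
  have hy2U : y2 ∉ U := by simp [hU]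
  have hx1U : x1 ∉ U := fun h => hx1 (hUC h)
  have hx2U : x2 ∉ U := fun h => hx2 (hUC h)
  have hzU : z ∈ U := by
    rw [hU, Finset.mem_erase, Finset.mem_erase]; exact ⟨hzy2, hzy1, hz⟩
  have memU : ∀ v, v ∈ U ↔ v ≠ y2 ∧ v ≠ y1 ∧ v ∈ C := by
    intro v; rw [hU, Finset.mem_erase, Finset.mem_erase]
  let r : V → V := fun v => if v = y1 then x1 else if v = y2 then x2 else v
  have r1 : r y1 = x1 := by simp [r]
  have r2 : r y2 = x2 := by simp [r, hy.symm]
  have r3 : ∀ v, v ≠ y1 → v ≠ y2 → r v = v := by intro v h1 h2; simp [r, h1, h2]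
  have interbound : ∀ x : V, ∀ y ∈ C, ¬ H.Adj x y → (y = y1 ∨ y = y2) →
      (nb H x ∩ C).card ≤ (nb H x ∩ U).card + 1 := by
    intro x y hyC hxy hyy
    have hsub : nb H x ∩ C ⊆ insert y1 (insert y2 (nb H x ∩ U)) := by
      intro w hw
      rw [Finset.mem_inter] at hw
      rw [Finset.mem_insert, Finset.mem_insert, Finset.mem_inter, memU]
      tauto
    have hsub2 : nb H x ∩ C ⊆ (insert y1 (insert y2 (nb H x ∩ U))).erase y := by
      intro w hw
      rw [Finset.mem_erase]
      refine ⟨?_, hsub hw⟩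
      rintro rfl
      exact hxy (mem_nb.mp (Finset.mem_inter.mp hw).1)
    have e1 := Finset.card_le_card hsub2
    have e2 : y ∈ insert y1 (insert y2 (nb H x ∩ U)) := by
      rw [Finset.mem_insert, Finset.mem_insert]; tauto
    rw [Finset.card_erase_of_mem e2] at e1
    have e3 := Finset.card_insert_le y1 (insert y2 (nb H x ∩ U))
    have e4 := Finset.card_insert_le y2 (nb H x ∩ U)
    omega
  have i1 := interbound x1 y1 hy1 hn1 (Or.inl rfl)
  have i2 := interbound x2 y2 hy2 hn2 (Or.inr rfl)
  have yin : ∀ y ∈ C, y ∉ U → U.card ≤ (nb H y ∩ U).card := by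
    intro y hyC hyU
    apply Finset.card_le_card
    intro w hw
    rw [Finset.mem_inter, mem_nb]
    refine ⟨hC y hyC w (hUC hw) ?_, hw⟩
    rintro rfl; exact hyU hw
  have j1 := yin y1 hy1 hy1U
  have j2 := yin y2 hy2 hy2U
  have hm := merge hc U r {x1, x2} ?_ ?_ ⟨y1, Or.inr (by rw [r1]; exact x1y1)⟩ ?_ ?_ ?_
  · -- extension
    obtain ⟨f, hf, hfr⟩ := hm
    have f1 : f y1 = f x1 := by rw [hfr y1 hy1U, r1]
    have f2 : f y2 = f x2 := by rw [hfr y2 hy2U, r2]
    let rank : V → ℕ := fun v => (if H.Adj v x1 then 1 else 0) + (if H.Adj v x2 then 1 else 0)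
    apply hc.ncol
    refine extend H (d - 1) rank U.card U f rfl hf ?_
    intro v hv
    have hvC := hUC hv
    have hvy1 : v ≠ y1 := fun h => hy1U (h ▸ hv)
    have hvy2 : v ≠ y2 := fun h => hy2U (h ▸ hv)
    have a1 : H.Adj v y1 := hC v hvC y1 hy1 hvy1
    have a2 : H.Adj v y2 := hC v hvC y2 hy2 hvy2
    have hdv := hc.deg v
    by_cases b1 : H.Adj v x1
    · by_cases b2 : H.Adj v x2
      · have hb := block_bound H rank U f v {y1, y2} ∅ ?_ ?_ (by simp) (by simp)
        · rw [Finset.card_pair hy, Finset.card_empty] at hb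
          omega
        · intro w hw
          rw [Finset.mem_insert, Finset.mem_singleton] at hw
          rw [Finset.mem_sdiff, mem_nb]
          rcases hw with rfl | rfl
          · exact ⟨a1, hy1U⟩
          · exact ⟨a2, hy2U⟩
        · intro p hp
          rw [Finset.mem_insert, Finset.mem_singleton] at hp
          rcases hp with rfl | rfl
          · refine ⟨x1, ?_, f1.symm⟩
            rw [Finset.mem_sdiff, Finset.mem_sdiff, mem_nb]
            exact ⟨⟨b1, hx1U⟩, by simp [x1y1, x1y2]⟩
          · refine ⟨x2, ?_, f2.symm⟩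
            rw [Finset.mem_sdiff, Finset.mem_sdiff, mem_nb]
            exact ⟨⟨b2, hx2U⟩, by simp [x2y1, x2y2]⟩
      · have hvz : v ≠ z := by rintro rfl; exact b2 hzx2
        have hb := block_bound H rank U f v {y1} {z} ?_ ?_ ?_ ?_
        · rw [Finset.card_singleton, Finset.card_singleton] at hb
          omega
        · intro w hw
          rw [Finset.mem_singleton] at hw
          subst hw
          rw [Finset.mem_sdiff, mem_nb]
          exact ⟨a1, hy1U⟩
        · intro p hp
          rw [Finset.mem_singleton] at hp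
          subst hp
          refine ⟨x1, ?_, f1.symm⟩
          rw [Finset.mem_sdiff, Finset.mem_sdiff, mem_nb]
          exact ⟨⟨b1, hx1U⟩, by simp [x1y1]⟩
        · intro w hw
          rw [Finset.mem_singleton] at hw
          subst hw
          rw [Finset.mem_inter, mem_nb]
          exact ⟨hC v hvC w hz hvz, hzU⟩
        · intro u hu
          rw [Finset.mem_singleton] at hu
          subst hu
          simp [rank, b1, b2, hzx1, hzx2]
    · by_cases b2 : H.Adj v x2
      · have hvz : v ≠ z := by rintro rfl; exact b1 hzx1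
        have hb := block_bound H rank U f v {y2} {z} ?_ ?_ ?_ ?_
        · rw [Finset.card_singleton, Finset.card_singleton] at hb
          omega
        · intro w hw
          rw [Finset.mem_singleton] at hw
          subst hw
          rw [Finset.mem_sdiff, mem_nb]
          exact ⟨a2, hy2U⟩
        · intro p hp
          rw [Finset.mem_singleton] at hp
          subst hp
          refine ⟨x2, ?_, f2.symm⟩
          rw [Finset.mem_sdiff, Finset.mem_sdiff, mem_nb]
          exact ⟨⟨b2, hx2U⟩, by simp [x2y2]⟩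
        · intro w hw
          rw [Finset.mem_singleton] at hw
          subst hw
          rw [Finset.mem_inter, mem_nb]
          exact ⟨hC v hvC w hz hvz, hzU⟩
        · intro u hu
          rw [Finset.mem_singleton] at hu
          subst hu
          simp [rank, b1, b2, hzx1, hzx2]
      · have hb := block_bound H rank U f v ∅ (nb H x1 ∩ U) (by simp) (by simp) ?_ ?_
        · rw [Finset.card_empty] at hb
          omega
        · intro w hw
          rw [Finset.mem_inter, mem_nb] at hw
          rw [Finset.mem_inter, mem_nb]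
          refine ⟨hC v hvC w (hUC hw.2) ?_, hw.2⟩
          rintro rfl
          exact b1 hw.1.symm
        · intro u hu
          rw [Finset.mem_inter, mem_nb] at hu
          simp [rank, b1, b2, hu.1.symm]
  · intro a ha
    by_cases h1 : a = y1
    · rw [h1, r1]; exact hx1U
    · by_cases h2 : a = y2
      · rw [h2, r2]; exact hx2U
      · rw [r3 a h1 h2]; exact ha
  · intro a
    by_cases h1 : a = y1
    · rw [h1, r1, r3 x1 x1y1 x1y2]
    · by_cases h2 : a = y2
      · rw [h2, r2, r3 x2 x2y1 x2y2]
      · rw [r3 a h1 h2, r3 a h1 h2]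
  · -- independent classes
    have key : ∀ a b, H.Adj a b → a = y1 → r a ≠ r b := by
      intro a b hab h1
      subst h1
      rw [r1]
      by_cases h2 : b = y2
      · rw [h2, r2]; exact hx
      · have h3 : b ≠ a := by rintro rfl; exact H.loopless.irrefl _ hab
        rw [r3 b h3 h2]
        rintro rfl
        exact hn1 hab.symm
    have key2 : ∀ a b, H.Adj a b → a = y2 → r a ≠ r b := by
      intro a b hab h1
      subst h1
      rw [r2]
      by_cases h2 : b = y1
      · rw [h2, r1]; exact hx.symm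
      · have h3 : b ≠ a := by rintro rfl; exact H.loopless.irrefl _ hab
        rw [r3 b h2 h3]
        rintro rfl
        exact hn2 hab.symm
    intro a _ b _ hab
    by_cases h1 : a = y1
    · exact key a b hab h1
    · by_cases h2 : a = y2
      · exact key2 a b hab h2
      · by_cases h3 : b = y1
        · exact (key b a hab.symm h3).symm
        · by_cases h4 : b = y2
          · exact (key2 b a hab.symm h4).symm
          · rw [r3 a h1 h2, r3 b h3 h4]
            rintro rfl
            exact H.loopless.irrefl _ hab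
  · intro p hp a _ hra
    rw [Finset.mem_insert, Finset.mem_singleton] at hp
    push Not at hp
    by_cases h1 : a = y1
    · rw [h1, r1] at hra; exact absurd hra.symm hp.1
    · by_cases h2 : a = y2
      · rw [h2, r2] at hra; exact absurd hra.symm hp.2
      · rw [r3 a h1 h2] at hra; exact hra
  · intro p hp
    rw [Finset.mem_insert, Finset.mem_singleton] at hp
    rcases hp with rfl | rfl
    · have hsub : (Finset.univ.filter (fun a => a ∉ U ∧ r a = p)).biUnion (fun a => nb H a \ U) ⊆
          (nb H p \ U) ∪ (nb H y1 \ U) := by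
        intro w hw
        rw [Finset.mem_biUnion] at hw
        obtain ⟨a, ha, hw⟩ := hw
        rw [Finset.mem_filter] at ha
        rw [Finset.mem_union]
        by_cases h1 : a = y1
        · right; rw [← h1]; exact hw
        · left
          by_cases h2 : a = y2
          · rw [h2, r2] at ha; exact absurd ha.2.2.symm hx
          · rw [r3 a h1 h2] at ha; rw [← ha.2.2]; exact hw
      have e1 := (Finset.card_le_card hsub).trans (Finset.card_union_le _ _)
      have e2 := sdiff_bound hc p U
      have e3 := sdiff_bound hc y1 U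
      omega
    · have hsub : (Finset.univ.filter (fun a => a ∉ U ∧ r a = p)).biUnion (fun a => nb H a \ U) ⊆
          (nb H p \ U) ∪ (nb H y2 \ U) := by
        intro w hw
        rw [Finset.mem_biUnion] at hw
        obtain ⟨a, ha, hw⟩ := hw
        rw [Finset.mem_filter] at ha
        rw [Finset.mem_union]
        by_cases h1 : a = y2
        · right; rw [← h1]; exact hw
        · left
          by_cases h2 : a = y1
          · rw [h2, r1] at ha; exact absurd ha.2.2 hx
          · rw [r3 a h2 h1] at ha; rw [← ha.2.2]; exact hw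
      have e1 := (Finset.card_le_card hsub).trans (Finset.card_union_le _ _)
      have e2 := sdiff_bound hc p U
      have e3 := sdiff_bound hc y2 U
      omega

theorem triple_merge {d : ℕ} {H : SimpleGraph V} (hc : Crit d V H) (hd : 1000 ≤ d)
    {C : Finset V} (hC : Clq H C) (hCb : 49 * d ≤ 50 * C.card)
    {x1 x2 y : V} (hx1 : x1 ∉ C) (hx2 : x2 ∉ C) (hx : x1 ≠ x2) (hy : y ∈ C)
    (hn : ¬ H.Adj x1 x2) (hn1 : ¬ H.Adj x1 y) (hn2 : ¬ H.Adj x2 y)
    (ha1 : ∀ w ∈ C, w ≠ y → H.Adj x1 w) (ha2 : ∀ w ∈ C, w ≠ y → H.Adj x2 w) : False := by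
  have hfree := hc.free C hC
  have x1y : x1 ≠ y := fun h => hx1 (h ▸ hy)
  have x2y : x2 ≠ y := fun h => hx2 (h ▸ hy)
  set U := C.erase y with hU
  have hUC : U ⊆ C := Finset.erase_subset _ _
  have hUc : U.card + 1 = C.card := by
    rw [hU, Finset.card_erase_of_mem hy]
    have := Finset.card_pos.mpr ⟨y, hy⟩
    omega
  have hyU : y ∉ U := by simp [hU]
  have hx1U : x1 ∉ U := fun h => hx1 (hUC h)
  have hx2U : x2 ∉ U := fun h => hx2 (hUC h)
  have memU : ∀ v, v ∈ U ↔ v ≠ y ∧ v ∈ C := by
    intro v; rw [hU, Finset.mem_erase]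
  let r : V → V := fun v => if v = y ∨ v = x2 then x1 else v
  have r1 : r y = x1 := by simp [r]
  have r2 : r x2 = x1 := by simp [r]
  have r3 : ∀ v, v ≠ y → v ≠ x2 → r v = v := by intro v h1 h2; simp [r, h1, h2]
  have hin : ∀ x, (∀ w ∈ U, H.Adj x w) → U.card ≤ (nb H x ∩ U).card := by
    intro x h
    apply Finset.card_le_card
    intro w hw
    rw [Finset.mem_inter, mem_nb]
    exact ⟨h w hw, hw⟩
  have i1 := hin x1 (fun w hw => ha1 w ((memU w).mp hw).2 ((memU w).mp hw).1)
  have i2 := hin x2 (fun w hw => ha2 w ((memU w).mp hw).2 ((memU w).mp hw).1)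
  have i3 := hin y (fun w hw => hC y hy w ((memU w).mp hw).2 (Ne.symm ((memU w).mp hw).1))
  have hm := merge hc U r {x1} ?_ ?_ ⟨y, Or.inr (by rw [r1]; exact x1y)⟩ ?_ ?_ ?_
  · obtain ⟨f, hf, hfr⟩ := hm
    have f1 : f y = f x1 := by rw [hfr y hyU, r1]
    have f2 : f x2 = f x1 := by rw [hfr x2 hx2U, r2]
    apply hc.ncol
    refine extend H (d - 1) (fun _ => 0) U.card U f rfl hf ?_
    intro v hv
    have hvC := hUC hv
    have hvy : v ≠ y := fun h => hyU (h ▸ hv)
    have hdv := hc.deg v
    have hb := block_bound H (fun _ => 0) U f v {y, x2} ∅ ?_ ?_ (by simp) (by simp)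
    · rw [Finset.card_pair x2y.symm, Finset.card_empty] at hb
      omega
    · intro w hw
      rw [Finset.mem_insert, Finset.mem_singleton] at hw
      rw [Finset.mem_sdiff, mem_nb]
      rcases hw with rfl | rfl
      · exact ⟨hC v hvC w hy hvy, hyU⟩
      · exact ⟨(ha2 v hvC hvy).symm, hx2U⟩
    · intro p hp
      rw [Finset.mem_insert, Finset.mem_singleton] at hp
      refine ⟨x1, ?_, ?_⟩
      · rw [Finset.mem_sdiff, Finset.mem_sdiff, mem_nb]
        exact ⟨⟨(ha1 v hvC hvy).symm, hx1U⟩, by simp [x1y, hx]⟩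
      · rcases hp with rfl | rfl
        · exact f1.symm
        · exact f2.symm
  · intro a ha
    by_cases h1 : a = y
    · rw [h1, r1]; exact hx1U
    · by_cases h2 : a = x2
      · rw [h2, r2]; exact hx1U
      · rw [r3 a h1 h2]; exact ha
  · intro a
    by_cases h1 : a = y
    · rw [h1, r1, r3 x1 x1y hx]
    · by_cases h2 : a = x2
      · rw [h2, r2, r3 x1 x1y hx]
      · rw [r3 a h1 h2, r3 a h1 h2]
  · have key : ∀ a b, H.Adj a b → (a = y ∨ a = x2) → r a ≠ r b := by
      intro a b hab h1
      have hra : r a = x1 := by rcases h1 with rfl | rfl <;> assumption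
      rw [hra]
      have hb1 : b ≠ y := by
        rintro rfl
        rcases h1 with rfl | rfl
        · exact H.loopless.irrefl _ hab
        · exact hn2 hab
      have hb2 : b ≠ x2 := by
        rintro rfl
        rcases h1 with rfl | rfl
        · exact hn2 hab.symm
        · exact H.loopless.irrefl _ hab
      rw [r3 b hb1 hb2]
      rintro rfl
      rcases h1 with rfl | rfl
      · exact hn1 hab.symm
      · exact hn hab.symm
    intro a _ b _ hab
    by_cases h1 : a = y ∨ a = x2
    · exact key a b hab h1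
    · by_cases h2 : b = y ∨ b = x2
      · exact (key b a hab.symm h2).symm
      · push Not at h1 h2
        rw [r3 a h1.1 h1.2, r3 b h2.1 h2.2]
        rintro rfl
        exact H.loopless.irrefl _ hab
  · intro p hp a _ hra
    rw [Finset.mem_singleton] at hp
    by_cases h1 : a = y
    · rw [h1, r1] at hra; exact absurd hra.symm hp
    · by_cases h2 : a = x2
      · rw [h2, r2] at hra; exact absurd hra.symm hp
      · rw [r3 a h1 h2] at hra; exact hra
  · intro p hp
    rw [Finset.mem_singleton] at hp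
    subst hp
    have hsub : (Finset.univ.filter (fun a => a ∉ U ∧ r a = p)).biUnion (fun a => nb H a \ U) ⊆
        ((nb H p \ U) ∪ (nb H y \ U)) ∪ (nb H x2 \ U) := by
      intro w hw
      rw [Finset.mem_biUnion] at hw
      obtain ⟨a, ha, hw⟩ := hw
      rw [Finset.mem_filter] at ha
      rw [Finset.mem_union, Finset.mem_union]
      by_cases h1 : a = y
      · left; right; rw [← h1]; exact hw
      · by_cases h2 : a = x2
        · right; rw [← h2]; exact hw
        · rw [r3 a h1 h2] at ha; left; left; rw [← ha.2.2]; exact hw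
    have e1 := (Finset.card_le_card hsub).trans (Finset.card_union_le _ _)
    have e0 := Finset.card_union_le (nb H p \ U) (nb H y \ U)
    have e2 := sdiff_bound hc p U
    have e3 := sdiff_bound hc y U
    have e4 := sdiff_bound hc x2 U
    omega

theorem one_huge {d : ℕ} {H : SimpleGraph V} (hc : Crit d V H) (hd : 1000 ≤ d)
    {F : Finset (Finset V)} (hF : Fam d H F)
    (hmax : ∀ F', Fam d H F' → ∑ C ∈ F', C.card ≤ ∑ C ∈ F, C.card)
    {C : Finset V} (hCF : C ∈ F) {z x1 x2 : V} (hz : z ∈ C) (hx1 : x1 ∉ C) (hx2 : x2 ∉ C)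
    (hx : x1 ≠ x2) (hzx1 : H.Adj z x1) (hzx2 : H.Adj z x2)
    (hh1 : d - C.card + 6 ≤ (nb H x1 ∩ C).card) (hh2 : d - C.card + 6 ≤ (nb H x2 ∩ C).card) :
    False := by
  obtain ⟨hC, hCb⟩ := hF.1 C hCF
  have hfree := hc.free C hC
  -- vertices adjacent to almost all of C lie in no other member
  have hother : ∀ x, x ∉ C → C.card ≤ (nb H x ∩ C).card + 1 → ∀ C'' ∈ F, C'' ≠ C → x ∉ C'' := by
    intro x hxC hxc C'' hC'' hne hxC''
    obtain ⟨hC2, hC2b⟩ := hF.1 C'' hC''
    have hdis := hF.2 C'' hC'' C hCF hne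
    have hsub : (C''.erase x) ∪ (nb H x ∩ C) ⊆ nb H x := by
      intro w hw
      rw [Finset.mem_union, Finset.mem_erase, Finset.mem_inter] at hw
      rcases hw with h | h
      · exact mem_nb.mpr (hC2 x hxC'' w h.2 h.1.symm)
      · exact h.1
    have hdd : Disjoint (C''.erase x) (nb H x ∩ C) :=
      Finset.disjoint_of_subset_left (Finset.erase_subset _ _)
        (Finset.disjoint_of_subset_right Finset.inter_subset_right hdis)
    have e1 := Finset.card_le_card hsub
    rw [Finset.card_union_of_disjoint hdd, Finset.card_erase_of_mem hxC''] at e1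
    have := hc.deg x
    omega
  have hne : ∀ x, x ∉ C → (C \ nb H x).Nonempty := by
    intro x hxC
    by_contra hcon
    rw [Finset.not_nonempty_iff_eq_empty, Finset.sdiff_eq_empty_iff_subset] at hcon
    have hcl : Clq H (insert x C) := by
      intro a ha b hb hab
      rw [Finset.mem_insert] at ha hb
      rcases ha with rfl | ha <;> rcases hb with rfl | hb
      · exact absurd rfl hab
      · exact mem_nb.mp (hcon hb)
      · exact (mem_nb.mp (hcon ha)).symm
      · exact hC a ha b hb hab
    refine fam_swap (by omega) hF hmax C (insert x C) hCF hcl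
      (by rw [Finset.card_insert_of_notMem hxC]; omega) ?_
    intro C'' hC'' hneq
    rw [Finset.disjoint_insert_left]
    refine ⟨hother x hxC ?_ C'' hC'' hneq, hF.2 C hCF C'' hC'' hneq.symm⟩
    rw [Finset.inter_eq_right.mpr hcon]; omega
  obtain ⟨y1, hy1⟩ := hne x1 hx1
  obtain ⟨y2, hy2⟩ := hne x2 hx2
  rw [Finset.mem_sdiff, mem_nb] at hy1 hy2
  by_cases hA : ∃ a ∈ C, ∃ b ∈ C, ¬ H.Adj x1 a ∧ ¬ H.Adj x2 b ∧ a ≠ b
  · obtain ⟨a, ha, b, hb, hna, hnb, hab⟩ := hA
    exact two_merge hc hC hz hx1 hx2 hx hzx1 hzx2 ha hb hab hna hnb hh1 hh2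
  · push Not at hA
    have hyy : y1 = y2 := hA y1 hy1.1 y2 hy2.1 hy1.2 hy2.2
    subst hyy
    have ha1 : ∀ w ∈ C, w ≠ y1 → H.Adj x1 w := by
      intro w hw hwy
      by_contra hcon
      exact hwy (hA w hw y1 hy1.1 hcon hy2.2)
    have ha2 : ∀ w ∈ C, w ≠ y1 → H.Adj x2 w := by
      intro w hw hwy
      by_contra hcon
      exact hwy (hA y1 hy1.1 w hw hy1.2 hcon).symm
    have hcc : ∀ x, (∀ w ∈ C, w ≠ y1 → H.Adj x w) → C.card ≤ (nb H x ∩ C).card + 1 := by
      intro x h
      have : C ⊆ insert y1 (nb H x ∩ C) := by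
        intro w hw
        rw [Finset.mem_insert, Finset.mem_inter, mem_nb]
        by_cases hwy : w = y1
        · left; exact hwy
        · right; exact ⟨h w hw hwy, hw⟩
      exact (Finset.card_le_card this).trans (Finset.card_insert_le _ _)
    by_cases hadj : H.Adj x1 x2
    · have hx1e : x1 ∉ C.erase y1 := fun h => hx1 (Finset.mem_of_mem_erase h)
      have hx2e : x2 ∉ C.erase y1 := fun h => hx2 (Finset.mem_of_mem_erase h)
      have hcl : Clq H (insert x1 (insert x2 (C.erase y1))) := by
        have s1 : ∀ w ∈ C.erase y1, H.Adj x1 w := fun w hw =>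
          ha1 w (Finset.mem_of_mem_erase hw) (Finset.ne_of_mem_erase hw)
        have s2 : ∀ w ∈ C.erase y1, H.Adj x2 w := fun w hw =>
          ha2 w (Finset.mem_of_mem_erase hw) (Finset.ne_of_mem_erase hw)
        intro a ha b hb hab
        rw [Finset.mem_insert, Finset.mem_insert] at ha hb
        rcases ha with rfl | rfl | ha <;> rcases hb with rfl | rfl | hb
        · exact absurd rfl hab
        · exact hadj
        · exact s1 b hb
        · exact hadj.symm
        · exact absurd rfl hab
        · exact s2 b hb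
        · exact (s1 a ha).symm
        · exact (s2 a ha).symm
        · exact hC a (Finset.mem_of_mem_erase ha) b (Finset.mem_of_mem_erase hb) hab
      have hcard : (insert x1 (insert x2 (C.erase y1))).card = C.card + 1 := by
        rw [Finset.card_insert_of_notMem (by rw [Finset.mem_insert]; push Not; exact ⟨hx, hx1e⟩),
          Finset.card_insert_of_notMem hx2e, Finset.card_erase_of_mem hy1.1]
        have := Finset.card_pos.mpr ⟨y1, hy1.1⟩
        omega
      refine fam_swap (by omega) hF hmax C _ hCF hcl (by rw [hcard]; omega) ?_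
      intro C'' hC'' hneq
      rw [Finset.disjoint_insert_left, Finset.disjoint_insert_left]
      exact ⟨hother x1 hx1 (hcc x1 ha1) C'' hC'' hneq, hother x2 hx2 (hcc x2 ha2) C'' hC'' hneq,
        Finset.disjoint_of_subset_left (Finset.erase_subset _ _) (hF.2 C hCF C'' hC'' hneq.symm)⟩
    · exact triple_merge hc hd hC hCb hx1 hx2 hx hy1.1 hadj hy1.2 hy2.2 ha1 ha2

end Pool.Agent.Helper244.RB
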