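import Pool.Agent.Helper244.RB.Bound2

set_option autoImplicit false
open Classical

namespace Pool.Agent.Helper244.RB

variable {V : Type} [Fintype V] {t d : ℕ}

lemma NHs_mem {G : SimpleGraph V} {C : Finset V} {z a : V} (ha : a ∈ NHs d G C z) :
    G.Adj z a ∧ a ∉ C ∧ degIn G C a < d - C.card + 6 := by
  rw [NHs, Finset.mem_filter, mem_nb] at ha
  exact ha

/-- many disjoint units -/
theorem units {G : SimpleGraph V} {F : Finset (Finset V)} (hR : RStr d V G F) {C : Finset V}
    (hC : C ∈ F) : ∃ y y' : V → V, (∀ z ∈ C, y z ∈ NHs d G C z ∧ y' z ∈ NHs d G C z ∧ y z ≠ y' z) ∧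
      ∀ m : ℕ, m * (2 * (d - C.card + 5)) ≤ C.card → ∃ I ⊆ C, I.card = m ∧
        ∀ z ∈ I, ∀ w ∈ I, z ≠ w → Disjoint ({z, y z, y' z} : Finset V) {w, y w, y' w} := by
  have h1 : ∀ z, ∃ p : V × V, z ∈ C → p.1 ∈ NHs d G C z ∧ p.2 ∈ NHs d G C z ∧ p.1 ≠ p.2 := by
    intro z
    by_cases hz : z ∈ C
    · have h2 := NH_card hR hC hz
      have h3 := hR.small C hC
      obtain ⟨a, ha, b, hb, hab⟩ := Finset.one_lt_card.mp (show 1 < (NHs d G C z).card by omega)
      exact ⟨(a, b), fun _ => ⟨ha, hb, hab⟩⟩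
    · exact ⟨(z, z), fun h => absurd h hz⟩
  choose p hp using h1
  refine ⟨fun z => (p z).1, fun z => (p z).2, fun z hz => hp z hz, ?_⟩
  intro m
  induction m with
  | zero =>
    intro _
    exact ⟨∅, Finset.empty_subset _, rfl, fun z hz => absurd hz (Finset.notMem_empty z)⟩
  | succ m ih =>
    intro hm
    rw [Nat.succ_mul] at hm
    obtain ⟨I, hIC, hIm, hdis⟩ := ih (by omega)
    -- blocked set
    set X : Finset V := I.biUnion (fun w => ({(p w).1, (p w).2} : Finset V)) with hX
    have hXc : X.card ≤ m * 2 := by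
      rw [← hIm]
      exact Finset.card_biUnion_le_card_mul _ _ _ (fun w _ => Finset.card_le_two)
    set Bk : Finset V := X.biUnion (fun x => C.filter (fun c => G.Adj x c)) with hBk
    have hBc : Bk.card ≤ (m * 2) * (d - C.card + 5) := by
      refine (Finset.card_biUnion_le_card_mul _ _ (d - C.card + 5) ?_).trans (Nat.mul_le_mul_right _ hXc)
      intro x hx
      rw [hX, Finset.mem_biUnion] at hx
      obtain ⟨w, hw, hx⟩ := hx
      rw [Finset.mem_insert, Finset.mem_singleton] at hx
      have h4 := hp w (hIC hw)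
      have h5 : degIn G C x < d - C.card + 6 := by
        rcases hx with rfl | rfl
        · exact (NHs_mem h4.1).2.2
        · exact (NHs_mem h4.2.1).2.2
      rw [degIn] at h5
      omega
    have hlt : Bk.card < C.card := by
      have e : m * 2 * (d - C.card + 5) = m * (2 * (d - C.card + 5)) := by ring
      rw [e] at hBc
      omega
    obtain ⟨z, hz, hzB⟩ := Finset.exists_mem_notMem_of_card_lt_card hlt
    have hnotX : ∀ x, G.Adj z x → x ∉ X := by
      intro x hzx hx
      apply hzB
      rw [hBk, Finset.mem_biUnion]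
      exact ⟨x, hx, Finset.mem_filter.mpr ⟨hz, hzx.symm⟩⟩
    have hpz := hp z hz
    have hzI : z ∉ I := by
      intro hzI
      apply hnotX (p z).1 (NHs_mem hpz.1).1
      rw [hX, Finset.mem_biUnion]
      exact ⟨z, hzI, by simp⟩
    have key : ∀ w ∈ I, Disjoint ({z, (p z).1, (p z).2} : Finset V) {w, (p w).1, (p w).2} := by
      intro w hw
      have hwC := hIC hw
      have hpw := hp w hwC
      have n1 := NHs_mem hpz.1
      have n2 := NHs_mem hpz.2.1
      have n3 := NHs_mem hpw.1
      have n4 := NHs_mem hpw.2.1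
      have hzw : z ≠ w := by rintro rfl; exact hzI hw
      have inX : ∀ x, x = (p w).1 ∨ x = (p w).2 → x ∈ X := by
        intro x hx
        rw [hX, Finset.mem_biUnion]
        exact ⟨w, hw, by rw [Finset.mem_insert, Finset.mem_singleton]; exact hx⟩
      rw [Finset.disjoint_left]
      intro x hx hx'
      rw [Finset.mem_insert, Finset.mem_insert, Finset.mem_singleton] at hx hx'
      rcases hx with rfl | rfl | rfl
      · rcases hx' with h | h | h
        · exact hzw h
        · exact n3.2.1 (h ▸ hz)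
        · exact n4.2.1 (h ▸ hz)
      · rcases hx' with h | h
        · exact n1.2.1 (h ▸ hwC)
        · exact hnotX _ n1.1 (inX _ h)
      · rcases hx' with h | h
        · exact n2.2.1 (h ▸ hwC)
        · exact hnotX _ n2.1 (inX _ h)
    refine ⟨insert z I, ?_, ?_, ?_⟩
    · intro w hw
      rw [Finset.mem_insert] at hw
      rcases hw with rfl | hw
      · exact hz
      · exact hIC hw
    · rw [Finset.card_insert_of_notMem hzI, hIm]
    · intro u hu w hw huw
      rw [Finset.mem_insert] at hu hw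
      rcases hu with rfl | hu
      · rcases hw with rfl | hw
        · exact absurd rfl huw
        · exact key w hw
      · rcases hw with rfl | hw
        · exact (key u hu).symm
        · exact hdis u hu w hw huw

omit [Fintype V] in
lemma used_dep' [NeZero d] {S : Finset V} {v : V} (hv : v ∈ S) {ω ω' : Om V t d}
    (h : ∀ u ∈ S, ω u = ω' u) : usedB ω t v ↔ usedB ω' t v := by
  rw [used_iff, used_iff, h v hv]

omit [Fintype V] in
lemma any_dep [NeZero d] (y y' : V → V) (z : V) :
    DependsOn (fun ω : Om V t d => anyU y y' ω t z) {z, y z, y' z} := by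
  intro ω ω' h hu
  have e1 := used_dep' (v := z) (by simp) h
  have e2 := used_dep' (v := y z) (by simp) h
  have e3 := used_dep' (v := y' z) (by simp) h
  unfold anyU at hu ⊢
  rwa [← e1, ← e2, ← e3]

omit [Fintype V] in
lemma two_dep [NeZero d] (y y' : V → V) (z : V) :
    DependsOn (fun ω : Om V t d => twoU y y' ω t z) {z, y z, y' z} := by
  intro ω ω' h hu
  have e1 := used_dep' (v := z) (by simp) h
  have e2 := used_dep' (v := y z) (by simp) h
  have e3 := used_dep' (v := y' z) (by simp) h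
  unfold twoU at hu ⊢
  rwa [← e1, ← e2, ← e3]

omit [Fintype V] in
lemma all_dep [NeZero d] (y y' : V → V) (z : V) :
    DependsOn (fun ω : Om V t d => allU y y' ω t z) {z, y z, y' z} := by
  intro ω ω' h hu
  have e1 := used_dep' (v := z) (by simp) h
  have e2 := used_dep' (v := y z) (by simp) h
  have e3 := used_dep' (v := y' z) (by simp) h
  unfold allU at hu ⊢
  rwa [← e1, ← e2, ← e3]

lemma pr_two [NeZero d] {u v : V} (huv : u ≠ v) :
    pr (fun ω : Om V t d => usedB ω t u ∧ usedB ω t v) ≤ ((t : ℝ) / d) ^ 2 := by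
  have h := used_all (t := t) (d := d) ({u, v} : Finset V)
  rw [Finset.card_pair huv] at h
  refine le_trans (pr_mono ?_) h
  intro ω hω w hw
  rw [Finset.mem_insert, Finset.mem_singleton] at hw
  rcases hw with rfl | rfl
  · exact hω.1
  · exact hω.2

lemma pr_three [NeZero d] {u v w : V} (huv : u ≠ v) (huw : u ≠ w) (hvw : v ≠ w) :
    pr (fun ω : Om V t d => usedB ω t u ∧ usedB ω t v ∧ usedB ω t w) ≤ ((t : ℝ) / d) ^ 3 := by
  have h := used_all (t := t) (d := d) ({u, v, w} : Finset V)
  rw [Finset.card_eq_three.mpr ⟨u, v, w, huv, huw, hvw, rfl⟩] at h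
  refine le_trans (pr_mono ?_) h
  intro ω hω x hx
  rw [Finset.mem_insert, Finset.mem_insert, Finset.mem_singleton] at hx
  rcases hx with rfl | rfl | rfl
  · exact hω.1
  · exact hω.2.1
  · exact hω.2.2

lemma any_pr [NeZero d] (y y' : V → V) (z : V) :
    pr (fun ω : Om V t d => anyU y y' ω t z) ≤ 3 * ((t : ℝ) / d) := by
  unfold anyU
  refine (pr_or_le _ _).trans ?_
  have h1 := pr_or_le (fun ω : Om V t d => usedB ω t (y z)) (fun ω => usedB ω t (y' z))
  have h2 := pr_used (t := t) (d := d) z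
  have h3 := pr_used (t := t) (d := d) (y z)
  have h4 := pr_used (t := t) (d := d) (y' z)
  linarith

lemma two_pr [NeZero d] (y y' : V → V) (z : V) (h1 : z ≠ y z) (h2 : z ≠ y' z) (h3 : y z ≠ y' z) :
    pr (fun ω : Om V t d => twoU y y' ω t z) ≤ 3 * ((t : ℝ) / d) ^ 2 := by
  unfold twoU
  refine (pr_or_le _ _).trans ?_
  have e0 := pr_or_le (fun ω : Om V t d => usedB ω t z ∧ usedB ω t (y' z))
    (fun ω => usedB ω t (y z) ∧ usedB ω t (y' z))
  have e1 := pr_two (t := t) (d := d) h1
  have e2 := pr_two (t := t) (d := d) h2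
  have e3 := pr_two (t := t) (d := d) h3
  linarith

lemma all_pr [NeZero d] (y y' : V → V) (z : V) (h1 : z ≠ y z) (h2 : z ≠ y' z) (h3 : y z ≠ y' z) :
    pr (fun ω : Om V t d => allU y y' ω t z) ≤ ((t : ℝ) / d) ^ 3 := by
  unfold allU
  exact pr_three h1 h2 h3

/-- tail in threshold form -/
lemma tail_thr [NeZero d] (I : Finset V) (P : V → Om V t d → Prop) (S : V → Finset V) (p : ℝ)
    (hp0 : 0 ≤ p) (hdep : ∀ i ∈ I, DependsOn (P i) (S i))
    (hdis : ∀ i ∈ I, ∀ j ∈ I, i ≠ j → Disjoint (S i) (S j)) (hp : ∀ i ∈ I, pr (P i) ≤ p)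
    (m c N : ℕ) (hc : 0 < c) (q : ℝ) (hmN : c * N ≤ m) (hN : 0 < N) (hq0 : 0 ≤ q) (hq1 : q ≤ 1)
    (hq : 3 * (I.card : ℝ) * p * c ≤ q * m) :
    pr (fun ω => m < c * (I.filter (fun i => P i ω)).card) ≤ q ^ N := by
  have hcr : (0 : ℝ) < c := by exact_mod_cast hc
  have hs : N ≤ m / c := (Nat.le_div_iff_mul_le hc).mpr (by rw [mul_comm]; exact hmN)
  set s := m / c + 1 with hsdef
  have hspos : 0 < s := by omega
  have hsr : (0 : ℝ) < s := by exact_mod_cast hspos
  have hms : (m : ℝ) ≤ c * s := by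
    have : m < c * (m / c + 1) := Nat.lt_mul_div_succ m hc
    exact_mod_cast this.le
  have h1 : pr (fun ω => m < c * (I.filter (fun i => P i ω)).card) ≤
      pr (fun ω => s ≤ (I.filter (fun i => P i ω)).card) := by
    apply pr_mono
    intro ω hω
    have : m / c < (I.filter (fun i => P i ω)).card := (Nat.div_lt_iff_lt_mul hc).mpr (by rw [mul_comm]; exact hω)
    omega
  refine h1.trans ((item_tail I P S p hp0 hdep hdis hp s hspos).trans ?_)
  have h2 : 3 * (I.card : ℝ) * p / s ≤ q := by
    rw [div_le_iff₀ hsr]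
    have h3 : 3 * (I.card : ℝ) * p * c ≤ q * s * c := by
      calc 3 * (I.card : ℝ) * p * c ≤ q * m := hq
        _ ≤ q * (c * s) := mul_le_mul_of_nonneg_left hms hq0
        _ = q * s * c := by ring
    exact le_of_mul_le_mul_right h3 hcr
  calc (3 * (I.card : ℝ) * p / s) ^ s ≤ q ^ s := pow_le_pow_left₀ (by positivity) h2 _
    _ ≤ q ^ N := pow_le_pow_of_le_one hq0 hq1 (by omega)

end Pool.Agent.Helper244.RB
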